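import Pool.Agent.P.MP_8e9e7d_al.BIso

set_option autoImplicit false

namespace Pool.Agent.P.MP_8e9e7d_al.B

variable {M G : ℤ → Prop} {x y z w c u : ℤ}

theorem det1 (h : Sg M G) (l : Lab G x y z w) (h1 : M (y + z - x)) (h2 : M (x + w - y)) {m : ℤ}
    (nx : ¬ M (m * w - x)) (ny : ¬ M (m * w - y)) (nz : ¬ M (m * w - z))
    (hr : M (m * w - z + x - y)) : x + w = y + z := by
  obtain ⟨e, he, e1⟩ := h.one l h1 (fun a => nx (cst (h.add a hr) (by ring)))
    (fun a => ny (cst (h.add a hr) (by ring))) (fun a => nz (cst (h.add a hr) (by ring)))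
  rcases he.eq_or_lt with rfl | he
  · exact absurd (cst (h.mem l.gz) (by omega)) (h.sub_ne l.gx l.gy l.xy)
  rcases h.atom l.gz h2 (cst (h.mul (n := e - 1) (by omega) (h.mem l.gw))
    (by linear_combination -e1)) with a | a
  · exact absurd (cst (h.mem l.gw) (by omega)) (h.sub_ne l.gy l.gx l.xy.symm)
  · omega

theorem T3.fz (h : Sg M G) (t : T3 M G c x y u) (l : Lab G x y z w) (uz : M (u - z)) :
    ∃ m : ℤ, 1 ≤ m ∧ c - u + z = m * w ∧ ¬ M (m * w - x) ∧ ¬ M (m * w - y) ∧ ¬ M (m * w - z) := by
  have a2 : M (c - (c - u + z)) := cst uz (by ring)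
  have nz : ¬ M (c - u + z - z) := fun b => t.pu.1 (cst b (by ring))
  obtain ⟨m, hm, e⟩ := h.one l (t.pu.2 z l.gz) (t.ax h a2) (t.ay h a2) nz
  refine ⟨m, ?_, e, e ▸ t.ax h a2, e ▸ t.ay h a2, e ▸ nz⟩
  rcases hm.eq_or_lt with rfl | hm
  · exact absurd (cst (h.mem l.gz) (by omega)) (t.pu.neg h l)
  · omega

theorem beta_det (h : Sg M G) (t : T3 M G c x y u) (l : Lab G x y z w) (h1 : M (y + z - x))
    (h3 : M (z + u - x)) (h2 : M (x + w - y)) (h4 : M (w + u - y)) (uz : M (u - z))
    (une : u ≠ z) : x + w = y + z := by
  have hx := h.mem l.gx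
  have hy := h.mem l.gy
  have hz := h.mem l.gz
  have hw := h.mem l.gw
  have pz := h.pos l.gz
  have py := h.pos l.gy
  have pw := h.pos l.gw
  obtain ⟨m, hm, e, nx, ny, nz⟩ := t.fz h l uz
  have tx : ¬ M (c + x - u - x) := fun b => t.pu.1 (cst b (by ring))
  have sx : ¬ M (c + x - y - x) := fun b => t.py.1 (cst b (by ring))
  by_cases ty : M (c + x - u - y)
  · exact det1 h l h1 h2 nx ny nz (cst ty (by linear_combination e))
  have tu : c + x - u = u := by
    rcases t.om (s := c + x - u) (fun b => t.nux h (cst b (by ring))) with b | b | b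
    · exact absurd b tx
    · exact absurd b ty
    · have := h.none l b (fun d => tx (cst (h.add d t.mu) (by ring)))
        (fun d => ty (cst (h.add d t.mu) (by ring))) (fun d => tx (cst (h.add d h3) (by ring)))
        (fun d => ty (cst (h.add d h4) (by ring)))
      omega
  by_cases uw : M (u - w)
  · obtain ⟨m', -, e', nx', ny', nz'⟩ := t.sw.fz h l.s12.s34 uw
    rcases t.om (s := c + y - u) (fun b => t.sw.nux h (cst b (by ring))) with b | b | b
    · have := det1 h l.s12.s34 h2 h1 nx' ny' nz' (cst b (by linear_combination e'))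
      omega
    · exact absurd (cst b (by ring)) t.pu.1
    · exact absurd (cst b (by omega)) (h.sub_ne l.gy l.gx l.xy.symm)
  obtain ⟨a, ha, ea⟩ := h.one l.s34 t.mu (t.nux h) (t.sw.nux h) uw
  have a2 : 2 ≤ a := by
    by_contra hlt
    have : a = 0 ∨ a = 1 := by omega
    rcases this with rfl | rfl
    · exact t.u0 l (by omega)
    · exact une (by omega)
  by_cases hz2 : M (x + w - y - z)
  · rcases h.atom l.gw h1 (cst hz2 (by ring)) with d | d
    · exact absurd (cst hz (by omega)) (h.sub_ne l.gx l.gy l.xy)
    · omega
  exfalso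
  obtain ⟨γ, hγ, eγ⟩ := h.one l.s23.s34 h2
    (fun b => h.sub_ne l.gw l.gy l.yw.symm (cst b (by ring))) hz2
    (fun b => h.sub_ne l.gx l.gy l.xy (cst b (by ring)))
  have sy : M (c + x - y - y) := by
    rcases t.om (s := c + x - y) (fun b => h.sub_ne l.gy l.gx l.xy.symm (cst b (by ring)))
      with b | b | b
    · exact absurd b sx
    · exact b
    · exfalso
      by_cases d : c + x - y - u = 0
      · have := t.uy
        omega
      · exact sx (cst (t.pu.add h b d) (by omega))
  obtain ⟨p, q, hp, hq, e2⟩ := h.two l.s23 sy (fun b => sx (cst (h.add b hy) (by ring)))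
    (fun b => sx (cst (h.add b h1) (by ring)))
  have hpγ : p + 1 ≤ γ := by
    by_contra hlt
    exact sx (cst (h.add (h.add (h.mul (n := p - γ) (by omega) hy) (h.mul hq hw)) hw)
      (by linear_combination eγ - e2))
  have hY : M (y + m * w - x) := by
    have r := t.pu.2 y l.gy
    by_cases rx : M (c - u + y - x)
    · exact cst (h.add rx hz) (by linear_combination e)
    obtain ⟨i, j, hi, hj, e3⟩ := h.two l r rx (fun b => t.pu.1 (cst b (by ring)))
    have hjm : j < m := by
      by_contra hlt
      exact h.sub_ne l.gy l.gz l.yz (cst (h.add (h.mul hi hz) (h.mul (n := j - m) (by omega) hw))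
        (by linear_combination e - e3))
    have hia : a ≤ i := by
      by_contra hlt
      exact t.sw.nux h (cst (h.add (h.mul (n := a - i - 1) (by omega) hz)
        (h.mul (n := m - j) (by omega) hw)) (by linear_combination e3 - e - ea))
    exact cst (h.add (h.add (h.mul hj hw) (h.mul (n := i - a) (by omega) hz)) h3)
      (by linear_combination e - e3 + ea)
  have hqm : q + 1 ≤ m := by
    by_contra hlt
    exact sx (cst (h.add (h.add (h.mul hp hy) (h.mul (n := q - m) (by omega) hw)) hY)
      (by linear_combination -e2))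
  have i1 : 0 ≤ (γ - p - 1) * y := mul_nonneg (by omega) py.le
  have i2 : 0 ≤ (m - q - 1) * w := mul_nonneg (by omega) pw.le
  have i3 : 0 < (a - 1) * z := mul_pos (by omega) pz
  nlinarith

theorem beta3 (h : Sg M G) (t : T3 M G c x y u) (l : Lab G x y z w) (h1 : M (y + z - x))
    (h3 : M (z + u - x)) (h2 : M (x + w - y)) (h4 : M (w + u - y)) (uz : M (u - z))
    (une : u ≠ z) (na : ¬ (M (y + w - x) ∧ M (w + u - x))) : LB M G 6 ∧ UB M G 6 := by
  have hd := beta_det h t l h1 h3 h2 h4 uz une
  have hx := h.mem l.gx
  have hy := h.mem l.gy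
  have hz := h.mem l.gz
  have hw := h.mem l.gw
  have pz := h.pos l.gz
  have py := h.pos l.gy
  have pw := h.pos l.gw
  obtain ⟨m, hm, e, nx, ny, nz⟩ := t.fz h l uz
  have tx : ¬ M (y + (m - 1) * w - x) := fun b => t.pu.1 (cst b (by linear_combination -e - hd))
  have sx : ¬ M (u + (m - 1) * w - x) := fun b => t.py.1 (cst b (by linear_combination -e - hd))
  have fw : M (y + m * w - x) := cst (t.pu.2 w l.gw) (by linear_combination e + hd)
  have sw : M (u + m * w - x) := cst (t.py.2 w l.gw) (by linear_combination e + hd)
  have ap : ∀ {s}, ¬ M (s - x) → M (s - y) →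
      M (u + (m - 1) * w - s) ∨ M (y + (m - 1) * w - s) := fun {s} a b => by
    rcases t.ap a with d | d | d
    · exact absurd b (t.ay h d)
    · exact Or.inl (cst d (by linear_combination e + hd))
    · exact Or.inr (cst d (by linear_combination e + hd))
  have ncmp1 : ¬ M (u - y) := t.sw.nux h
  have ncmp2 : ¬ M (y - u) := t.sw.nxu h
  have m2 : 2 ≤ m := by
    by_contra hlt
    have : m = 1 := by omega
    subst this
    exact na ⟨cst fw (by ring), cst sw (by ring)⟩
  have sy : M (u + (m - 1) * w - y) :=
    cst (h.add h4 (h.mul (n := m - 2) (by omega) hw)) (by ring)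
  obtain ⟨p, n, hp, hn, e2⟩ := h.two l.s23 sy (fun b => sx (cst (h.add b hy) (by ring)))
    (fun b => sx (cst (h.add b h1) (by ring)))
  have p1 : 1 ≤ p := by
    by_contra hlt
    have : p = 0 := by omega
    subst this
    rcases le_total n (m - 1) with hl | hl
    · exact ncmp2 (cst (h.mul (n := m - 1 - n) (by omega) hw) (by linear_combination e2))
    · exact ncmp1 (cst (h.mul (n := n - (m - 1)) (by omega) hw) (by linear_combination -e2))
  have y2 : ¬ M (2 * y + 0 * w - x) := fun b => sx (cst (h.add (h.add b
    (h.mul (n := p - 1) (by omega) hy)) (h.mul hn hw)) (by linear_combination -e2))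
  obtain ⟨q, hq, hqm, hP, hmin⟩ := first (fun j => M (2 * y + j * w - x)) y2 (n := m - 1)
    (by omega) (cst (t.pu.2 y l.gy) (by linear_combination e + hd))
  have uy : M (u + y - x) := cst (h.add uz h1) (by ring)
  have F3 : ∀ T, M (T - y) → ¬ M (T - x) → M (T - z) →
      ∃ n, 0 ≤ n ∧ n ≤ m - 1 ∧ T = u + n * w := by
    intro T a b d
    by_cases hu : M (T - u)
    · obtain ⟨n, hn, e3⟩ := h.one l hu (fun d => b (cst (h.add d t.mu) (by ring)))
        (fun d => b (cst (h.add d uy) (by ring))) (fun d => b (cst (h.add d h3) (by ring)))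
      refine ⟨n, hn, ?_, by omega⟩
      by_contra hlt
      exact b (cst (h.add sw (h.mul (n := n - m) (by omega) hw)) (by linear_combination -e3))
    exfalso
    have a1 : M (c - (T - z)) := by
      by_contra hn
      rcases t.om hn with g | g | g
      · exact b (cst (h.add g hz) (by ring))
      · exact b (cst (h.add g h1) (by ring))
      · exact hu (cst (h.add g hz) (by ring))
    have a2 : M (c - (c - (T - z))) := cst d (by ring)
    have n3 : ¬ M (c - (T - z) - z) := fun g => t.ay h (s := T) (cst g (by ring)) a
    obtain ⟨i, hi, e3⟩ := h.one l a1 (t.ax h a2) (t.ay h a2) n3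
    have him : i ≤ m := by
      by_contra hlt
      exact n3 (cst (h.add (h.mul (n := i - m - 1) (by omega) hw) (t.pu.2 w l.gw))
        (by linear_combination e - e3))
    exact hu (cst (h.mul (n := m - i) (by omega) hw) (by linear_combination e3 - e))
  have tz : ¬ M (y + (m - 1) * w - z) := fun b => by
    obtain ⟨i, -, hi, e3⟩ := F3 _ (cst (h.mul (n := m - 1) (by omega) hw) (by ring)) tx b
    exact ncmp1 (cst (h.mul (n := m - 1 - i) (by omega) hw) (by linear_combination e3))
  have hxy := l.xy
  have hxz := l.xz
  have hxw := l.xw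
  refine six_cu h t l (Or.inl h3) (Or.inr h4)
    ⟨{y + z, y + m * w, 2 * y + (q + 1) * w}, Finset.card_le_three, fun s sx' sy' => ?_⟩
    ⟨{y + z, y + m * w, 2 * y + (q + 1) * w}, ?_, ?_⟩
  · simp only [Finset.mem_insert, Finset.mem_singleton]
    by_cases hc : Conn M G s y x
    · exact Or.inl hc
    right
    have a1 : ¬ M (s - y - x) := fun b => hc (Conn.edge l.gy l.gx b)
    have a2 : M (s - y - w) → ¬ M (s - w - x) := fun b d =>
      hc ((Conn.edge l.gy l.gw b).tr (Conn.edge l.gw l.gx d))
    by_cases a3 : M (s - y - z)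
    · have := via h l h1 a3; tauto
    obtain ⟨i, j, hi, hj, e3⟩ := h.two l.s23 sy' a1 a3
    rcases hi.eq_or_lt with rfl | hi
    · have b1 : m ≤ j := by
        by_contra hlt
        exact tx (cst (h.add sx' (h.mul (n := m - 1 - j) (by omega) hw)) (by linear_combination e3))
      have b2 : j ≤ m := by
        by_contra hlt
        exact a2 (cst (h.mul (n := j - 1) (by omega) hw) (by linear_combination -e3))
          (cst (h.add fw (h.mul (n := j - 1 - m) (by omega) hw)) (by linear_combination -e3))
      have : j = m := by omega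
      subst this
      exact Or.inr (Or.inl (by linear_combination e3))
    have ay : M (s - y - y) := cst (h.add (h.mul (n := i - 1) (by omega) hy) (h.mul hj hw))
      (by linear_combination -e3)
    rcases ap a1 ay with d | d
    · exfalso
      obtain ⟨k, hk, e4⟩ := h.one l d (fun b => sx (cst (h.add b sy') (by ring)))
        (fun b => sx (cst (h.add b sx') (by ring)))
        (fun b => sx (cst (h.add (h.add b ay) h1) (by ring)))
      have hkm : k ≤ m - 1 := by
        by_contra hlt
        exact sx (cst (h.add (h.add ay fw) (h.mul (n := k - m) (by omega) hw))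
          (by linear_combination -e4))
      rcases hj.eq_or_lt with rfl | hj
      · exact a3 (cst (h.add uz (h.mul (n := m - 1 - k) (by omega) hw)) (by linear_combination e4))
      have b1 := a2 (cst (h.add (h.mul (n := i) (by omega) hy) (h.mul (n := j - 1) (by omega) hw))
        (by linear_combination -e3))
      rcases ap b1 (cst (h.add (h.mul (n := i) (by omega) hy) (h.mul (n := j - 1) (by omega) hw))
        (by linear_combination -e3)) with g | g
      · exact ny (cst (h.add g (h.mul (n := m - 1 - k) (by omega) hw)) (by linear_combination e4))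
      · exact ny (cst (h.add (h.add g (h.mul (n := j) (by omega) hw))
          (h.mul (n := i - 1) (by omega) hy)) (by linear_combination -e3))
    · have i1 : i = 1 := by
        by_contra hlt
        exact ny (cst (h.add (h.add d (h.mul (n := j + 1) (by omega) hw))
          (h.mul (n := i - 2) (by omega) hy)) (by linear_combination -e3))
      subst i1
      have b1 : q + 1 ≤ j := by
        by_contra hlt
        exact hmin j hj (by omega) (cst sx' (by linear_combination e3))
      have b2 : j ≤ q + 1 := by
        by_contra hlt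
        exact a2 (cst (h.add hy (h.mul (n := j - 1) (by omega) hw)) (by linear_combination -e3))
          (cst (h.add hP (h.mul (n := j - 2 - q) (by omega) hw)) (by linear_combination -e3))
      have : j = q + 1 := by omega
      subst this
      exact Or.inr (Or.inr (by linear_combination e3))
  · rw [Finset.card_eq_three.2 ⟨_, _, _, fun e => nz (cst h.zero (by linear_combination e)),
      fun e => h.sub_ne l.gz l.gy l.yz.symm (cst (h.mul (n := q + 1) (by omega) hw)
        (by linear_combination -e)),
      fun e => ny (cst (h.mul (n := q + 1) (by omega) hw) (by linear_combination -e)), rfl⟩]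
  · simp only [Finset.mem_insert, Finset.mem_singleton]
    rintro s (rfl | rfl | rfl)
    · exact pair_ok h l h1
    · refine ⟨fw, cst (h.mul (n := m) (by omega) hw) (by ring), fun hc => ?_⟩
      have := hc.closed (fun v => v = y ∨ v = w) (Or.inl rfl) (by
        rintro a v (rfl | rfl) hv hm <;> rcases (l.gen v).1 hv with rfl | rfl | rfl | rfl
        · exact absurd (cst hm (by ring)) nx
        · exact Or.inl rfl
        · exact absurd (cst hm (by ring)) nz
        · exact Or.inr rfl
        · exact absurd (cst hm (by ring)) tx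
        · exact Or.inl rfl
        · exact absurd (cst hm (by ring)) tz
        · exact Or.inr rfl)
      omega
    · refine ⟨hP, cst (h.add hy (h.mul (n := q + 1) (by omega) hw)) (by ring), fun hc => ?_⟩
      have := hc.closed (fun v => v = y ∨ v = w ∨ (v = z ∧ ¬ M (2 * y + (q + 1) * w - z - x)))
        (Or.inl rfl) (by
        rintro a v (rfl | rfl | ⟨rfl, ha⟩) hv hm <;>
          rcases (l.gen v).1 hv with rfl | rfl | rfl | rfl
        · exact absurd (cst (h.add hm (h.mul (n := m - 2 - q) (by omega) hw)) (by ring)) tx
        · exact Or.inl rfl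
        · exact absurd (cst (h.add hm (h.mul (n := m - 2 - q) (by omega) hw)) (by ring)) tz
        · exact Or.inr (Or.inl rfl)
        · exact absurd (cst hm (by ring)) (hmin q hq le_rfl)
        · exact Or.inl rfl
        · refine Or.inr (Or.inr ⟨rfl, fun b => ?_⟩)
          obtain ⟨i, hi, him, e3⟩ := F3 (2 * y + q * a)
            (cst (h.add hy (h.mul hq hw)) (by ring)) (hmin q hq le_rfl) (cst hm (by ring))
          rcases him.eq_or_lt with rfl | him
          · exact t.px.1 (cst b (by linear_combination e3 - e))
          · exact sx (cst (h.add hP (h.mul (n := m - 2 - i) (by omega) hw))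
              (by linear_combination e3))
        · exact Or.inr (Or.inl rfl)
        · exact absurd hm ha
        · exact Or.inl rfl
        · exact Or.inr (Or.inr ⟨rfl, ha⟩)
        · exact Or.inr (Or.inl rfl))
      omega

end Pool.Agent.P.MP_8e9e7d_al.B
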