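import Pool.Agent.P.MP_8e9e7d_al.BTop

set_option autoImplicit false

namespace Pool.Agent.P.MP_8e9e7d_al.B

open MvPolynomial

/-- The degree of a factorization. -/
def dg (g : Fin 4 → ℕ) (m : Fin 4 →₀ ℕ) : ℕ := ∑ i, m i * g i

theorem dg_add (g : Fin 4 → ℕ) (m n : Fin 4 →₀ ℕ) : dg g (m + n) = dg g m + dg g n := by
  simp [dg, add_mul, Finset.sum_add_distrib]

theorem dg_single (g : Fin 4 → ℕ) (i : Fin 4) : dg g (Finsupp.single i 1) = g i := by
  classical
  rw [dg, Finset.sum_eq_single i] <;> simp +contextual [Finsupp.single_apply, eq_comm]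

theorem dg_zero (g : Fin 4 → ℕ) : dg g 0 = 0 := by simp [dg]

theorem split_at {m : Fin 4 →₀ ℕ} {i : Fin 4} (h : m i ≠ 0) :
    ∃ n : Fin 4 →₀ ℕ, m = Finsupp.single i 1 + n := by
  classical
  refine ⟨m - Finsupp.single i 1, ?_⟩
  ext j
  by_cases hj : i = j
  · subst hj; simp; omega
  · simp [Finsupp.single_apply, hj]

variable (k : Type) [Field k] (g : Fin 4 → ℕ)

/-- The parametrization of the monomial curve. -/
noncomputable def ph : MvPolynomial (Fin 4) k →ₐ[k] Polynomial k :=
  aeval (fun i => (Polynomial.X : Polynomial k) ^ g i)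

theorem ph_mono (m : Fin 4 →₀ ℕ) : ph k g (monomial m 1) = Polynomial.X ^ dg g m := by
  rw [ph, aeval_monomial, Finsupp.prod_fintype _ _ (by simp), dg, ← Finset.prod_pow_eq_pow_sum]
  simp [← pow_mul, mul_comm]

theorem mono_split (i : Fin 4) (n : Fin 4 →₀ ℕ) :
    (monomial (Finsupp.single i 1 + n) 1 : MvPolynomial (Fin 4) k) = X i * monomial n 1 := by
  rw [X, monomial_mul, mul_one]

variable {g} {M G : ℤ → Prop}

theorem fac_ex (hM : ∀ s, M s ↔ ∃ m, (dg g m : ℤ) = s) (hG : ∀ v, G v ↔ ∃ i, (g i : ℤ) = v)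
    {s v : ℤ} (hv : G v) (hs : M (s - v)) :
    ∃ m : Fin 4 →₀ ℕ, (dg g m : ℤ) = s ∧ ∃ i, (g i : ℤ) = v ∧ m i ≠ 0 := by
  obtain ⟨i, rfl⟩ := (hG v).1 hv
  obtain ⟨n, hn⟩ := (hM _).1 hs
  refine ⟨Finsupp.single i 1 + n, ?_, i, rfl, by simp⟩
  rw [dg_add, dg_single]
  push_cast
  omega

open Classical in
/-- A factorization of `s` through the generator `v`. -/
noncomputable def fac (g : Fin 4 → ℕ) (s v : ℤ) : Fin 4 →₀ ℕ :=
  if h : ∃ m : Fin 4 →₀ ℕ, (dg g m : ℤ) = s ∧ ∃ i, (g i : ℤ) = v ∧ m i ≠ 0 then h.choose else 0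

theorem fac_spec (hM : ∀ s, M s ↔ ∃ m, (dg g m : ℤ) = s) (hG : ∀ v, G v ↔ ∃ i, (g i : ℤ) = v)
    {s v : ℤ} (hv : G v) (hs : M (s - v)) :
    (dg g (fac g s v) : ℤ) = s ∧ ∃ i, (g i : ℤ) = v ∧ fac g s v i ≠ 0 := by
  have h := fac_ex hM hG hv hs
  rw [fac, dif_pos h]
  exact h.choose_spec

theorem fac_zero (hp : ∀ i, 0 < g i) (v : ℤ) : fac g 0 v = 0 := by
  rw [fac, dif_neg]
  rintro ⟨m, hm, i, -, hi⟩
  obtain ⟨n, rfl⟩ := split_at hi
  rw [dg_add, dg_single] at hm
  have := hp i
  push_cast at hm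
  omega

theorem ub_bridge (h : Sg M G) (hM : ∀ s, M s ↔ ∃ m, (dg g m : ℤ) = s)
    (hG : ∀ v, G v ↔ ∃ i, (g i : ℤ) = v) (hinj : Function.Injective g) {n : ℕ} (hU : UB M G n) :
    (RingHom.ker (ph k g)).spanFinrank ≤ n := by
  classical
  obtain ⟨L, base, hL, hc⟩ := hU
  have hp : ∀ i, 0 < g i := fun i => by
    have := h.pos ((hG _).2 ⟨i, rfl⟩)
    omega
  let rel : ℤ × ℤ → MvPolynomial (Fin 4) k := fun p =>
    if G p.2 ∧ M (p.1 - p.2) then monomial (fac g p.1 p.2) 1 - monomial (fac g p.1 (base p.1)) 1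
    else 0
  let J : Ideal (MvPolynomial (Fin 4) k) := Ideal.span (L.image rel : Set _)
  have hJ : J ≤ RingHom.ker (ph k g) := by
    rw [Ideal.span_le]
    intro f hf
    obtain ⟨p, -, rfl⟩ := Finset.mem_image.1 (Finset.mem_coe.1 hf)
    simp only [rel, SetLike.mem_coe, RingHom.mem_ker]
    split_ifs with hh
    · have h1 := (fac_spec hM hG hh.1 hh.2).1
      have h2 := (fac_spec hM hG (hc _ _ hh.1 hh.2).1.1 (hc _ _ hh.1 hh.2).1.2).1
      have : dg g (fac g p.1 p.2) = dg g (fac g p.1 (base p.1)) := by omega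
      rw [map_sub, ph_mono, ph_mono, this, sub_self]
    · exact map_zero _
  let mk := Ideal.Quotient.mkₐ k J
  let N : ℤ → MvPolynomial (Fin 4) k ⧸ J := fun s => mk (monomial (fac g s (base s)) 1)
  have key : ∀ d : ℕ, ∀ m, dg g m = d → mk (monomial m 1) = N d := by
    intro d
    induction d using Nat.strong_induction_on with
    | _ d ih =>
    intro m hm
    by_cases m0 : m = 0
    · subst m0
      rw [dg_zero] at hm
      subst hm
      simp only [N, Nat.cast_zero, fac_zero hp]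
    obtain ⟨i, hi⟩ : ∃ i, m i ≠ 0 := by
      by_contra hn
      push Not at hn
      exact m0 (Finsupp.ext hn)
    have A : ∀ (m' : Fin 4 →₀ ℕ) (i : Fin 4), (dg g m' : ℤ) = d → m' i ≠ 0 →
        mk (monomial m' 1) = mk (X i) * N (d - g i) := by
      intro m' i h1 h2
      obtain ⟨n', rfl⟩ := split_at h2
      rw [dg_add, dg_single] at h1
      have := hp i
      rw [mono_split, map_mul, ih (dg g n') (by omega) n' rfl]
      congr 2
      push_cast at h1
      omega
    have B : ∀ i j : Fin 4, M (d - g i - g j) →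
        mk (X i) * N (d - g i) = mk (X j) * N (d - g j) := by
      intro i j hm
      obtain ⟨e, he⟩ := (hM _).1 hm
      have h1 : (dg g (Finsupp.single i 1 + (Finsupp.single j 1 + e)) : ℤ) = d := by
        rw [dg_add, dg_add, dg_single, dg_single]; push_cast; omega
      rw [← A _ i h1 (by simp), ← A _ j h1 (by simp)]
    have C : ∀ a b, Conn M G d a b → ∀ i, (g i : ℤ) = a → ∀ j, (g j : ℤ) = b →
        mk (X i) * N (d - g i) = mk (X j) * N (d - g j) := by
      intro a b hab i hi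
      induction hab with
      | refl =>
        intro j hj
        have : i = j := hinj (by omega)
        rw [this]
      | tail _ e ih' =>
        intro j hj
        obtain ⟨l, hl⟩ := (hG _).1 e.1
        rw [ih' l hl]
        exact B l j (by rw [hl, hj]; exact e.2.2)
    have Mi : M (d - g i) := by
      obtain ⟨n', rfl⟩ := split_at hi
      rw [dg_add, dg_single] at hm
      exact (hM _).2 ⟨n', by omega⟩
    obtain ⟨⟨b1, b2⟩, hcc⟩ := hc d (g i) ((hG _).2 ⟨i, rfl⟩) Mi
    obtain ⟨e1, ib, e2, e3⟩ := fac_spec hM hG b1 b2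
    have D : N d = mk (X ib) * N (d - g ib) := A _ ib e1 e3
    rw [A m i (by omega) hi]
    rcases hcc with hcc | ⟨j, hj, hcc⟩
    · rw [D]; exact C _ _ hcc i rfl ib e2
    · have hj' : G j ∧ M (d - j) := hcc.closed (fun v => G v ∧ M (d - v))
        ⟨(hG _).2 ⟨i, rfl⟩, Mi⟩ (fun u v hu hv hm => ⟨hv, cst (h.add hm (h.mem hu.1)) (by ring)⟩)
      obtain ⟨f1, ij, f2, f3⟩ := fac_spec hM hG hj'.1 hj'.2
      rw [C _ _ hcc i rfl ij f2, ← A _ ij f1 f3]
      have hr : mk (rel (d, j)) = 0 := Ideal.Quotient.eq_zero_iff_mem.2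
        (Ideal.subset_span (Finset.mem_coe.2 (Finset.mem_image_of_mem rel hj)))
      simp only [rel, if_pos hj', map_sub] at hr
      exact sub_eq_zero.1 hr
  let ψ : Polynomial k →ₗ[k] MvPolynomial (Fin 4) k ⧸ J :=
    (Polynomial.basisMonomials k).constr k fun w => N w
  have hψ : ∀ w : ℕ, ψ (Polynomial.X ^ w) = N w := fun w => by
    have := (Polynomial.basisMonomials k).constr_basis k (fun w : ℕ => N w) w
    simpa [Polynomial.X_pow_eq_monomial] using this
  have hcomp : ∀ f, ψ (ph k g f) = mk f := by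
    intro f
    induction f using MvPolynomial.induction_on' with
    | monomial m c =>
      have e : (monomial m c : MvPolynomial (Fin 4) k) = c • monomial m 1 := by
        simp [smul_monomial]
      rw [e, map_smul, map_smul, map_smul, ph_mono, hψ, key _ m rfl]
    | add p q hp hq => simp [hp, hq]
  have hker : RingHom.ker (ph k g) = J := le_antisymm (fun f hf => by
    rw [RingHom.mem_ker] at hf
    have := hcomp f
    rw [hf, map_zero] at this
    exact Ideal.Quotient.eq_zero_iff_mem.1 this.symm) hJ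
  rw [hker]
  refine (Submodule.spanFinrank_span_le_ncard_of_finite (Finset.finite_toSet _)).trans ?_
  rw [Set.ncard_coe_finset]
  exact Finset.card_image_le.trans hL

theorem lb_bridge (hM : ∀ s, M s ↔ ∃ m, (dg g m : ℤ) = s)
    (hG : ∀ v, G v ↔ ∃ i, (g i : ℤ) = v) {n : ℕ} (hU : LB M G n) :
    n ≤ (RingHom.ker (ph k g)).spanFinrank := by
  classical
  obtain ⟨L, base, hL, h1, h2⟩ := hU
  let lam : ℤ × ℤ → MvPolynomial (Fin 4) k →ₗ[k] k := fun p =>
    (basisMonomials (Fin 4) k).constr k fun m =>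
      if (dg g m : ℤ) = p.1 ∧ ∃ i, m i ≠ 0 ∧ Conn M G p.1 p.2 (g i) then 1 else 0
  have lam_m : ∀ p m, lam p (monomial m 1) =
      if (dg g m : ℤ) = p.1 ∧ ∃ i, m i ≠ 0 ∧ Conn M G p.1 p.2 (g i) then 1 else 0 := fun p m => by
    have := (basisMonomials (Fin 4) k).constr_basis k (fun m =>
      if (dg g m : ℤ) = p.1 ∧ ∃ i, m i ≠ 0 ∧ Conn M G p.1 p.2 (g i) then (1 : k) else 0) m
    simpa [lam] using this
  have supp : ∀ (m : Fin 4 →₀ ℕ) (i j : Fin 4), m i ≠ 0 → m j ≠ 0 →
      Conn M G (dg g m) (g i) (g j) := by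
    intro m i j hi hj
    by_cases hij : i = j
    · subst hij; exact Conn.rfl'
    obtain ⟨n', rfl⟩ := split_at hi
    have : n' j ≠ 0 := by simpa [Finsupp.single_apply, hij] using hj
    obtain ⟨n'', rfl⟩ := split_at this
    refine Conn.edge ((hG _).2 ⟨i, rfl⟩) ((hG _).2 ⟨j, rfl⟩) ((hM _).2 ⟨n'', ?_⟩)
    rw [dg_add, dg_add, dg_single, dg_single]
    push_cast
    ring
  have lam_m' : ∀ (p : ℤ × ℤ) (m : Fin 4 →₀ ℕ) (i : Fin 4), m i ≠ 0 → lam p (monomial m 1) =
      if (dg g m : ℤ) = p.1 ∧ Conn M G p.1 p.2 (g i) then 1 else 0 := by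
    intro p m i hi
    rw [lam_m]
    refine if_congr (and_congr_right fun e => ⟨?_, fun hc => ⟨i, hi, hc⟩⟩) rfl rfl
    rintro ⟨j, hj, hc⟩
    exact hc.tr (e ▸ supp m j i hj hi)
  have lamX : ∀ p i f, lam p (X i * f) =
      if Conn M G p.1 p.2 (g i) ∧ 0 ≤ p.1 then (ph k g (X i * f)).coeff p.1.toNat else 0 := by
    intro p i f
    induction f using MvPolynomial.induction_on' with
    | monomial m c =>
      have e : (X i * monomial m c : MvPolynomial (Fin 4) k) =
          c • monomial (Finsupp.single i 1 + m) 1 := by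
        rw [mono_split, ← mul_smul_comm]; simp [smul_monomial]
      rw [e, map_smul, map_smul, ph_mono, lam_m' p _ i (by simp), Polynomial.coeff_smul,
        Polynomial.coeff_X_pow]
      by_cases a : Conn M G p.1 p.2 (g i)
      · by_cases b : (dg g (Finsupp.single i 1 + m) : ℤ) = p.1
        · rw [if_pos ⟨b, a⟩, if_pos ⟨a, by omega⟩, if_pos (by omega)]
        · rw [if_neg (fun hh => b hh.1)]
          split_ifs with d e
          · omega
          · rfl
          · simp
      · rw [if_neg (fun hh => a hh.2), if_neg (fun hh => a hh.1), smul_zero]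
    | add f1 f2 a b =>
      rw [mul_add, map_add, a, b, map_add, Polynomial.coeff_add]
      split_ifs <;> simp
  have lam_mul : ∀ p a f, f ∈ RingHom.ker (ph k g) → lam p (a * f) = coeff 0 a * lam p f := by
    intro p a
    induction a using MvPolynomial.induction_on with
    | C c =>
      intro f _
      rw [← smul_eq_C_mul, map_smul]
      simp
    | add a b ha hb =>
      intro f hf
      rw [add_mul, map_add, ha f hf, hb f hf, coeff_add, add_mul]
    | mul_X a i _ =>
      intro f hf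
      have e : a * X i * f = X i * (a * f) := by ring
      have h0 : ph k g (X i * (a * f)) = 0 := by
        rw [map_mul, map_mul, (RingHom.mem_ker).1 hf, mul_zero, mul_zero]
      have h3 : coeff 0 (a * X i) = 0 := by
        rw [← constantCoeff_eq, map_mul]; simp
      rw [e, lamX, h0, h3]
      simp
  have hfg : (RingHom.ker (ph k g)).FG := IsNoetherian.noetherian _
  obtain ⟨s, hs, hspan⟩ := Submodule.FG.exists_span_finset_card_eq_spanFinrank hfg
  let θ : MvPolynomial (Fin 4) k → L → k := fun f p => lam p.1 f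
  have g1 : ∀ f ∈ RingHom.ker (ph k g), θ f ∈ Submodule.span k (s.image θ : Set (L → k)) := by
    intro f hf
    rw [← hspan] at hf
    induction hf using Submodule.span_induction with
    | mem x hx => exact Submodule.subset_span (by simpa using ⟨x, hx, rfl⟩)
    | zero =>
      have : θ 0 = 0 := by ext i; simp [θ]
      rw [this]; exact zero_mem _
    | add x y _ _ hx hy =>
      have : θ (x + y) = θ x + θ y := by ext i; simp [θ]
      rw [this]; exact add_mem hx hy
    | smul a x hx' hx =>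
      have : θ (a • x) = coeff 0 a • θ x := by
        ext i
        simp only [θ, smul_eq_mul, Pi.smul_apply]
        exact lam_mul _ a x (hspan ▸ hx')
      rw [this]; exact Submodule.smul_mem _ _ hx
  have g2 : ∀ q : L, ∃ f ∈ RingHom.ker (ph k g), θ f = Pi.single q 1 := by
    intro q
    obtain ⟨a1, a2, a3, a4, -⟩ := h1 q.1 q.2
    obtain ⟨e1, i, e2, e3⟩ := fac_spec hM hG a1 a2
    obtain ⟨f1, j, f2, f3⟩ := fac_spec hM hG a3 a4
    refine ⟨monomial (fac g q.1.1 q.1.2) 1 - monomial (fac g q.1.1 (base q.1.1)) 1, ?_, ?_⟩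
    · have : dg g (fac g q.1.1 q.1.2) = dg g (fac g q.1.1 (base q.1.1)) := by omega
      rw [RingHom.mem_ker, map_sub, ph_mono, ph_mono, this, sub_self]
    · ext p
      simp only [θ, map_sub]
      rw [lam_m' _ _ i e3, lam_m' _ _ j f3, e1, f1, e2, f2,
        if_neg (c := q.1.1 = p.1.1 ∧ Conn M G p.1.1 p.1.2 (base q.1.1))
          (fun hh => (h1 p.1 p.2).2.2.2.2 (hh.1 ▸ hh.2)), sub_zero, Pi.single_apply]
      refine if_congr ⟨fun hh => ?_, ?_⟩ rfl rfl
      · exact Subtype.ext (Prod.ext hh.1.symm (h2 _ p.2 _ q.2 hh.1.symm hh.2))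
      · rintro rfl
        exact ⟨rfl, Conn.rfl'⟩
  have g3 : Submodule.span k (s.image θ : Set (L → k)) = ⊤ := by
    rw [eq_top_iff, ← (Pi.basisFun k L).span_eq, Submodule.span_le]
    rintro _ ⟨i, rfl⟩
    obtain ⟨f, hf, e⟩ := g2 i
    rw [Pi.basisFun_apply, ← e]
    exact g1 f hf
  have g4 := finrank_span_finset_le_card (R := k) (s.image θ)
  rw [Set.finrank, g3] at g4
  simp only [finrank_top, Module.finrank_fintype_fun_eq_card, Fintype.card_coe] at g4
  rw [← hs]
  exact hL.trans (g4.trans Finset.card_image_le)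

end Pool.Agent.P.MP_8e9e7d_al.B
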