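import Mathlib

set_option autoImplicit false

namespace Pool.Agent.P.MP_8e9e7d_al.B

/-- `M` is a submonoid of the nonnegative integers with atoms `G`. -/
structure Sg (M G : ℤ → Prop) : Prop where
  zero : M 0
  add : ∀ {a b : ℤ}, M a → M b → M (a + b)
  nonneg : ∀ {a : ℤ}, M a → 0 ≤ a
  mem : ∀ {v : ℤ}, G v → M v
  pos : ∀ {v : ℤ}, G v → 0 < v
  atom : ∀ {v a : ℤ}, G v → M a → M (v - a) → a = 0 ∨ a = v
  dec : ∀ {a : ℤ}, M a → a = 0 ∨ ∃ v, G v ∧ M (a - v)

/-- A labelling of the four atoms. -/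
structure Lab (G : ℤ → Prop) (x y z w : ℤ) : Prop where
  gen : ∀ v, G v ↔ v = x ∨ v = y ∨ v = z ∨ v = w
  xy : x ≠ y
  xz : x ≠ z
  xw : x ≠ w
  yz : y ≠ z
  yw : y ≠ w
  zw : z ≠ w

variable {M G : ℤ → Prop} {x y z w : ℤ}

theorem Lab.s12 (l : Lab G x y z w) : Lab G y x z w :=
  ⟨fun v => by rw [l.gen]; tauto, l.xy.symm, l.yz, l.yw, l.xz, l.xw, l.zw⟩
theorem Lab.s34 (l : Lab G x y z w) : Lab G x y w z :=
  ⟨fun v => by rw [l.gen]; tauto, l.xy, l.xw, l.xz, l.yw, l.yz, l.zw.symm⟩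
theorem Lab.s23 (l : Lab G x y z w) : Lab G x z y w :=
  ⟨fun v => by rw [l.gen]; tauto, l.xz, l.xy, l.xw, l.yz.symm, l.zw, l.yw⟩
theorem Lab.gx (l : Lab G x y z w) : G x := (l.gen x).2 (by tauto)
theorem Lab.gy (l : Lab G x y z w) : G y := (l.gen y).2 (by tauto)
theorem Lab.gz (l : Lab G x y z w) : G z := (l.gen z).2 (by tauto)
theorem Lab.gw (l : Lab G x y z w) : G w := (l.gen w).2 (by tauto)

theorem cst {a b : ℤ} (h : M a) (e : a = b) : M b := e ▸ h

theorem Sg.mul (h : Sg M G) {n a : ℤ} (hn : 0 ≤ n) (ha : M a) : M (n * a) := by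
  induction n, hn using Int.leInduction with
  | base => simpa using h.zero
  | succ n _ ih => exact cst (h.add ih ha) (by ring)

theorem Sg.sub_ne (h : Sg M G) {u v : ℤ} (hu : G u) (hv : G v) (huv : u ≠ v) : ¬ M (u - v) := by
  intro hm
  rcases h.atom hu (h.mem hv) hm with h0 | h0
  · exact (h.pos hv).ne' h0
  · exact huv h0.symm

theorem Sg.neg (h : Sg M G) {a : ℤ} (ha : a < 0) : ¬ M a := fun hm => by
  have := h.nonneg hm; omega

theorem Sg.two (h : Sg M G) (l : Lab G x y z w) {a : ℤ} (ha : M a) (hx : ¬ M (a - x))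
    (hy : ¬ M (a - y)) : ∃ i j : ℤ, 0 ≤ i ∧ 0 ≤ j ∧ a = i * z + j * w := by
  have key : ∀ n : ℕ, ∀ a : ℤ, a ≤ n → M a → ¬ M (a - x) → ¬ M (a - y) →
      ∃ i j : ℤ, 0 ≤ i ∧ 0 ≤ j ∧ a = i * z + j * w := by
    intro n
    induction n with
    | zero =>
      intro a han ha _ _
      have := h.nonneg ha
      exact ⟨0, 0, le_rfl, le_rfl, by push_cast at han; omega⟩
    | succ n ih =>
      intro a han ha hx hy
      rcases h.dec ha with rfl | ⟨v, hv, hav⟩
      · exact ⟨0, 0, le_rfl, le_rfl, by ring⟩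
      have hp := h.pos hv
      obtain ⟨i, j, hi, hj, e⟩ := ih (a - v) (by push_cast at han; omega) hav
        (fun hm => hx (cst (h.add hm (h.mem hv)) (by ring)))
        (fun hm => hy (cst (h.add hm (h.mem hv)) (by ring)))
      rcases (l.gen v).1 hv with rfl | rfl | rfl | rfl
      · exact absurd hav hx
      · exact absurd hav hy
      · exact ⟨i + 1, j, by omega, hj, by linear_combination e⟩
      · exact ⟨i, j + 1, hi, by omega, by linear_combination e⟩
  exact key a.toNat a (by omega) ha hx hy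

theorem Sg.one (h : Sg M G) (l : Lab G x y z w) {a : ℤ} (ha : M a) (hx : ¬ M (a - x))
    (hy : ¬ M (a - y)) (hz : ¬ M (a - z)) : ∃ j : ℤ, 0 ≤ j ∧ a = j * w := by
  obtain ⟨i, j, hi, hj, e⟩ := h.two l ha hx hy
  rcases hi.eq_or_lt with rfl | hi
  · exact ⟨j, hj, by linear_combination e⟩
  · exact absurd (cst (h.add (h.mul (n := i - 1) (by omega) (h.mem l.gz))
      (h.mul hj (h.mem l.gw))) (by linear_combination -e)) hz

theorem Sg.none (h : Sg M G) (l : Lab G x y z w) {a : ℤ} (ha : M a) (hx : ¬ M (a - x))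
    (hy : ¬ M (a - y)) (hz : ¬ M (a - z)) (hw : ¬ M (a - w)) : a = 0 := by
  rcases h.dec ha with rfl | ⟨v, hv, hav⟩
  · rfl
  rcases (l.gen v).1 hv with rfl | rfl | rfl | rfl <;> contradiction

theorem first (P : ℤ → Prop) (h0 : ¬ P 0) {n : ℤ} (hn : 0 ≤ n) (hP : P n) :
    ∃ k, 0 ≤ k ∧ k + 1 ≤ n ∧ P (k + 1) ∧ ∀ j, 0 ≤ j → j ≤ k → ¬ P j := by
  obtain ⟨m, ⟨hm0, hm⟩, hmin⟩ := Int.exists_least_of_bdd (P := fun m => 0 ≤ m ∧ P m)
    ⟨0, fun z hz => hz.1⟩ ⟨n, hn, hP⟩
  have hm1 : m ≠ 0 := fun e => h0 (e ▸ hm)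
  have := hmin n ⟨hn, hP⟩
  refine ⟨m - 1, by omega, by omega, by simpa using hm, fun j hj hjk hp => ?_⟩
  have := hmin j ⟨hj, hp⟩
  omega

/-- Connectivity in the graph of `s`. -/
def Conn (M G : ℤ → Prop) (s : ℤ) : ℤ → ℤ → Prop :=
  Relation.ReflTransGen (fun u v => G u ∧ G v ∧ M (s - u - v))

theorem Conn.closed {s a b : ℤ} (hc : Conn M G s a b) (C : ℤ → Prop) (ha : C a)
    (hC : ∀ u v, C u → G v → M (s - u - v) → C v) : C b := by
  induction hc with
  | refl => exact ha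
  | tail _ e ih => exact hC _ _ ih e.2.1 e.2.2

theorem Conn.symm {s a b : ℤ} (hc : Conn M G s a b) : Conn M G s b a := by
  induction hc with
  | refl => exact Relation.ReflTransGen.refl
  | tail _ e ih =>
    exact Relation.ReflTransGen.head ⟨e.2.1, e.1, cst e.2.2 (by ring)⟩ ih

theorem Conn.edge {s a b : ℤ} (ha : G a) (hb : G b) (hm : M (s - a - b)) : Conn M G s a b :=
  Relation.ReflTransGen.single ⟨ha, hb, hm⟩

theorem Conn.rfl' {s a : ℤ} : Conn M G s a a := Relation.ReflTransGen.refl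

theorem Conn.tr {s a b c : ℤ} (h1 : Conn M G s a b) (h2 : Conn M G s b c) : Conn M G s a c :=
  Relation.ReflTransGen.trans h1 h2

/-- At most `n` components besides the base components. -/
def UB (M G : ℤ → Prop) (n : ℕ) : Prop :=
  ∃ (L : Finset (ℤ × ℤ)) (base : ℤ → ℤ), L.card ≤ n ∧ ∀ s v, G v → M (s - v) →
    (G (base s) ∧ M (s - base s)) ∧ (Conn M G s v (base s) ∨ ∃ j, (s, j) ∈ L ∧ Conn M G s v j)

/-- At least `n` components besides the base components. -/
def LB (M G : ℤ → Prop) (n : ℕ) : Prop :=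
  ∃ (L : Finset (ℤ × ℤ)) (base : ℤ → ℤ), n ≤ L.card ∧
    (∀ p ∈ L, G p.2 ∧ M (p.1 - p.2) ∧ G (base p.1) ∧ M (p.1 - base p.1) ∧
      ¬ Conn M G p.1 p.2 (base p.1)) ∧
    ∀ p ∈ L, ∀ q ∈ L, p.1 = q.1 → Conn M G p.1 p.2 q.2 → p.2 = q.2

/-- A divisor closed set of elements outside the ideal generated by `x, y`. -/
structure Dn (M D : ℤ → Prop) (x y : ℤ) : Prop where
  mem : ∀ {t : ℤ}, D t → M t
  nx : ∀ {t : ℤ}, D t → ¬ M (t - x)
  ny : ∀ {t : ℤ}, D t → ¬ M (t - y)
  dv : ∀ {t a : ℤ}, D t → M a → M (t - a) → D a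

def TZ (M D : ℤ → Prop) (z w s : ℤ) : Prop := ¬ D s ∧ D (s - z) ∧ ¬ M (s - z - w)
def TZW (M D : ℤ → Prop) (z w s : ℤ) : Prop :=
  ¬ D s ∧ D (s - z) ∧ D (s - w) ∧ M (s - z - w)
def TB (M D : ℤ → Prop) (z w s : ℤ) : Prop :=
  D s ∧ M (s - z) ∧ M (s - w) ∧ ¬ M (s - z - w)

variable {D : ℤ → Prop}

theorem TB.sw {s : ℤ} (h : TB M D z w s) : TB M D w z s :=
  ⟨h.1, h.2.2.1, h.2.1, fun hm => h.2.2.2 (cst hm (by ring))⟩

theorem purez (h : Sg M G) (l : Lab G x y z w) (d : Dn M D x y) {t : ℤ} (ht : D t)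
    (hw : ¬ M (t - w)) : ∃ n : ℤ, 0 ≤ n ∧ t = n * z :=
  h.one l.s34 (d.mem ht) (d.nx ht) (d.ny ht) hw

theorem TZ_uniq (h : Sg M G) (l : Lab G x y z w) (d : Dn M D x y) {s s' : ℤ}
    (h1 : TZ M D z w s) (h2 : TZ M D z w s') : s = s' := by
  obtain ⟨n, hn, e⟩ := purez h l d h1.2.1 h1.2.2
  obtain ⟨n', hn', e'⟩ := purez h l d h2.2.1 h2.2.2
  have hz := h.mem l.gz
  rcases lt_trichotomy n n' with hl | hl | hl
  · exact absurd (d.dv h2.2.1 (cst (h.mul (n := n + 1) (by omega) hz) (by linear_combination -e))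
      (cst (h.mul (n := n' - n - 1) (by omega) hz) (by linear_combination e - e'))) h1.1
  · subst hl; linear_combination e - e'
  · exact absurd (d.dv h1.2.1 (cst (h.mul (n := n' + 1) (by omega) hz) (by linear_combination -e'))
      (cst (h.mul (n := n - n' - 1) (by omega) hz) (by linear_combination e' - e))) h2.1

theorem TB_pure (h : Sg M G) (l : Lab G x y z w) (d : Dn M D x y) {s : ℤ}
    (h1 : TB M D z w s) : ∃ n : ℤ, 0 ≤ n ∧ s - z = n * z :=
  purez h l d (d.dv h1.1 h1.2.1 (cst (h.mem l.gz) (by ring))) h1.2.2.2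

theorem TB_uniq (h : Sg M G) (l : Lab G x y z w) (d : Dn M D x y) {s s' : ℤ}
    (h1 : TB M D z w s) (h2 : TB M D z w s') : s = s' := by
  obtain ⟨n, hn, e⟩ := TB_pure h l d h1
  obtain ⟨n', hn', e'⟩ := TB_pure h l d h2
  have hz := h.mem l.gz
  rcases lt_trichotomy n n' with hl | hl | hl
  · exact absurd (cst (h.add (h.mul (n := n' - n - 1) (by omega) hz) h1.2.2.1)
      (by linear_combination e - e')) h2.2.2.2
  · subst hl; linear_combination e - e'
  · exact absurd (cst (h.add (h.mul (n := n - n' - 1) (by omega) hz) h2.2.2.1)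
      (by linear_combination e' - e)) h1.2.2.2

theorem TB_TZ (h : Sg M G) (l : Lab G x y z w) (d : Dn M D x y) {s s' : ℤ}
    (h1 : TB M D z w s) (h2 : TZ M D z w s') : False := by
  obtain ⟨n, hn, e⟩ := TB_pure h l d h1
  obtain ⟨n', hn', e'⟩ := purez h l d h2.2.1 h2.2.2
  have hz := h.mem l.gz
  rcases lt_or_ge n n' with hl | hl
  · exact absurd (cst (h.add (h.mul (n := n' - n - 1) (by omega) hz) h1.2.2.1)
      (by linear_combination e - e')) h2.2.2
  · exact h2.1 (d.dv h1.1 (cst (h.mul (n := n' + 1) (by omega) hz) (by linear_combination -e'))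
      (cst (h.mul (n := n - n') (by omega) hz) (by linear_combination e' - e)))

theorem TZW_pure (h : Sg M G) (l : Lab G x y z w) (d : Dn M D x y) {s σ : ℤ} (hσ : D σ)
    (h1 : TZW M D z w s) (hs : M (σ - (s - w))) : ∃ n : ℤ, 0 ≤ n ∧ σ - (s - w) = n * z := by
  refine purez h l d (d.dv hσ hs (cst (d.mem h1.2.2.1) (by ring))) fun hm => h1.1 ?_
  exact d.dv hσ (cst (h.add (d.mem h1.2.2.1) (h.mem l.gw)) (by ring)) (cst hm (by ring))

theorem TZW_inj (h : Sg M G) (l : Lab G x y z w) (d : Dn M D x y) {s s' σ : ℤ} (hσ : D σ)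
    (h1 : TZW M D z w s) (h2 : TZW M D z w s') (hs : M (σ - (s - w)))
    (hs' : M (σ - (s' - w))) : s = s' := by
  obtain ⟨n, hn, e⟩ := TZW_pure h l d hσ h1 hs
  obtain ⟨n', hn', e'⟩ := TZW_pure h l d hσ h2 hs'
  have hz := h.mem l.gz
  have hw := h.mem l.gw
  rcases lt_trichotomy n n' with hl | hl | hl
  · exact absurd (d.dv h1.2.1 (cst (h.add (d.mem h2.2.2.1) hw) (by ring))
      (cst (h.mul (n := n' - n - 1) (by omega) hz) (by linear_combination e - e'))) h2.1
  · subst hl; linear_combination e' - e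
  · exact absurd (d.dv h2.2.1 (cst (h.add (d.mem h1.2.2.1) hw) (by ring))
      (cst (h.mul (n := n - n' - 1) (by omega) hz) (by linear_combination e' - e))) h1.1

theorem TB_exists (h : Sg M G) (l : Lab G x y z w) (d : Dn M D x y) {m : ℤ} (hm : 0 ≤ m)
    (hD : D (m * w)) (hz : M (m * w - z)) : ∃ s, TB M D z w s := by
  have pz := h.pos l.gz
  have hw := h.mem l.gw
  obtain ⟨k, hk, hkm, hP, hmin⟩ := first (fun j => M (j * w - z))
    (h.neg (by omega)) hm hz
  refine ⟨(k + 1) * w, d.dv hD (h.mul (by omega) hw)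
    (cst (h.mul (n := m - k - 1) (by omega) hw) (by ring)), hP,
    cst (h.mul hk hw) (by ring), fun hm' => hmin k hk le_rfl (cst hm' (by ring))⟩

theorem top_pure (h : Sg M G) (l : Lab G x y z w) (d : Dn M D x y) (S : Finset ℤ)
    (hne : S.Nonempty) (hS : ∀ σ ∈ S, D σ) (hc : ∀ t, D t → ∃ σ ∈ S, M (σ - t)) :
    ∃ j : ℤ, 0 ≤ j ∧ D (j * w) ∧ ¬ D ((j + 1) * w) := by
  obtain ⟨σ, hσ⟩ := hne
  have pw := h.pos l.gw
  have h0 : D 0 := d.dv (hS σ hσ) h.zero (cst (d.mem (hS σ hσ)) (by ring))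
  obtain ⟨N, hN⟩ := S.bddAbove
  have hN0 : 0 ≤ N := (h.nonneg (d.mem (hS σ hσ))).trans (hN hσ)
  obtain ⟨k, hk, -, hP, hmin⟩ := first (fun j => ¬ D (j * w)) (by simpa using h0)
    (n := N + 1) (by omega) (fun hD => by
      obtain ⟨τ, hτ, hm⟩ := hc _ hD
      have h1 := h.nonneg hm
      have h2 : τ ≤ N := hN hτ
      nlinarith)
  exact ⟨k, hk, not_not.1 (hmin k hk le_rfl), hP⟩

theorem two_ub (h : Sg M G) (l : Lab G x y z w) (d : Dn M D x y) (S : Finset ℤ)
    (hne : S.Nonempty) (hS : ∀ σ ∈ S, D σ) (hc : ∀ t, D t → ∃ σ ∈ S, M (σ - t)) :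
    ∃ L : Finset (ℤ × ℤ), L.card ≤ S.card + 1 ∧ ∀ s, (TZ M D z w s → (s, z) ∈ L) ∧
      (TZ M D w z s → (s, w) ∈ L) ∧ (TZW M D z w s → (s, z) ∈ L) ∧
      (TB M D z w s → (s, w) ∈ L) := by
  classical
  let t : ℤ → ℤ := fun σ =>
    if hh : ∃ s, TZW M D z w s ∧ M (σ - (s - w)) then hh.choose else 0
  have ht : ∀ s σ, σ ∈ S → TZW M D z w s → M (σ - (s - w)) → t σ = s := by
    intro s σ hσ h1 h2
    have hh : ∃ s, TZW M D z w s ∧ M (σ - (s - w)) := ⟨s, h1, h2⟩
    simp only [t, dif_pos hh]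
    exact TZW_inj h l d (hS σ hσ) hh.choose_spec.1 h1 hh.choose_spec.2 h2
  by_cases hB : ∃ b, TB M D z w b
  · obtain ⟨b, hb⟩ := hB
    refine ⟨insert (b, w) (S.image fun σ => (t σ, z)), ?_, fun s => ⟨fun h1 => ?_, fun h1 => ?_,
      fun h1 => ?_, fun h1 => ?_⟩⟩
    · exact (Finset.card_insert_le _ _).trans (by have := Finset.card_image_le (s := S) (f := fun σ => (t σ, z)); omega)
    · exact (TB_TZ h l d hb h1).elim
    · exact (TB_TZ h l.s34 d hb.sw h1).elim
    · obtain ⟨σ, hσ, hm⟩ := hc _ h1.2.2.1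
      exact Finset.mem_insert_of_mem (Finset.mem_image.2 ⟨σ, hσ, by rw [ht s σ hσ h1 hm]⟩)
    · rw [TB_uniq h l d h1 hb]; exact Finset.mem_insert_self _ _
  · obtain ⟨j, hj, hj1, hj2⟩ := top_pure h l d S hne hS hc
    obtain ⟨σ0, hσ0, hm0⟩ := hc _ hj1
    have hz := h.mem l.gz
    have hw := h.mem l.gw
    have pz := h.pos l.gz
    have pw := h.pos l.gw
    let a : ℤ := if hh : ∃ s, TZ M D z w s then hh.choose else 0
    let b : ℤ := if hh : ∃ s, TZ M D w z s then hh.choose else 0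
    refine ⟨insert (a, z) (insert (b, w) ((S.erase σ0).image fun σ => (t σ, z))), ?_,
      fun s => ⟨fun h1 => ?_, fun h1 => ?_, fun h1 => ?_, fun h1 => (hB ⟨s, h1⟩).elim⟩⟩
    · have h1 := Finset.card_image_le (s := S.erase σ0) (f := fun σ => (t σ, z))
      have h2 := Finset.card_erase_of_mem hσ0
      have h3 := Finset.card_pos.2 hne
      have h4 := Finset.card_insert_le (b, w) ((S.erase σ0).image fun σ => (t σ, z))
      have h5 := Finset.card_insert_le (a, z) (insert (b, w) ((S.erase σ0).image fun σ => (t σ, z)))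
      omega
    · have hh : ∃ s, TZ M D z w s := ⟨s, h1⟩
      have : a = s := by
        simp only [a, dif_pos hh]; exact TZ_uniq h l d hh.choose_spec h1
      rw [this]; exact Finset.mem_insert_self _ _
    · have hh : ∃ s, TZ M D w z s := ⟨s, h1⟩
      have : b = s := by
        simp only [b, dif_pos hh]; exact TZ_uniq h l.s34 d hh.choose_spec h1
      rw [this]; exact Finset.mem_insert_of_mem (Finset.mem_insert_self _ _)
    · obtain ⟨σ, hσ, hm⟩ := hc _ h1.2.2.1
      refine Finset.mem_insert_of_mem (Finset.mem_insert_of_mem (Finset.mem_image.2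
        ⟨σ, Finset.mem_erase.2 ⟨?_, hσ⟩, by rw [ht s σ hσ h1 hm]⟩))
      rintro rfl
      obtain ⟨n, hn, e⟩ := TZW_pure h l d (hS σ hσ) h1 hm
      have hD : D (s - z - w) := d.dv h1.2.1 h1.2.2.2 (cst hw (by ring))
      obtain ⟨α, β, hα, hβ, e1⟩ := h.two l (d.mem hD) (d.nx hD) (d.ny hD)
      have hβj : β + 1 ≤ j := by
        by_contra hlt
        exact hj2 (d.dv h1.2.1 (h.mul (by omega) hw) (cst (h.add (h.mul hα hz)
          (h.mul (n := β - j) (by omega) hw)) (by linear_combination -e1)))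
      obtain ⟨γ, hγ, e2⟩ := purez h l d (d.dv (hS σ hσ) hm0 (cst (d.mem hj1) (by ring)))
        fun hm' => hj2 (d.dv (hS σ hσ) (h.mul (by omega) hw) (cst hm' (by ring)))
      have e3 : (α + 1 + n - γ) * z = (j - β) * w := by linear_combination e2 - e - e1
      have h6 : 1 ≤ α + 1 + n - γ := by
        by_contra hlt
        have : (α + 1 + n - γ) * z ≤ 0 := by nlinarith
        nlinarith
      exact hB (TB_exists h l d (m := j - β) (by omega)
        (d.dv hj1 (h.mul (by omega) hw) (cst (h.mul hβ hw) (by ring)))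
        (cst (h.mul (n := α + n - γ) (by omega) hz) (by linear_combination e3)))

theorem ZW_of (h : Sg M G) (l : Lab G x y z w) (d : Dn M D x y) {σ i : ℤ} (hσ : D σ)
    (hmax : ¬ D (σ + w)) (hi : 0 ≤ i) (h1 : M (σ - i * z)) (h2 : D (σ - i * z + w)) :
    ∃ n : ℤ, 0 ≤ n ∧ TZW M D z w (σ - n * z + w) := by
  have hz := h.mem l.gz
  obtain ⟨k, hk, -, hP, hmin⟩ := first (fun j => M (σ - j * z) ∧ D (σ - j * z + w))
    (fun hh => hmax (cst hh.2 (by ring))) hi ⟨h1, h2⟩
  have h3 : M (σ - k * z) := cst (h.add hP.1 hz) (by ring)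
  refine ⟨k, hk, fun hh => hmin k hk le_rfl ⟨h3, hh⟩, cst hP.2 (by ring), ?_, cst hP.1 (by ring)⟩
  exact cst (d.dv hσ h3 (cst (h.mul hk hz) (by ring))) (by ring)

theorem TZ_exists (h : Sg M G) (l : Lab G x y z w) (d : Dn M D x y) (S : Finset ℤ)
    (hne : S.Nonempty) (hS : ∀ σ ∈ S, D σ) (hc : ∀ t, D t → ∃ σ ∈ S, M (σ - t))
    (hB : ¬ ∃ b, TB M D z w b) : ∃ s, TZ M D w z s := by
  obtain ⟨j, hj, hj1, hj2⟩ := top_pure h l d S hne hS hc
  exact ⟨(j + 1) * w, hj2, cst hj1 (by ring),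
    fun hm => hB (TB_exists h l d hj hj1 (cst hm (by ring)))⟩

theorem ZW_of_B (h : Sg M G) (l : Lab G x y z w) (d : Dn M D x y) {σ b : ℤ} (hσ : D σ)
    (hmax : ¬ D (σ + w)) (hb : TB M D z w b) :
    ∃ n : ℤ, 0 ≤ n ∧ TZW M D z w (σ - n * z + w) := by
  have hz := h.mem l.gz
  have hw := h.mem l.gw
  by_cases hm : M (σ - b)
  · obtain ⟨n, hn, e⟩ := TB_pure h l d hb
    refine ZW_of h l d hσ hmax (i := n + 1) (by omega) (cst hm (by linear_combination -e)) ?_
    exact d.dv hσ (cst (h.add hm hw) (by linear_combination -e))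
      (cst hb.2.2.1 (by linear_combination e))
  · obtain ⟨q, hq, e⟩ := TB_pure h l.s34 d hb.sw
    obtain ⟨α, β, hα, hβ, e1⟩ := h.two l (d.mem hσ) (d.nx hσ) (d.ny hσ)
    have hβq : β ≤ q := by
      by_contra hlt
      exact hm (cst (h.add (h.mul hα hz) (h.mul (n := β - q - 1) (by omega) hw))
        (by linear_combination e - e1))
    refine ZW_of h l d hσ hmax hα (cst (h.mul hβ hw) (by linear_combination -e1)) ?_
    exact d.dv hb.1 (cst (h.mul (n := β + 1) (by omega) hw) (by linear_combination -e1))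
      (cst (h.mul (n := q - β) (by omega) hw) (by linear_combination e1 - e))

/-- The four kinds of components supported on `z, w`. -/
def Typ (M D : ℤ → Prop) (z w : ℤ) (p : ℤ × ℤ) : Prop :=
  (p.2 = z ∧ (TZ M D z w p.1 ∨ TZW M D z w p.1)) ∨ (p.2 = w ∧ (TZ M D w z p.1 ∨ TB M D z w p.1))

theorem two_lb1 (h : Sg M G) (l : Lab G x y z w) (d : Dn M D x y) {σ : ℤ} (hσ : D σ)
    (hc : ∀ t, D t → M (σ - t)) :
    ∃ L : Finset (ℤ × ℤ), 2 ≤ L.card ∧ ∀ p ∈ L, Typ M D z w p := by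
  have pw := h.pos l.gw
  have hzw := l.zw
  by_cases hB : ∃ b, TB M D z w b
  · obtain ⟨b, hb⟩ := hB
    obtain ⟨n, -, hn⟩ := ZW_of_B h l d hσ (fun hh => h.neg (by omega) (hc _ hh)) hb
    refine ⟨{(b, w), (σ - n * z + w, z)}, ?_, ?_⟩
    · rw [Finset.card_pair (by simp; omega)]
    · simp only [Finset.mem_insert, Finset.mem_singleton]
      rintro p (rfl | rfl)
      · exact Or.inr ⟨rfl, Or.inr hb⟩
      · exact Or.inl ⟨rfl, Or.inr hn⟩
  · obtain ⟨a, ha⟩ := TZ_exists h l d {σ} (by simp) (by simpa) (by simpa) hB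
    obtain ⟨b, hb⟩ := TZ_exists h l.s34 d {σ} (by simp) (by simpa) (by simpa)
      (fun ⟨b, hb⟩ => hB ⟨b, hb.sw⟩)
    refine ⟨{(a, w), (b, z)}, ?_, ?_⟩
    · rw [Finset.card_pair (by simp; omega)]
    · simp only [Finset.mem_insert, Finset.mem_singleton]
      rintro p (rfl | rfl)
      · exact Or.inr ⟨rfl, Or.inl ha⟩
      · exact Or.inl ⟨rfl, Or.inl hb⟩

theorem two_lb2 (h : Sg M G) (l : Lab G x y z w) (d : Dn M D x y) {σ τ : ℤ} (hσ : D σ)
    (hτ : D τ) (h1 : ¬ M (σ - τ)) (h2 : ¬ M (τ - σ))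
    (hc : ∀ t, D t → M (σ - t) ∨ M (τ - t)) :
    ∃ L : Finset (ℤ × ℤ), 3 ≤ L.card ∧ ∀ p ∈ L, Typ M D z w p := by
  have pw := h.pos l.gw
  have hz := h.mem l.gz
  have hw := h.mem l.gw
  have hzw := l.zw
  have m1 : ¬ D (σ + w) := fun hh => (hc _ hh).elim (h.neg (by omega))
    fun hm => h2 (cst (h.add hm hw) (by ring))
  have m2 : ¬ D (τ + w) := fun hh => (hc _ hh).elim
    (fun hm => h1 (cst (h.add hm hw) (by ring))) (h.neg (by omega))
  by_cases hB : ∃ b, TB M D z w b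
  · obtain ⟨b, hb⟩ := hB
    obtain ⟨n, hn0, hn⟩ := ZW_of_B h l d hσ m1 hb
    obtain ⟨m, hm0, hm⟩ := ZW_of_B h l d hτ m2 hb
    have hne : σ - n * z + w ≠ τ - m * z + w := by
      intro e
      rcases le_total n m with hl | hl
      · exact h2 (cst (h.mul (n := m - n) (by omega) hz) (by linear_combination e))
      · exact h1 (cst (h.mul (n := n - m) (by omega) hz) (by linear_combination -e))
    refine ⟨{(b, w), (σ - n * z + w, z), (τ - m * z + w, z)}, ?_, ?_⟩
    · rw [Finset.card_eq_three.2 ⟨_, _, _, by simp; omega, by simp; omega,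
        fun e => hne (Prod.ext_iff.1 e).1, rfl⟩]
    · simp only [Finset.mem_insert, Finset.mem_singleton]
      rintro p (rfl | rfl | rfl)
      · exact Or.inr ⟨rfl, Or.inr hb⟩
      · exact Or.inl ⟨rfl, Or.inr hn⟩
      · exact Or.inl ⟨rfl, Or.inr hm⟩
  · have hc' : ∀ t, D t → ∃ s ∈ ({σ, τ} : Finset ℤ), M (s - t) := by simpa using hc
    obtain ⟨a, ha⟩ := TZ_exists h l d {σ, τ} (by simp) (by simp [hσ, hτ]) hc' hB
    obtain ⟨b, hb⟩ := TZ_exists h l.s34 d {σ, τ} (by simp) (by simp [hσ, hτ]) hc'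
      (fun ⟨b, hb⟩ => hB ⟨b, hb.sw⟩)
    obtain ⟨α, β, hα, hβ, e1⟩ := h.two l (d.mem hσ) (d.nx hσ) (d.ny hσ)
    obtain ⟨γ, δ, hγ, hδ, e2⟩ := h.two l (d.mem hτ) (d.nx hτ) (d.ny hτ)
    have hs : ∃ s, TZW M D z w s := by
      rcases le_total α γ with hl | hl
      · have hβδ : δ + 1 ≤ β := by
          by_contra hlt
          exact h2 (cst (h.add (h.mul (n := γ - α) (by omega) hz)
            (h.mul (n := δ - β) (by omega) hw)) (by linear_combination e1 - e2))
        obtain ⟨n, -, hn⟩ := ZW_of h l d hτ m2 (i := γ - α) (by omega)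
          (cst (h.add (h.mul hα hz) (h.mul hδ hw)) (by linear_combination -e2))
          (d.dv hσ (cst (h.add (h.mul hα hz) (h.mul (n := δ + 1) (by omega) hw))
            (by linear_combination -e2))
            (cst (h.mul (n := β - δ - 1) (by omega) hw) (by linear_combination e2 - e1)))
        exact ⟨_, hn⟩
      · have hβδ : β + 1 ≤ δ := by
          by_contra hlt
          exact h1 (cst (h.add (h.mul (n := α - γ) (by omega) hz)
            (h.mul (n := β - δ) (by omega) hw)) (by linear_combination e2 - e1))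
        obtain ⟨n, -, hn⟩ := ZW_of h l d hσ m1 (i := α - γ) (by omega)
          (cst (h.add (h.mul hγ hz) (h.mul hβ hw)) (by linear_combination -e1))
          (d.dv hτ (cst (h.add (h.mul hγ hz) (h.mul (n := β + 1) (by omega) hw))
            (by linear_combination -e1))
            (cst (h.mul (n := δ - β - 1) (by omega) hw) (by linear_combination e1 - e2)))
        exact ⟨_, hn⟩
    obtain ⟨s, hs⟩ := hs
    refine ⟨{(a, w), (b, z), (s, z)}, ?_, ?_⟩
    · rw [Finset.card_eq_three.2 ⟨_, _, _, by simp; omega, by simp; omega,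
        fun e => hb.2.2 (by have := (Prod.ext_iff.1 e).1; simp at this; exact this ▸ hs.2.2.2), rfl⟩]
    · simp only [Finset.mem_insert, Finset.mem_singleton]
      rintro p (rfl | rfl | rfl)
      · exact Or.inr ⟨rfl, Or.inl ha⟩
      · exact Or.inl ⟨rfl, Or.inl hb⟩
      · exact Or.inl ⟨rfl, Or.inr hs⟩

/-- The complement of the ideal generated by `x, y`. -/
def D0 (M : ℤ → Prop) (x y t : ℤ) : Prop := M t ∧ ¬ M (t - x) ∧ ¬ M (t - y)

theorem D0_dn (h : Sg M G) (x y : ℤ) : Dn M (D0 M x y) x y :=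
  ⟨fun ht => ht.1, fun ht => ht.2.1, fun ht => ht.2.2, fun ht ha hm =>
    ⟨ha, fun hh => ht.2.1 (cst (h.add hh hm) (by ring)),
      fun hh => ht.2.2 (cst (h.add hh hm) (by ring))⟩⟩

open Classical in
noncomputable def bs (M : ℤ → Prop) (x y z w s : ℤ) : ℤ :=
  if M (s - x) then x else if M (s - y) then y else if M (s - z) then z else w

theorem gen_ub (h : Sg M G) (l : Lab G x y z w) (S Y : Finset ℤ)
    (hne : S.Nonempty) (hS : ∀ σ ∈ S, D0 M x y σ) (hc : ∀ t, D0 M x y t → ∃ σ ∈ S, M (σ - t))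
    (hY : ∀ s, M (s - x) → M (s - y) → Conn M G s y x ∨ s ∈ Y) :
    UB M G (Y.card + S.card + 1) := by
  classical
  obtain ⟨L, hL, hT⟩ := two_ub h l (D0_dn h x y) S hne hS hc
  refine ⟨L ∪ Y.image (fun s => (s, y)), bs M x y z w, ?_, fun s v hv hs => ⟨?_, ?_⟩⟩
  · have h1 := Finset.card_union_le L (Y.image fun s => (s, y))
    have h2 := Finset.card_image_le (s := Y) (f := fun s => (s, y))
    omega
  · unfold bs
    split_ifs with h1 h2 h3
    · exact ⟨l.gx, h1⟩
    · exact ⟨l.gy, h2⟩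
    · exact ⟨l.gz, h3⟩
    · rcases (l.gen v).1 hv with rfl | rfl | rfl | rfl
      · exact absurd hs h1
      · exact absurd hs h2
      · exact absurd hs h3
      · exact ⟨hv, hs⟩
  · set Gd : ℤ → Prop := fun v => Conn M G s v (bs M x y z w s) ∨
      ∃ j, (s, j) ∈ L ∪ Y.image (fun s => (s, y)) ∧ Conn M G s v j with hGd
    have step : ∀ {u v}, G u → G v → M (s - u - v) → Gd v → Gd u := by
      intro u v hu hv hm hg
      rcases hg with hg | ⟨j, hj, hg⟩
      · exact Or.inl ((Conn.edge hu hv hm).tr hg)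
      · exact Or.inr ⟨j, hj, (Conn.edge hu hv hm).tr hg⟩
    have gx : M (s - x) → Gd x := fun hx => Or.inl (by rw [bs, if_pos hx]; exact Conn.rfl')
    have gy : M (s - y) → Gd y := fun hy => by
      by_cases hx : M (s - x)
      · rcases hY s hx hy with hh | hh
        · exact Or.inl (by rw [bs, if_pos hx]; exact hh)
        · exact Or.inr ⟨y, Finset.mem_union_right _ (Finset.mem_image.2 ⟨s, hh, rfl⟩), Conn.rfl'⟩
      · exact Or.inl (by rw [bs, if_neg hx, if_pos hy]; exact Conn.rfl')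
    have out : ∀ {u}, G u → M (s - u) → ¬ D0 M x y (s - u) → Gd u := by
      intro u hu hm hD
      by_cases h1 : M (s - u - x)
      · exact step hu l.gx h1 (gx (cst (h.add h1 (h.mem hu)) (by ring)))
      · have h2 : M (s - u - y) := by
          by_contra h2; exact hD ⟨hm, h1, h2⟩
        exact step hu l.gy h2 (gy (cst (h.add h2 (h.mem hu)) (by ring)))
    have inL : ∀ {u}, (s, u) ∈ L → Gd u := fun hu =>
      Or.inr ⟨_, Finset.mem_union_left _ hu, Conn.rfl'⟩
    have gz : M (s - z) → Gd z := fun hz => by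
      by_cases hD : D0 M x y s
      · exact Or.inl (by rw [bs, if_neg hD.2.1, if_neg hD.2.2, if_pos hz]; exact Conn.rfl')
      by_cases h1 : D0 M x y (s - z)
      · by_cases h2 : M (s - z - w)
        · by_cases h3 : D0 M x y (s - w)
          · exact inL ((hT s).2.2.1 ⟨hD, h1, h3, h2⟩)
          · exact step l.gz l.gw h2 (out l.gw (cst (h.add h2 (h.mem l.gz)) (by ring)) h3)
        · exact inL ((hT s).1 ⟨hD, h1, h2⟩)
      · exact out l.gz hz h1
    rcases (l.gen v).1 hv with rfl | rfl | rfl | rfl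
    · exact gx hs
    · exact gy hs
    · exact gz hs
    · by_cases h2 : M (s - v - z)
      · exact step hv l.gz h2 (gz (cst (h.add h2 (h.mem hv)) (by ring)))
      by_cases hD : D0 M x y s
      · by_cases hz : M (s - z)
        · exact inL ((hT s).2.2.2 ⟨hD, hz, hs, fun hm => h2 (cst hm (by ring))⟩)
        · exact Or.inl (by rw [bs, if_neg hD.2.1, if_neg hD.2.2, if_neg hz]; exact Conn.rfl')
      by_cases h1 : D0 M x y (s - v)
      · exact inL ((hT s).2.1 ⟨hD, h1, h2⟩)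
      · exact out hv hs h1

theorem gen_lb (h : Sg M G) (l : Lab G x y z w) (L : Finset (ℤ × ℤ)) (Y : Finset ℤ)
    (hL : ∀ p ∈ L, Typ M (D0 M x y) z w p)
    (hY : ∀ s ∈ Y, M (s - x) ∧ M (s - y) ∧ ¬ Conn M G s y x) :
    LB M G (Y.card + L.card) := by
  classical
  have hz := h.mem l.gz
  have hw := h.mem l.gw
  have cz : ∀ s v, (TZ M (D0 M x y) z w s ∨ TZW M (D0 M x y) z w s) → Conn M G s z v →
      v = z ∨ v = w := by
    intro s v hs hc
    have h1 : D0 M x y (s - z) := hs.elim (fun a => a.2.1) fun a => a.2.1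
    have := hc.closed (fun u => u = z ∨ (u = w ∧ D0 M x y (s - w))) (Or.inl rfl) (by
      rintro u v (rfl | ⟨rfl, hu⟩) hv hm <;> rcases (l.gen v).1 hv with rfl | rfl | rfl | rfl
      · exact absurd hm h1.2.1
      · exact absurd hm h1.2.2
      · exact Or.inl rfl
      · exact hs.elim (fun a => absurd hm a.2.2) fun a => Or.inr ⟨rfl, a.2.2.1⟩
      · exact absurd hm hu.2.1
      · exact absurd hm hu.2.2
      · exact Or.inl rfl
      · exact Or.inr ⟨rfl, hu⟩)
    tauto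
  have cw : ∀ s v, (TZ M (D0 M x y) w z s ∨ TB M (D0 M x y) z w s) → Conn M G s w v →
      v = w := by
    intro s v hs hc
    have h1 : D0 M x y (s - w) := hs.elim (fun a => a.2.1)
      fun a => (D0_dn h x y).dv a.1 a.2.2.1 (cst hw (by ring))
    refine hc.closed (fun u => u = w) rfl ?_
    rintro u v rfl hv hm
    rcases (l.gen v).1 hv with rfl | rfl | rfl | rfl
    · exact absurd hm h1.2.1
    · exact absurd hm h1.2.2
    · exact hs.elim (fun a => absurd hm a.2.2) fun a => absurd (cst hm (by ring)) a.2.2.2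
    · rfl
  have bxy : ∀ s, M s → ¬ D0 M x y s → (bs M x y z w s = x ∧ M (s - x)) ∨
      (bs M x y z w s = y ∧ M (s - y)) := by
    intro s hs hD
    by_cases hx : M (s - x)
    · exact Or.inl ⟨by rw [bs, if_pos hx], hx⟩
    · have hy : M (s - y) := by
        by_contra hy; exact hD ⟨hs, hx, hy⟩
      exact Or.inr ⟨by rw [bs, if_neg hx, if_pos hy], hy⟩
  have h1 := l.xz
  have h2 := l.xw
  have h3 := l.yz
  have h4 := l.yw
  have h5 := l.zw
  have snd : ∀ p ∈ L, ∀ v, Conn M G p.1 p.2 v → v = z ∨ v = w := by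
    intro p hp v hc
    rcases hL p hp with ⟨e, ht⟩ | ⟨e, ht⟩
    · exact cz _ _ ht (e ▸ hc)
    · exact Or.inr (cw _ _ ht (e ▸ hc))
  refine ⟨L ∪ Y.image (fun s => (s, y)), bs M x y z w, ?_, ?_, ?_⟩
  · rw [Finset.card_union_of_disjoint, Finset.card_image_of_injective]
    · omega
    · intro a b e; exact (Prod.ext_iff.1 e).1
    · rw [Finset.disjoint_left]
      intro p hp hq
      obtain ⟨s, -, rfl⟩ := Finset.mem_image.1 hq
      have := snd _ hp y Conn.rfl'
      omega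
  · intro p hp
    rcases Finset.mem_union.1 hp with hp | hp
    · rcases hL p hp with ⟨e, ht⟩ | ⟨e, ht⟩
      · have hD : D0 M x y (p.1 - z) := ht.elim (fun a => a.2.1) fun a => a.2.1
        have hD' : ¬ D0 M x y p.1 := ht.elim (fun a => a.1) fun a => a.1
        rw [e]
        rcases bxy p.1 (cst (h.add hD.1 hz) (by ring)) hD' with ⟨e', hm⟩ | ⟨e', hm⟩ <;> rw [e']
        · exact ⟨l.gz, hD.1, l.gx, hm, fun hc => by have := cz _ _ ht hc; omega⟩
        · exact ⟨l.gz, hD.1, l.gy, hm, fun hc => by have := cz _ _ ht hc; omega⟩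
      · rw [e]
        rcases ht with ht | ht
        · rcases bxy p.1 (cst (h.add ht.2.1.1 hw) (by ring)) ht.1 with ⟨e', hm⟩ | ⟨e', hm⟩ <;>
            rw [e']
          · exact ⟨l.gw, ht.2.1.1, l.gx, hm, fun hc => by have := cw _ _ (Or.inl ht) hc; omega⟩
          · exact ⟨l.gw, ht.2.1.1, l.gy, hm, fun hc => by have := cw _ _ (Or.inl ht) hc; omega⟩
        · rw [bs, if_neg ht.1.2.1, if_neg ht.1.2.2, if_pos ht.2.1]
          exact ⟨l.gw, ht.2.2.1, l.gz, ht.2.1, fun hc => by have := cw _ _ (Or.inr ht) hc; omega⟩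
    · obtain ⟨s, hs, rfl⟩ := Finset.mem_image.1 hp
      obtain ⟨a, b, c⟩ := hY s hs
      simp only
      rw [bs, if_pos a]
      exact ⟨l.gy, b, l.gx, a, c⟩
  · intro p hp q hq e hc
    rcases Finset.mem_union.1 hp with hp | hp <;> rcases Finset.mem_union.1 hq with hq | hq
    · rcases hL p hp with ⟨e1, ht⟩ | ⟨e1, ht⟩ <;> rcases hL q hq with ⟨e2, ht'⟩ | ⟨e2, ht'⟩
      · omega
      · have := cw _ _ ht' (by have := hc.symm; rw [e, e1, e2] at this; exact this)
        omega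
      · have := cw _ _ ht (by rw [e1] at hc; exact hc)
        omega
      · omega
    · obtain ⟨s, -, rfl⟩ := Finset.mem_image.1 hq
      have := snd p hp _ hc
      simp only at this ⊢
      omega
    · obtain ⟨s, -, rfl⟩ := Finset.mem_image.1 hp
      have := snd q hq _ (by have := hc.symm; rw [e] at this; exact this)
      simp only at this ⊢
      omega
    · obtain ⟨s, -, rfl⟩ := Finset.mem_image.1 hp
      obtain ⟨s', -, rfl⟩ := Finset.mem_image.1 hq
      rfl

end Pool.Agent.P.MP_8e9e7d_al.B
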