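import Pool.Agent.P.MP_8e9e7d_al.BGen

set_option autoImplicit false

namespace Pool.Agent.P.MP_8e9e7d_al.B

variable {M G : ℤ → Prop} {x y z w c u : ℤ}

/-- Pseudo-Frobenius numbers. -/
def PF (M G : ℤ → Prop) (f : ℤ) : Prop := ¬ M f ∧ ∀ v, G v → M (f + v)

theorem PF.add (h : Sg M G) {f a : ℤ} (hf : PF M G f) (ha : M a) (h0 : a ≠ 0) : M (f + a) := by
  rcases h.dec ha with rfl | ⟨v, hv, hm⟩
  · exact absurd rfl h0
  · exact cst (h.add (hf.2 v hv) hm) (by ring)

theorem PF.cmp (h : Sg M G) {f g : ℤ} (hf : PF M G f) (hg : PF M G g) (hm : M (f - g)) :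
    f = g := by
  by_contra hne
  exact hf.1 (cst (hg.add h hm (sub_ne_zero.2 hne)) (by ring))

theorem PF.neg (h : Sg M G) (l : Lab G x y z w) {f : ℤ} (hf : PF M G f) : ¬ M (-f) := by
  intro hm
  have h0 : -f ≠ 0 := fun e => hf.1 (cst h.zero (by omega))
  have h1 := h.atom l.gx hm (cst (hf.2 x l.gx) (by ring))
  have h2 := h.atom l.gy hm (cst (hf.2 y l.gy) (by ring))
  have := l.xy
  omega

theorem conn_pair (h : Sg M G) {a b v : ℤ} (ha : G a) (hb : G b) (hc : Conn M G (a + b) a v) :
    v = a ∨ v = b := by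
  refine hc.closed (fun u => u = a ∨ u = b) (Or.inl rfl) ?_
  rintro u v (rfl | rfl) hv hm
  · by_contra hne
    exact h.sub_ne hb hv (by tauto) (cst hm (by ring))
  · by_contra hne
    exact h.sub_ne ha hv (by tauto) (cst hm (by ring))

theorem via (h : Sg M G) (l : Lab G x y z w) {s : ℤ} (h1 : M (y + z - x)) (hz : M (s - y - z)) :
    Conn M G s y x ∨ s = y + z := by
  rcases h.dec hz with h0 | ⟨v, hv, hm⟩
  · exact Or.inr (by omega)
  · exact Or.inl ((Conn.edge l.gy hv (cst (h.add hm (h.mem l.gz)) (by ring))).tr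
      (Conn.edge hv l.gx (cst (h.add hm h1) (by ring))))

theorem iso_k (h : Sg M G) (l : Lab G x y z w) :
    ∃ k, 0 ≤ k ∧ M ((k + 1) * y - x) ∧ ∀ j, 0 ≤ j → j ≤ k → ¬ M (j * y - x) := by
  have px := h.pos l.gx
  have py := h.pos l.gy
  obtain ⟨k, hk, -, hP, hmin⟩ := first (fun j => M (j * y - x)) (h.neg (by omega)) px.le
    (cst (h.mul (n := y - 1) (by omega) (h.mem l.gx)) (by ring))
  exact ⟨k, hk, hP, hmin⟩

theorem iso_ub (h : Sg M G) (l : Lab G x y z w) (h1 : M (y + z - x)) (h2 : M (y + w - x)) :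
    ∃ Y : Finset ℤ, Y.card ≤ 3 ∧ ∀ s, M (s - x) → M (s - y) → Conn M G s y x ∨ s ∈ Y := by
  obtain ⟨k, hk, hP, hmin⟩ := iso_k h l
  refine ⟨{y + z, y + w, (k + 1) * y}, Finset.card_le_three, fun s hx hy => ?_⟩
  simp only [Finset.mem_insert, Finset.mem_singleton]
  by_cases a1 : M (s - y - x)
  · exact Or.inl (Conn.edge l.gy l.gx a1)
  by_cases a2 : M (s - y - z)
  · have := via h l h1 a2; tauto
  by_cases a3 : M (s - y - w)
  · have := via h l.s34 h2 a3; tauto
  obtain ⟨j, hj, e⟩ := h.one l.s23.s34 hy a1 a2 a3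
  have b1 : k ≤ j := by
    by_contra hlt
    exact hmin (j + 1) (by omega) (by omega) (cst hx (by linear_combination e))
  have b2 : j ≤ k := by
    by_contra hlt
    exact a1 (cst (h.add hP (h.mul (n := j - k - 1) (by omega) (h.mem l.gy)))
      (by linear_combination -e))
  have : j = k := by omega
  subst this
  exact Or.inr (Or.inr (Or.inr (by linear_combination e)))

theorem pair_ok (h : Sg M G) (l : Lab G x y z w) (h1 : M (y + z - x)) :
    M (y + z - x) ∧ M (y + z - y) ∧ ¬ Conn M G (y + z) y x := by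
  refine ⟨h1, cst (h.mem l.gz) (by ring), fun hc => ?_⟩
  have := conn_pair h l.gy l.gz hc
  have := l.xy
  have := l.xz
  omega

theorem iso_lb2 (h : Sg M G) (l : Lab G x y z w) (h1 : M (y + z - x)) (h2 : M (y + w - x)) :
    ∃ Y : Finset ℤ, 2 ≤ Y.card ∧ ∀ s ∈ Y, M (s - x) ∧ M (s - y) ∧ ¬ Conn M G s y x := by
  have := l.zw
  refine ⟨{y + z, y + w}, by rw [Finset.card_pair (by omega)], ?_⟩
  simp only [Finset.mem_insert, Finset.mem_singleton]
  rintro s (rfl | rfl)
  · exact pair_ok h l h1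
  · exact pair_ok h l.s34 h2

theorem iso_lb3 (h : Sg M G) (l : Lab G x y z w) (h1 : M (y + z - x)) (h2 : M (y + w - x))
    (nc : ∀ k, 0 ≤ k → ¬ M (k * y - x) → ¬ M (k * y - z) ∧ ¬ M (k * y - w)) :
    ∃ Y : Finset ℤ, 3 ≤ Y.card ∧ ∀ s ∈ Y, M (s - x) ∧ M (s - y) ∧ ¬ Conn M G s y x := by
  obtain ⟨k, hk, hP, hmin⟩ := iso_k h l
  have hzw := l.zw
  obtain ⟨n1, n2⟩ := nc k hk (hmin k hk le_rfl)
  refine ⟨{y + z, y + w, (k + 1) * y}, ?_, ?_⟩
  · rw [Finset.card_eq_three.2 ⟨_, _, _, by omega,
      fun e => n1 (cst h.zero (by linear_combination e)),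
      fun e => n2 (cst h.zero (by linear_combination e)), rfl⟩]
  · simp only [Finset.mem_insert, Finset.mem_singleton]
    rintro s (rfl | rfl | rfl)
    · exact pair_ok h l h1
    · exact pair_ok h l.s34 h2
    · refine ⟨hP, cst (h.mul hk (h.mem l.gy)) (by ring), fun hc => l.xy ?_⟩
      refine hc.closed (fun u => u = y) rfl ?_
      rintro u v rfl hv hm
      rcases (l.gen v).1 hv with rfl | rfl | rfl | rfl
      · exact absurd (cst hm (by ring)) (hmin k hk le_rfl)
      · rfl
      · exact absurd (cst hm (by ring)) n1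
      · exact absurd (cst hm (by ring)) n2

theorem LB.mono {n m : ℕ} (h : LB M G n) (hm : m ≤ n) : LB M G m := by
  obtain ⟨L, b, h1, h2⟩ := h
  exact ⟨L, b, hm.trans h1, h2⟩

theorem UB.mono {n m : ℕ} (h : UB M G n) (hm : n ≤ m) : UB M G m := by
  obtain ⟨L, b, h1, h2⟩ := h
  exact ⟨L, b, h1.trans hm, h2⟩

theorem six (h : Sg M G) (l : Lab G x y z w) {σ τ : ℤ} (hσ : D0 M x y σ) (hτ : D0 M x y τ)
    (h1 : ¬ M (σ - τ)) (h2 : ¬ M (τ - σ)) (hc : ∀ t, D0 M x y t → M (σ - t) ∨ M (τ - t))
    (hu : ∃ Y : Finset ℤ, Y.card ≤ 3 ∧ ∀ s, M (s - x) → M (s - y) → Conn M G s y x ∨ s ∈ Y)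
    (hl : ∃ Y : Finset ℤ, 3 ≤ Y.card ∧ ∀ s ∈ Y, M (s - x) ∧ M (s - y) ∧ ¬ Conn M G s y x) :
    LB M G 6 ∧ UB M G 6 := by
  obtain ⟨Y, hY, hY'⟩ := hu
  obtain ⟨Z, hZ, hZ'⟩ := hl
  obtain ⟨L, hL, hL'⟩ := two_lb2 h l (D0_dn h x y) hσ hτ h1 h2 hc
  refine ⟨(gen_lb h l L Z hL' hZ').mono (by omega), (gen_ub h l {σ, τ} Y (by simp)
    (by simp [hσ, hτ]) (by simpa using hc) hY').mono ?_⟩
  have := Finset.card_le_two (a := σ) (b := τ)
  omega

/-- Type three: the canonical ideal is generated by `x, y, u`. -/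
structure T3 (M G : ℤ → Prop) (c x y u : ℤ) : Prop where
  px : PF M G (c - x)
  py : PF M G (c - y)
  pu : PF M G (c - u)
  mu : M u
  ux : u ≠ x
  uy : u ≠ y
  cov : ∀ s, ¬ M s → M (c - x - s) ∨ M (c - y - s) ∨ M (c - u - s)

theorem T3.sw (t : T3 M G c x y u) : T3 M G c y x u :=
  ⟨t.py, t.px, t.pu, t.mu, t.uy, t.ux, fun s hs => by have := t.cov s hs; tauto⟩

theorem T3.om (t : T3 M G c x y u) {s : ℤ} (hs : ¬ M (c - s)) :
    M (s - x) ∨ M (s - y) ∨ M (s - u) := by
  rcases t.cov _ hs with a | a | a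
  · exact Or.inl (cst a (by ring))
  · exact Or.inr (Or.inl (cst a (by ring)))
  · exact Or.inr (Or.inr (cst a (by ring)))

theorem T3.ap (t : T3 M G c x y u) {s : ℤ} (hs : ¬ M (s - x)) :
    M (c - s) ∨ M (c + x - y - s) ∨ M (c + x - u - s) := by
  rcases t.cov _ hs with a | a | a
  · exact Or.inl (cst a (by ring))
  · exact Or.inr (Or.inl (cst a (by ring)))
  · exact Or.inr (Or.inr (cst a (by ring)))

theorem T3.nux (h : Sg M G) (t : T3 M G c x y u) : ¬ M (u - x) := fun hm => by
  have := t.px.cmp h t.pu (cst hm (by ring))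
  have := t.ux
  omega

theorem T3.nxu (h : Sg M G) (t : T3 M G c x y u) : ¬ M (x - u) := fun hm => by
  have := t.pu.cmp h t.px (cst hm (by ring))
  have := t.ux
  omega

theorem T3.ax (h : Sg M G) (t : T3 M G c x y u) {s : ℤ} (hs : M (c - s)) : ¬ M (s - x) :=
  fun hm => t.px.1 (cst (h.add hs hm) (by ring))

theorem T3.ay (h : Sg M G) (t : T3 M G c x y u) {s : ℤ} (hs : M (c - s)) : ¬ M (s - y) :=
  fun hm => t.py.1 (cst (h.add hs hm) (by ring))

theorem T3.au (h : Sg M G) (t : T3 M G c x y u) {s : ℤ} (hs : M (c - s)) : ¬ M (s - u) :=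
  fun hm => t.pu.1 (cst (h.add hs hm) (by ring))

theorem T3.mc (t : T3 M G c x y u) (l : Lab G x y z w) : M c := cst (t.px.2 x l.gx) (by ring)

theorem T3.u0 (t : T3 M G c x y u) (l : Lab G x y z w) : u ≠ 0 := fun e =>
  t.pu.1 (cst (t.mc l) (by omega))

theorem T3.uzw (h : Sg M G) (t : T3 M G c x y u) (l : Lab G x y z w) : M (u - z) ∨ M (u - w) := by
  by_contra hn
  push Not at hn
  exact t.u0 l (h.none l t.mu (t.nux h) (t.sw.nux h) hn.1 hn.2)

theorem six_cu (h : Sg M G) (t : T3 M G c x y u) (l : Lab G x y z w)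
    (hz : M (z + u - x) ∨ M (z + u - y)) (hw : M (w + u - x) ∨ M (w + u - y))
    (hu : ∃ Y : Finset ℤ, Y.card ≤ 3 ∧ ∀ s, M (s - x) → M (s - y) → Conn M G s y x ∨ s ∈ Y)
    (hl : ∃ Y : Finset ℤ, 3 ≤ Y.card ∧ ∀ s ∈ Y, M (s - x) ∧ M (s - y) ∧ ¬ Conn M G s y x) :
    LB M G 6 ∧ UB M G 6 := by
  refine six h l (σ := c) (τ := u) ⟨t.mc l, t.px.1, t.py.1⟩ ⟨t.mu, t.nux h, t.sw.nux h⟩ t.pu.1
    (fun hm => t.pu.neg h l (cst hm (by ring))) (fun s hs => ?_) hu hl
  by_cases hc : M (c - s)
  · exact Or.inl hc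
  rcases t.om hc with a | a | a
  · exact absurd a hs.2.1
  · exact absurd a hs.2.2
  have : s - u = 0 := h.none l a (fun b => hs.2.1 (cst (h.add b t.mu) (by ring)))
    (fun b => hs.2.2 (cst (h.add b t.mu) (by ring)))
    (fun b => hz.elim (fun d => hs.2.1 (cst (h.add b d) (by ring)))
      fun d => hs.2.2 (cst (h.add b d) (by ring)))
    (fun b => hw.elim (fun d => hs.2.1 (cst (h.add b d) (by ring)))
      fun d => hs.2.2 (cst (h.add b d) (by ring)))
  exact Or.inr (cst h.zero (by omega))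

theorem ypure (h : Sg M G) (l : Lab G x y z w) (h1 : M (y + z - x)) (h2 : M (y + w - x))
    {s : ℤ} (hy : M (s - y)) (hx : ¬ M (s - x)) : ∃ j : ℤ, 0 ≤ j ∧ s - y = j * y :=
  h.one l.s23.s34 hy (fun b => hx (cst (h.add b (h.mem l.gy)) (by ring)))
    (fun b => hx (cst (h.add b h1) (by ring))) (fun b => hx (cst (h.add b h2) (by ring)))

theorem ymax (h : Sg M G) (l : Lab G x y z w) (h1 : M (y + z - x)) (h2 : M (y + w - x))
    {m s : ℤ} (hy : M (m - y)) (hm : M (m + y - x)) (hx : ¬ M (s - x)) (hs : M (s - m)) :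
    s = m := by
  have hM : M m := cst (h.add hy (h.mem l.gy)) (by ring)
  have : s - m = 0 := h.none l hs (fun b => hx (cst (h.add b hM) (by ring)))
    (fun b => hx (cst (h.add b hm) (by ring)))
    (fun b => hx (cst (h.add (h.add b hy) h1) (by ring)))
    (fun b => hx (cst (h.add (h.add b hy) h2) (by ring)))
  omega

theorem alpha_nc (h : Sg M G) (t : T3 M G c x y u) (l : Lab G x y z w) (h1 : M (y + z - x))
    (h2 : M (y + w - x)) (h3 : M (z + u - x)) (h4 : M (w + u - x)) {k : ℤ} (hk : 0 ≤ k)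
    (hx : ¬ M (k * y - x)) : ¬ M (k * y - z) := by
  intro hz
  have hy := h.mem l.gy
  have hw := h.mem l.gw
  have pz := h.pos l.gz
  have py := h.pos l.gy
  have k2 : 2 ≤ k := by
    by_contra hlt
    have : k = 0 ∨ k = 1 := by omega
    rcases this with rfl | rfl
    · exact h.neg (by omega) hz
    · exact h.sub_ne l.gy l.gz l.yz (cst hz (by ring))
  have my : M (k * y - y) := cst (h.mul (n := k - 1) (by omega) hy) (by ring)
  have mx : M (k * y + y - x) := cst (h.add hz h1) (by ring)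
  have uy : M (u + y - x) := (t.uzw h l).elim (fun b => cst (h.add b h1) (by ring))
    fun b => cst (h.add b h2) (by ring)
  have umax : ∀ s, M (s - u) → ¬ M (s - x) → s = u := fun s a b => by
    have : s - u = 0 := h.none l a (fun d => b (cst (h.add d t.mu) (by ring)))
      (fun d => b (cst (h.add d uy) (by ring))) (fun d => b (cst (h.add d h3) (by ring)))
      (fun d => b (cst (h.add d h4) (by ring)))
    omega
  have sx : ¬ M (c + x - y - x) := fun b => t.py.1 (cst b (by ring))
  have tx : ¬ M (c + x - u - x) := fun b => t.pu.1 (cst b (by ring))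
  have ncmp : ∀ i j : ℤ, c + x - y = i * y → c + x - u = j * y → False := by
    intro i j e1 e2
    have := t.uy
    rcases le_total i j with hl | hl
    · have := t.pu.cmp h t.py (cst (h.mul (n := j - i) (by omega) hy)
        (by linear_combination e1 - e2))
      omega
    · have := t.py.cmp h t.pu (cst (h.mul (n := i - j) (by omega) hy)
        (by linear_combination e2 - e1))
      omega
  rcases t.ap hx with a | a | a
  · exact t.ay h a my
  · have e := ymax h l h1 h2 my mx sx a
    have a1 : M (c - (y + z - x)) := cst hz (by linear_combination -e)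
    obtain ⟨j, hj, e1⟩ := h.one l h1 (t.ax h a1) (t.ay h a1)
      (fun b => h.sub_ne l.gy l.gx l.xy.symm (cst b (by ring)))
    by_cases uz : M (u - z)
    · have e2 : c + x - u = u := by
        rcases t.om (s := c + x - u) (fun b => t.nux h (cst b (by ring))) with b | b | b
        · exact absurd b tx
        · obtain ⟨i, -, e2⟩ := ypure h l h1 h2 b tx
          exact (ncmp k (i + 1) e (by linear_combination e2)).elim
        · exact umax _ b tx
      have a2 : M (c - (c - u + z)) := cst uz (by ring)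
      obtain ⟨n, hn, e3⟩ := h.one l (t.pu.2 z l.gz) (t.ax h a2) (t.ay h a2)
        (fun b => t.pu.1 (cst b (by ring)))
      have hjn : j ≤ n := by
        by_contra hlt
        exact h.sub_ne l.gy l.gx l.xy.symm (cst (h.add (h.mul (n := j - n - 1) (by omega) hw)
          (t.pu.2 w l.gw)) (by linear_combination e3 - e1))
      exact t.sw.nux h (cst (h.mul (n := n - j) (by omega) hw)
        (by linear_combination e1 + e2 - e3))
    · obtain ⟨b, hb, e2⟩ := h.one l t.mu (t.nux h) (t.sw.nux h) uz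
      have hbj : b ≤ j := by
        by_contra hlt
        exact uz (cst (h.add (h.mul (n := b - j - 1) (by omega) hw) h2)
          (by linear_combination e1 - e2))
      exact t.pu.1 (cst (h.add a1 (h.mul (n := j - b) (by omega) hw))
        (by linear_combination e2 - e1))
  · have e := ymax h l h1 h2 my mx tx a
    rcases t.om (s := c + x - y) (fun b => h.sub_ne l.gy l.gx l.xy.symm (cst b (by ring)))
      with b | b | b
    · exact sx b
    · obtain ⟨i, -, e2⟩ := ypure h l h1 h2 b sx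
      exact ncmp (i + 1) k (by linear_combination e2) e
    · have := umax _ b sx
      nlinarith

theorem alpha3 (h : Sg M G) (t : T3 M G c x y u) (l : Lab G x y z w) (h1 : M (y + z - x))
    (h2 : M (y + w - x)) (h3 : M (z + u - x)) (h4 : M (w + u - x)) : LB M G 6 ∧ UB M G 6 :=
  six_cu h t l (Or.inl h3) (Or.inl h4) (iso_ub h l h1 h2) (iso_lb3 h l h1 h2 fun _ hk hx =>
    ⟨alpha_nc h t l h1 h2 h3 h4 hk hx, alpha_nc h t l.s34 h2 h1 h4 h3 hk hx⟩)

theorem caseI (h : Sg M G) (t : T3 M G c x y z) (l : Lab G x y z w) (h1 : M (w + y - x))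
    (h2 : M (w + z - x)) : LB M G 6 ∧ UB M G 6 := by
  have l' : Lab G x w y z := l.s34.s23
  have key : ∀ v, G v → v ≠ x → M (w + v - x) → ¬ M (c + x - v - w) := by
    intro v hv hvx hm a
    have a1 : M (c - (w + v - x)) := cst a (by ring)
    have := h.none l hm (t.ax h a1) (t.ay h a1) (t.au h a1)
      (fun b => h.sub_ne hv l.gx hvx (cst b (by ring)))
    exact h.sub_ne l.gx hv hvx.symm (cst (h.mem l.gw) (by omega))
  have k1 := key y l.gy l.xy.symm h1
  have k2 := key z l.gz l.xz.symm h2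
  have m1 : M (c + x - y) := cst (t.py.2 x l.gx) (by ring)
  refine six h l' (σ := c + x - y) (τ := c + x - z)
    ⟨m1, fun b => t.py.1 (cst b (by ring)), k1⟩
    ⟨cst (t.pu.2 x l.gx) (by ring), fun b => t.pu.1 (cst b (by ring)), k2⟩
    (fun b => h.sub_ne l.gz l.gy l.yz.symm (cst b (by ring)))
    (fun b => h.sub_ne l.gy l.gz l.yz (cst b (by ring))) (fun s hs => ?_) (iso_ub h l' h1 h2)
    (iso_lb3 h l' h1 h2 fun k hk hx => ?_)
  · rcases t.ap hs.2.1 with a | a | a
    · have := h.none l hs.1 hs.2.1 (t.ay h a) (t.au h a) hs.2.2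
      exact Or.inl (cst m1 (by omega))
    · exact Or.inl a
    · exact Or.inr a
  · rcases hk.eq_or_lt with rfl | hk
    · have := h.pos l.gy
      have := h.pos l.gz
      exact ⟨h.neg (by omega), h.neg (by omega)⟩
    have hw := h.mul (n := k - 1) (by omega) (h.mem l.gw)
    rcases t.ap hx with a | a | a
    · exact ⟨t.ay h a, t.au h a⟩
    · exact absurd (cst (h.add a hw) (by ring)) k1
    · exact absurd (cst (h.add a hw) (by ring)) k2

theorem gamma3 (h : Sg M G) (t : T3 M G c x y u) (l : Lab G x y z w) (g1 : M (z + x - u))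
    (g2 : M (z + y - u)) (h2 : M (y + w - x)) (h4 : M (w + u - x)) (uz : ¬ M (u - z))
    (uw : u ≠ w) : LB M G 6 ∧ UB M G 6 := by
  have hy := h.mem l.gy
  have hz := h.mem l.gz
  have hw := h.mem l.gw
  have pz := h.pos l.gz
  have py := h.pos l.gy
  have pw := h.pos l.gw
  obtain ⟨b, hb, e⟩ := h.one l t.mu (t.nux h) (t.sw.nux h) uz
  have b2 : 2 ≤ b := by
    by_contra hlt
    have : b = 0 ∨ b = 1 := by omega
    rcases this with rfl | rfl
    · exact t.u0 l (by omega)
    · exact uw (by omega)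
  have nzu : ¬ M (z - u) := fun a => by
    rcases h.atom l.gz t.mu a with a | a
    · exact t.u0 l a
    · exact uz (cst h.zero (by omega))
  have n1 : ¬ M (z + y - u - z) := fun a => t.sw.nxu h (cst a (by ring))
  have h1 : M (y + z - x) := by
    by_contra hn
    have := h.none l g2 (fun a => hn (cst (h.add a t.mu) (by ring)))
      (fun a => nzu (cst a (by ring))) n1 (fun a => hn (cst (h.add a h4) (by ring)))
    exact t.sw.nux h (cst hz (by omega))
  by_cases h3 : M (z + u - x)
  · exact alpha3 h t l h1 h2 h3 h4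
  have uy : M (u + y - x) := cst (h.add (h.mul (n := b - 1) (by omega) hw) h2)
    (by linear_combination -e)
  have sx : ¬ M (c + x - y - x) := fun b => t.py.1 (cst b (by ring))
  have tx : ¬ M (c + x - u - x) := fun b => t.pu.1 (cst b (by ring))
  have c1 : ¬ M (c + x - y - u) := by
    intro a
    obtain ⟨i, hi, e1⟩ := h.one l.s34 a (fun d => sx (cst (h.add d t.mu) (by ring)))
      (fun d => sx (cst (h.add d uy) (by ring))) (fun d => sx (cst (h.add d h4) (by ring)))
    obtain ⟨j, hj, e2⟩ := ypure h l h1 h2 (s := c + x - u) (cst a (by ring)) tx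
    rcases hi.eq_or_lt with rfl | hi
    · exact h3 (cst (t.py.2 z l.gz) (by omega))
    · exact tx (cst (h.add (h.mul (n := i - 1) (by omega) hz) h1) (by linear_combination -e1))
  refine six h l (σ := c) (τ := c + x - u) ⟨t.mc l, t.px.1, t.py.1⟩
    ⟨cst (t.pu.2 x l.gx) (by ring), tx, fun a => c1 (cst a (by ring))⟩
    (fun a => t.nux h (cst a (by ring))) (fun a => t.nxu h (cst a (by ring))) (fun s hs => ?_)
    (iso_ub h l h1 h2) (iso_lb3 h l h1 h2 fun k hk hx => ?_)
  · by_cases hc : M (c - s)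
    · exact Or.inl hc
    rcases t.ap hs.2.1 with a | a | a
    · exact Or.inl a
    · rcases t.om hc with d | d | d
      · exact absurd d hs.2.1
      · exact absurd d hs.2.2
      · exact absurd (cst (h.add a d) (by ring)) c1
    · exact Or.inr a
  · rcases hk.eq_or_lt with rfl | hk
    · exact ⟨h.neg (by omega), h.neg (by omega)⟩
    have my : M (k * y - y) := cst (h.mul (n := k - 1) (by omega) hy) (by ring)
    have key : M (k * y + y - x) → c + x - y = k * y := fun mx => by
      rcases t.ap hx with a | a | a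
      · exact absurd my (t.ay h a)
      · exact ymax h l h1 h2 my mx sx a
      · exact absurd (cst (h.add a my) (by ring)) c1
    constructor
    · intro a
      have e0 := key (cst (h.add a h1) (by ring))
      have a1 : M (c - (y + z - x)) := cst a (by linear_combination -e0)
      obtain ⟨j, hj, e1⟩ := h.one l h1 (t.ax h a1) (t.ay h a1)
        (fun b => h.sub_ne l.gy l.gx l.xy.symm (cst b (by ring)))
      have hjb : j < b := by
        by_contra hlt
        exact t.pu.1 (cst (h.add a1 (h.mul (n := j - b) (by omega) hw))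
          (by linear_combination e - e1))
      exact h.sub_ne l.gx l.gw l.xw (cst (h.add g2 (h.mul (n := b - j - 1) (by omega) hw))
        (by linear_combination e1 - e))
    · intro a
      have e0 := key (cst (h.add a h2) (by ring))
      have a1 : M (c - (y + w - x)) := cst a (by linear_combination -e0)
      obtain ⟨j, hj, e1⟩ := h.one l.s34 h2 (t.ax h a1) (t.ay h a1)
        (fun b => h.sub_ne l.gy l.gx l.xy.symm (cst b (by ring)))
      have j1 : 1 ≤ j := by
        by_contra hlt
        have : j = 0 := by omega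
        subst this
        exact h.sub_ne l.gx l.gy l.xy (cst hw (by omega))
      rcases h.dec g1 with d | ⟨v, hv, d⟩
      · exact t.nux h (cst hz (by omega))
      rcases (l.gen v).1 hv with rfl | rfl | rfl | rfl
      · exact nzu (cst d (by ring))
      · have := h.nonneg d
        nlinarith
      · exact t.nxu h (cst d (by ring))
      · rcases h.atom l.gz h4 (cst d (by ring)) with d' | d'
        · exact t.nxu h (cst hw (by omega))
        · exact n1 (cst (h.mul (n := j - 1) (by omega) hz) (by linear_combination d' - e1))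

end Pool.Agent.P.MP_8e9e7d_al.B
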