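import Mathlib

set_option autoImplicit false

namespace Pool.Agent.P.MP_8e9e7d_al

/-- the integer `x` lies in `Γ` -/
def Mem (Γ : AddSubmonoid ℕ) (x : ℤ) : Prop := ∃ s ∈ Γ, (s : ℤ) = x

/-- pseudo-Frobenius numbers -/
def IsPF (Γ : AddSubmonoid ℕ) (x : ℤ) : Prop :=
  ¬ Mem Γ x ∧ ∀ s ∈ Γ, s ≠ 0 → Mem Γ (x + s)

/-- almost symmetric -/
def AlmostSymmetric (Γ : AddSubmonoid ℕ) : Prop :=
  ∃ F : ℤ, IsGreatest {x : ℤ | ¬ Mem Γ x} F ∧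
    ∀ x : ℤ, ¬ Mem Γ x → Mem Γ (F - x) ∨ (IsPF Γ x ∧ IsPF Γ (F - x))

end Pool.Agent.P.MP_8e9e7d_al
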