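import Pool.Agent.P.MP_8e9e7d_al.BBridge
import Pool.Agent.P.MP_8e9e7d_al.Defs

set_option autoImplicit false

namespace Pool.Agent.P.MP_8e9e7d_al.B

theorem mem_iff (g : Fin 4 → ℕ) (s : ℕ) :
    s ∈ AddSubmonoid.closure (Set.range g) ↔ ∃ m, dg g m = s := by
  constructor
  · intro hs
    induction hs using AddSubmonoid.closure_induction with
    | mem x hx => obtain ⟨i, rfl⟩ := hx; exact ⟨_, dg_single g i⟩
    | zero => exact ⟨0, dg_zero g⟩
    | add x y _ _ hx hy =>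
      obtain ⟨m, rfl⟩ := hx
      obtain ⟨n, rfl⟩ := hy
      exact ⟨m + n, dg_add g m n⟩
  · rintro ⟨m, rfl⟩
    exact AddSubmonoid.sum_mem _ fun i _ => by
      simpa using AddSubmonoid.nsmul_mem _ (AddSubmonoid.subset_closure (s := Set.range g)
        ⟨i, rfl⟩) (m i)

theorem main (Γ : AddSubmonoid ℕ) (g : Fin 4 → ℕ) (hfin : ((Γ : Set ℕ)ᶜ).Finite)
    (hcl : AddSubmonoid.closure (Set.range g) = Γ)
    (hmin : ∀ i, g i ∉ AddSubmonoid.closure (g '' {j | j ≠ i}))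
    (hng : ∀ i, ∃ p, IsPF Γ p ∧ ∀ q, IsPF Γ q → Mem Γ (g i + p - q))
    (has : ¬ AlmostSymmetric Γ) (k : Type) [Field k] :
    ({f | IsPF Γ f}.ncard = 2 ∧ 4 ≤ (RingHom.ker (ph k g)).spanFinrank ∧
      (RingHom.ker (ph k g)).spanFinrank ≤ 5) ∨
    ({f | IsPF Γ f}.ncard = 3 ∧ (RingHom.ker (ph k g)).spanFinrank = 6) := by
  have hM : ∀ s, Mem Γ s ↔ ∃ m, (dg g m : ℤ) = s := fun s => by
    constructor
    · rintro ⟨n, hn, rfl⟩
      obtain ⟨m, rfl⟩ := (mem_iff g n).1 (hcl ▸ hn)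
      exact ⟨m, rfl⟩
    · rintro ⟨m, rfl⟩
      exact ⟨_, hcl ▸ (mem_iff g _).2 ⟨m, rfl⟩, rfl⟩
  have hinj : Function.Injective g := fun i j e => by
    by_contra hne
    exact hmin i (AddSubmonoid.subset_closure ⟨j, Ne.symm hne, e.symm⟩)
  have hp : ∀ i, 0 < g i := fun i => Nat.pos_of_ne_zero fun e => hmin i (e ▸ zero_mem _)
  have gm : ∀ i, g i ∈ Γ := fun i => hcl ▸ AddSubmonoid.subset_closure ⟨i, rfl⟩
  have small : ∀ i, ∀ s ∈ Γ, s < g i → s ∈ AddSubmonoid.closure (g '' {j | j ≠ i}) := by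
    intro i s hs
    rw [← hcl] at hs
    induction hs using AddSubmonoid.closure_induction with
    | mem x hx =>
      obtain ⟨j, rfl⟩ := hx
      exact fun hl => AddSubmonoid.subset_closure ⟨j, fun e => by simp [e] at hl, rfl⟩
    | zero => exact fun _ => zero_mem _
    | add x y _ _ hx hy => exact fun hl => add_mem (hx (by omega)) (hy (by omega))
  let G : ℤ → Prop := fun v => ∃ i, (g i : ℤ) = v
  have hG : ∀ v, G v ↔ ∃ i, (g i : ℤ) = v := fun v => Iff.rfl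
  have h : Sg (Mem Γ) G := by
    refine ⟨⟨0, zero_mem _, rfl⟩, ?_, ?_, ?_, ?_, ?_, ?_⟩
    · rintro _ _ ⟨a, ha, rfl⟩ ⟨b, hb, rfl⟩
      exact ⟨a + b, add_mem ha hb, by push_cast; rfl⟩
    · rintro _ ⟨a, -, rfl⟩
      omega
    · rintro _ ⟨i, rfl⟩
      exact ⟨_, gm i, rfl⟩
    · rintro _ ⟨i, rfl⟩
      have := hp i
      omega
    · rintro _ _ ⟨i, rfl⟩ ⟨a, ha, rfl⟩ ⟨b, hb, e⟩
      by_contra hn
      have e' : g i = a + b := by omega
      exact hmin i (e' ▸ add_mem (small i a ha (by omega)) (small i b hb (by omega)))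
    · intro a ha
      obtain ⟨m, rfl⟩ := (hM a).1 ha
      by_cases m0 : m = 0
      · subst m0; left; simp [dg_zero]
      obtain ⟨i, hi⟩ : ∃ i, m i ≠ 0 := by
        by_contra hn
        push Not at hn
        exact m0 (Finsupp.ext hn)
      obtain ⟨n, rfl⟩ := split_at hi
      refine Or.inr ⟨g i, ⟨i, rfl⟩, (hM _).2 ⟨n, ?_⟩⟩
      rw [dg_add, dg_single]
      push_cast
      ring
  have l : Lab G (g 0) (g 1) (g 2) (g 3) := by
    have ne : ∀ i j, i ≠ j → (g i : ℤ) ≠ g j := fun i j hij e => hij (hinj (by omega))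
    refine ⟨fun v => ?_, ne _ _ (by decide), ne _ _ (by decide), ne _ _ (by decide),
      ne _ _ (by decide), ne _ _ (by decide), ne _ _ (by decide)⟩
    simp only [G, Fin.exists_fin_succ, Fin.succ_zero_eq_one, Fin.succ_one_eq_two, IsEmpty.exists_iff,
      or_false, eq_comm]
    rfl
  have hpf : ∀ f, IsPF Γ f ↔ PF (Mem Γ) G f := fun f => by
    constructor
    · rintro ⟨a, b⟩
      refine ⟨a, ?_⟩
      rintro _ ⟨i, rfl⟩
      exact b _ (gm i) (hp i).ne'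
    · intro a
      exact ⟨a.1, fun s hs h0 => a.add h ⟨s, hs, rfl⟩ (by omega)⟩
  obtain ⟨N, hN⟩ := hfin.bddAbove
  have bd : ∀ s, ¬ Mem Γ s → s ≤ N := fun s hs => by
    by_contra hlt
    have : s.toNat ≤ N := hN fun hm => hs ⟨_, hm, by omega⟩
    omega
  have cov : ∀ s, ¬ Mem Γ s → ∃ f, PF (Mem Γ) G f ∧ Mem Γ (f - s) := fun s hs => by
    obtain ⟨f, ⟨h1, h2⟩, hmax⟩ := Int.exists_greatest_of_bdd
      (P := fun f => ¬ Mem Γ f ∧ Mem Γ (f - s)) ⟨N, fun z hz => bd z hz.1⟩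
      ⟨s, hs, cst h.zero (by ring)⟩
    refine ⟨f, ⟨h1, fun v hv => ?_⟩, h2⟩
    by_contra hn
    have := hmax _ ⟨hn, cst (h.add h2 (h.mem hv)) (by ring)⟩
    have := h.pos hv
    omega
  obtain ⟨F, hF, hF'⟩ := Int.exists_greatest_of_bdd (P := fun f => ¬ Mem Γ f) ⟨N, bd⟩
    ⟨-1, h.neg (by omega)⟩
  have nas : ∃ v, G v ∧ ∃ q, PF (Mem Γ) G q ∧ ¬ Mem Γ (v + F - q) := by
    by_contra hn
    push Not at hn
    have key : ∀ s, ¬ Mem Γ s → ¬ Mem Γ (F - s) → PF (Mem Γ) G (F - s) := fun s a b => by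
      obtain ⟨q, hq, hm⟩ := cov s a
      exact ⟨b, fun v hv => cst (h.add (hn v hv q hq) hm) (by ring)⟩
    refine has ⟨F, ⟨hF, hF'⟩, fun s hs => ?_⟩
    by_cases hm : Mem Γ (F - s)
    · exact Or.inl hm
    · refine Or.inr ⟨(hpf _).2 ?_, (hpf _).2 (key s hs hm)⟩
      exact cst (M := PF (Mem Γ) G) (key (F - s) hm (fun b => hs (cst b (by ring)))) (by ring)
  have ng : ∀ v, G v → ∃ p, PF (Mem Γ) G p ∧ ∀ q, PF (Mem Γ) G q → Mem Γ (v + p - q) := by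
    rintro _ ⟨i, rfl⟩
    obtain ⟨p, hp, hq⟩ := hng i
    exact ⟨p, (hpf p).1 hp, fun q hq' => hq q ((hpf q).2 hq')⟩
  simp only [hpf]
  rcases top h l cov ng hF hF' nas with ⟨a, b, c⟩ | ⟨a, b, c⟩
  · exact Or.inl ⟨a, lb_bridge k hM hG b, ub_bridge k h hM hG hinj c⟩
  · exact Or.inr ⟨a, le_antisymm (ub_bridge k h hM hG hinj c) (lb_bridge k hM hG b)⟩

end Pool.Agent.P.MP_8e9e7d_al.B
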