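import Pool.Agent.P.MP_8e9e7d_al.BTwo

set_option autoImplicit false

namespace Pool.Agent.P.MP_8e9e7d_al.B

variable {M G : ℤ → Prop} {x y z w c u : ℤ}

theorem Lab.relabel {a b c d : ℤ} (l : Lab G a b c d) (hx : G x) (hy : G y) (hxy : x ≠ y) :
    ∃ z w, Lab G x y z w := by
  obtain ⟨b', c', d', l'⟩ : ∃ b' c' d', Lab G x b' c' d' := by
    rcases (l.gen x).1 hx with rfl | rfl | rfl | rfl
    · exact ⟨_, _, _, l⟩
    · exact ⟨_, _, _, l.s12⟩
    · exact ⟨_, _, _, l.s23.s12⟩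
    · exact ⟨_, _, _, l.s34.s23.s12⟩
  rcases (l'.gen y).1 hy with rfl | rfl | rfl | rfl
  · exact absurd rfl hxy
  · exact ⟨_, _, l'⟩
  · exact ⟨_, _, l'.s23⟩
  · exact ⟨_, _, l'.s34.s23⟩

theorem pf_z (h : Sg M G) (l : Lab G x y z w) (px : PF M G (c - x)) (py : PF M G (c - y)) {q : ℤ}
    (hq : PF M G q) (hz : M (c - q - z)) :
    ∃ m : ℤ, 0 ≤ m ∧ q + z = m * w ∧ ¬ M (m * w - z) ∧ M ((m + 1) * w - z) := by
  have nz : ¬ M (q + z - z) := fun b => hq.1 (cst b (by ring))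
  obtain ⟨m, hm, e⟩ := h.one l (hq.2 z l.gz) (fun b => px.1 (cst (h.add b hz) (by ring)))
    (fun b => py.1 (cst (h.add b hz) (by ring))) nz
  exact ⟨m, hm, e, e ▸ nz, cst (hq.2 w l.gw) (by linear_combination e)⟩

theorem pf_zz (h : Sg M G) (l : Lab G x y z w) (px : PF M G (c - x)) (py : PF M G (c - y))
    {q r : ℤ} (hq : PF M G q) (hr : PF M G r) (h1 : M (c - q - z)) (h2 : M (c - r - z)) :
    q = r := by
  obtain ⟨m, hm, e, a, b⟩ := pf_z h l px py hq h1
  obtain ⟨n, hn, e', a', b'⟩ := pf_z h l px py hr h2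
  have hw := h.mem l.gw
  rcases lt_trichotomy m n with hl | hl | hl
  · exact absurd (cst (h.add b (h.mul (n := n - m - 1) (by omega) hw)) (by ring)) a'
  · subst hl; omega
  · exact absurd (cst (h.add b' (h.mul (n := m - n - 1) (by omega) hw)) (by ring)) a

theorem pf_nx (h : Sg M G) (px : PF M G (c - x)) {q : ℤ} (hq : PF M G q) (hne : q ≠ c - x) :
    ¬ M (c - q - x) := fun b => hne (px.cmp h hq (cst b (by ring))).symm

theorem pf_zw (h : Sg M G) (l : Lab G x y z w) (px : PF M G (c - x)) (py : PF M G (c - y))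
    {q r : ℤ} (hq : PF M G q) (hr : PF M G r) (rx : r ≠ c - x) (ry : r ≠ c - y) (mr : M (c - r))
    (h1 : M (c - q - z)) : M (c - r - z) := by
  by_contra h2
  obtain ⟨m, hm, e, a, b⟩ := pf_z h l px py hq h1
  obtain ⟨n, hn, e'⟩ := h.one l mr (pf_nx h px hr rx) (pf_nx h py hr ry) h2
  have hw := h.mem l.gw
  have : n ≤ m := by
    by_contra hlt
    exact h2 (cst (h.add b (h.mul (n := n - m - 1) (by omega) hw)) (by linear_combination -e'))
  exact hr.1 (cst (h.add h1 (h.mul (n := m - n) (by omega) hw)) (by linear_combination e' - e))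

theorem pf_uniq (h : Sg M G) (l : Lab G x y z w) (px : PF M G (c - x)) (py : PF M G (c - y))
    {q r : ℤ} (hq : PF M G q) (hr : PF M G r) (qx : q ≠ c - x) (qy : q ≠ c - y) (mq : M (c - q))
    (rx : r ≠ c - x) (ry : r ≠ c - y) (mr : M (c - r)) : q = r := by
  by_cases h1 : M (c - q - z)
  · exact pf_zz h l px py hq hr h1 (pf_zw h l px py hq hr rx ry mr h1)
  by_cases h2 : M (c - q - w)
  · exact pf_zz h l.s34 px py hq hr h2 (pf_zw h l.s34 px py hq hr rx ry mr h2)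
  have := h.none l mq (pf_nx h px hq qx) (pf_nx h py hq qy) h1 h2
  exact absurd (cst (px.2 x l.gx) (by omega)) hq.1

/-- The nearly Gorenstein condition at `v` in type three. -/
def NG3 (M : ℤ → Prop) (x y u v : ℤ) : Prop :=
  (M (y + v - x) ∧ M (v + u - x)) ∨ (M (x + v - y) ∧ M (v + u - y)) ∨
    (M (v + x - u) ∧ M (v + y - u))

theorem NG3.sw {v : ℤ} (n : NG3 M x y u v) : NG3 M y x u v := by
  unfold NG3 at *; tauto

theorem caseI' (h : Sg M G) (t : T3 M G c x y z) (l : Lab G x y z w) (nw : NG3 M x y z w) :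
    LB M G 6 ∧ UB M G 6 := by
  rcases nw with a | a | a
  · exact caseI h t l (cst a.1 (by ring)) a.2
  · exact caseI h t.sw l.s12 (cst a.1 (by ring)) a.2
  · exact caseI h (x := z) (y := x) (z := y) ⟨t.pu, t.px, t.py, h.mem l.gy, l.yz, l.xy.symm,
      fun s hs => by have := t.cov s hs; tauto⟩ l.s23.s12 a.1 a.2

theorem beta3' (h : Sg M G) (t : T3 M G c x y u) (l : Lab G x y z w) (uz : u ≠ z) (uw : u ≠ w)
    (a : M (y + z - x) ∧ M (z + u - x)) (b : M (x + w - y) ∧ M (w + u - y)) :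
    LB M G 6 ∧ UB M G 6 := by
  by_cases n1 : M (y + w - x) ∧ M (w + u - x)
  · exact alpha3 h t l a.1 n1.1 a.2 n1.2
  by_cases n2 : M (x + z - y) ∧ M (z + u - y)
  · exact alpha3 h t.sw l.s12 n2.1 b.1 n2.2 b.2
  rcases t.uzw h l with d | d
  · exact beta3 h t l a.1 a.2 b.1 b.2 d uz n1
  · exact beta3 h t.sw l.s12.s34 b.1 b.2 a.1 a.2 d uw n2

theorem phi_u (h : Sg M G) (t : T3 M G c x y u) (l : Lab G x y z w) (uz : u ≠ z)
    (a : M (z + x - u)) : ¬ M (u - z) := fun b => by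
  rcases h.atom l.gx b (cst a (by ring)) with d | d
  · omega
  · exact t.nux h (cst (h.mem l.gz) (by omega))

theorem gamma3' (h : Sg M G) (t : T3 M G c x y u) (l : Lab G x y z w) (uz : u ≠ z) (uw : u ≠ w)
    (a : M (z + x - u) ∧ M (z + y - u)) (nw : NG3 M x y u w) : LB M G 6 ∧ UB M G 6 := by
  have n := phi_u h t l uz a.1
  rcases nw with b | b | b
  · exact gamma3 h t l a.1 a.2 b.1 b.2 n uw
  · exact gamma3 h t.sw l.s12 a.2 a.1 b.1 b.2 n uw
  · exact ((t.uzw h l).elim n (phi_u h t l.s34 uw b.1)).elim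

theorem type3 (h : Sg M G) (t : T3 M G c x y u) (l : Lab G x y z w) (nz : NG3 M x y u z)
    (nw : NG3 M x y u w) : LB M G 6 ∧ UB M G 6 := by
  by_cases uz : u = z
  · subst uz; exact caseI' h t l nw
  by_cases uw : u = w
  · subst uw; exact caseI' h t l.s34 nz
  rcases id nz with a | a | a
  · rcases nw with b | b | b
    · exact alpha3 h t l a.1 b.1 a.2 b.2
    · exact beta3' h t l uz uw a b
    · exact gamma3' h t l.s34 uw uz b nz
  · rcases nw with b | b | b
    · exact beta3' h t l.s34 uw uz b a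
    · exact alpha3 h t.sw l.s12 a.1 b.1 a.2 b.2
    · exact gamma3' h t l.s34 uw uz b nz
  · exact gamma3' h t l uz uw a nw

theorem type2 (h : Sg M G) (t : T2 M G c x y) (l : Lab G x y z w)
    (nz : M (y + z - x) ∨ M (x + z - y)) (nw : M (y + w - x) ∨ M (x + w - y)) :
    LB M G 4 ∧ UB M G 5 := by
  rcases nz with a | a <;> rcases nw with b | b
  · exact alpha2 h t l a b
  · exact beta2 h t l a b
  · exact beta2 h t l.s34 b a
  · exact alpha2 h t.sw l.s12 a b

theorem canon (h : Sg M G) (ng : ∀ v, G v → ∃ p, PF M G p ∧ ∀ q, PF M G q → M (v + p - q))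
    {F : ℤ} (hF : ¬ M F) (hF' : ∀ s, ¬ M s → s ≤ F)
    (nas : ∃ v, G v ∧ ∃ q, PF M G q ∧ ¬ M (v + F - q)) :
    ∃ c x y, G x ∧ G y ∧ x ≠ y ∧ PF M G (c - x) ∧ PF M G (c - y) ∧
      ∀ q, PF M G q → M (c - q) := by
  have pF : PF M G F := ⟨hF, fun v hv => by
    by_contra hn
    have := hF' _ hn
    have := h.pos hv
    omega⟩
  obtain ⟨y, ⟨hy, q, hq, hyq⟩, hmin⟩ := Int.exists_least_of_bdd
    (P := fun v => G v ∧ ∃ q, PF M G q ∧ ¬ M (v + F - q)) ⟨0, fun v hv => (h.pos hv.1).le⟩ nas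
  obtain ⟨p, hp, hp'⟩ := ng y hy
  have pne : p ≠ F := fun e => hyq (e ▸ hp' q hq)
  have plt := hF' p hp.1
  rcases h.dec (hp' F pF) with d | ⟨x, hx, d⟩
  · exact absurd (cst (hp.2 y hy) (by omega)) hF
  have d0 := h.nonneg d
  have good : ∀ q, PF M G q → M (x + F - q) := fun q hq => by
    by_contra hn
    have := hmin x ⟨hx, q, hq, hn⟩
    omega
  have px := h.pos hx
  rcases h.atom hy (good p hp) (cst d (by ring)) with e | e
  · omega
  refine ⟨F + x, x, y, hx, hy, by omega, cst (M := PF M G) pF (by ring),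
    cst (M := PF M G) hp (by omega), fun q hq => cst (good q hq) (by ring)⟩

theorem top (h : Sg M G) {a b c d : ℤ} (l : Lab G a b c d)
    (cov : ∀ s, ¬ M s → ∃ f, PF M G f ∧ M (f - s))
    (ng : ∀ v, G v → ∃ p, PF M G p ∧ ∀ q, PF M G q → M (v + p - q))
    {F : ℤ} (hF : ¬ M F) (hF' : ∀ s, ¬ M s → s ≤ F)
    (nas : ∃ v, G v ∧ ∃ q, PF M G q ∧ ¬ M (v + F - q)) :
    ({f | PF M G f}.ncard = 2 ∧ LB M G 4 ∧ UB M G 5) ∨
      ({f | PF M G f}.ncard = 3 ∧ LB M G 6 ∧ UB M G 6) := by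
  obtain ⟨c, x, y, hx, hy, hxy, px, py, hc⟩ := canon h ng hF hF' nas
  obtain ⟨z, w, l⟩ := l.relabel hx hy hxy
  by_cases h3 : ∃ q, PF M G q ∧ q ≠ c - x ∧ q ≠ c - y
  · obtain ⟨q, hq, qx, qy⟩ := h3
    have all : ∀ r, PF M G r → r = c - x ∨ r = c - y ∨ r = q := fun r hr => by
      by_contra hn
      push Not at hn
      exact hn.2.2 (pf_uniq h l px py hr hq hn.1 hn.2.1 (hc r hr) qx qy (hc q hq))
    have t : T3 M G c x y (c - q) := ⟨px, py, cst (M := PF M G) hq (by ring), hc q hq, by omega,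
      by omega, fun s hs => by
        obtain ⟨f, hf, hm⟩ := cov s hs
        rcases all f hf with rfl | rfl | rfl
        · exact Or.inl hm
        · exact Or.inr (Or.inl hm)
        · exact Or.inr (Or.inr (cst hm (by ring)))⟩
    have n3 : ∀ v, G v → NG3 M x y (c - q) v := fun v hv => by
      obtain ⟨p, hp, hp'⟩ := ng v hv
      rcases all p hp with rfl | rfl | rfl
      · exact Or.inl ⟨cst (hp' _ py) (by ring), cst (hp' _ hq) (by ring)⟩
      · exact Or.inr (Or.inl ⟨cst (hp' _ px) (by ring), cst (hp' _ hq) (by ring)⟩)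
      · exact Or.inr (Or.inr ⟨cst (hp' _ px) (by ring), cst (hp' _ py) (by ring)⟩)
    refine Or.inr ⟨Set.ncard_eq_three.2 ⟨c - x, c - y, q, by omega, qx.symm, qy.symm, ?_⟩,
      type3 h t l (n3 z l.gz) (n3 w l.gw)⟩
    ext r
    simp only [Set.mem_ofPred_eq, Set.mem_insert_iff, Set.mem_singleton_iff]
    refine ⟨all r, ?_⟩
    rintro (rfl | rfl | rfl) <;> assumption
  · have all : ∀ r, PF M G r → r = c - x ∨ r = c - y := fun r hr => by
      by_contra hn
      push Not at hn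
      exact h3 ⟨r, hr, hn.1, hn.2⟩
    have t : T2 M G c x y := ⟨px, py, fun s hs => by
      obtain ⟨f, hf, hm⟩ := cov s hs
      rcases all f hf with rfl | rfl
      · exact Or.inl hm
      · exact Or.inr hm⟩
    have n2 : ∀ v, G v → M (y + v - x) ∨ M (x + v - y) := fun v hv => by
      obtain ⟨p, hp, hp'⟩ := ng v hv
      rcases all p hp with rfl | rfl
      · exact Or.inl (cst (hp' _ py) (by ring))
      · exact Or.inr (cst (hp' _ px) (by ring))
    refine Or.inl ⟨Set.ncard_eq_two.2 ⟨c - x, c - y, by omega, ?_⟩,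
      type2 h t l (n2 z l.gz) (n2 w l.gw)⟩
    ext r
    simp only [Set.mem_ofPred_eq, Set.mem_insert_iff, Set.mem_singleton_iff]
    refine ⟨all r, ?_⟩
    rintro (rfl | rfl) <;> assumption

end Pool.Agent.P.MP_8e9e7d_al.B
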