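import Pool.Agent.P.MP_8e9e7d_al.BBeta

set_option autoImplicit false

namespace Pool.Agent.P.MP_8e9e7d_al.B

variable {M G : ℤ → Prop} {x y z w c : ℤ}

/-- Type two: the canonical ideal is generated by `x, y`. -/
structure T2 (M G : ℤ → Prop) (c x y : ℤ) : Prop where
  px : PF M G (c - x)
  py : PF M G (c - y)
  cov : ∀ s, ¬ M s → M (c - x - s) ∨ M (c - y - s)

theorem T2.sw (t : T2 M G c x y) : T2 M G c y x := ⟨t.py, t.px, fun s hs => (t.cov s hs).symm⟩

theorem T2.om (t : T2 M G c x y) {s : ℤ} (hs : ¬ M (c - s)) : M (s - x) ∨ M (s - y) := by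
  rcases t.cov _ hs with a | a
  · exact Or.inl (cst a (by ring))
  · exact Or.inr (cst a (by ring))

theorem T2.ap (t : T2 M G c x y) {s : ℤ} (hs : ¬ M (s - x)) : M (c - s) ∨ M (c + x - y - s) := by
  rcases t.cov _ hs with a | a
  · exact Or.inl (cst a (by ring))
  · exact Or.inr (cst a (by ring))

theorem T2.ax (h : Sg M G) (t : T2 M G c x y) {s : ℤ} (hs : M (c - s)) : ¬ M (s - x) :=
  fun hm => t.px.1 (cst (h.add hs hm) (by ring))

theorem T2.ay (h : Sg M G) (t : T2 M G c x y) {s : ℤ} (hs : M (c - s)) : ¬ M (s - y) :=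
  fun hm => t.py.1 (cst (h.add hs hm) (by ring))

theorem T2.mc (t : T2 M G c x y) (l : Lab G x y z w) : M c := cst (t.px.2 x l.gx) (by ring)

theorem five (h : Sg M G) (t : T2 M G c x y) (l : Lab G x y z w)
    (hu : ∃ Y : Finset ℤ, Y.card ≤ 3 ∧ ∀ s, M (s - x) → M (s - y) → Conn M G s y x ∨ s ∈ Y)
    (hl : ∃ Y : Finset ℤ, 2 ≤ Y.card ∧ ∀ s ∈ Y, M (s - x) ∧ M (s - y) ∧ ¬ Conn M G s y x) :
    LB M G 4 ∧ UB M G 5 := by
  obtain ⟨Y, hY, hY'⟩ := hu
  obtain ⟨Z, hZ, hZ'⟩ := hl
  have hσ : D0 M x y c := ⟨t.mc l, t.px.1, t.py.1⟩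
  have hc : ∀ s, D0 M x y s → M (c - s) := fun s hs => by
    by_contra hn
    exact (t.om hn).elim hs.2.1 hs.2.2
  obtain ⟨L, hL, hL'⟩ := two_lb1 h l (D0_dn h x y) hσ hc
  refine ⟨(gen_lb h l L Z hL' hZ').mono (by omega), (gen_ub h l {c} Y (by simp)
    (by simpa using hσ) (by simpa using hc) hY').mono ?_⟩
  simp only [Finset.card_singleton]
  omega

theorem alpha2 (h : Sg M G) (t : T2 M G c x y) (l : Lab G x y z w) (h1 : M (y + z - x))
    (h2 : M (y + w - x)) : LB M G 4 ∧ UB M G 5 :=
  five h t l (iso_ub h l h1 h2) (iso_lb2 h l h1 h2)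

theorem beta2_ub (h : Sg M G) (t : T2 M G c x y) (l : Lab G x y z w) (h1 : M (y + z - x)) :
    ∃ Y : Finset ℤ, Y.card ≤ 3 ∧ ∀ s, M (s - x) → M (s - y) → Conn M G s y x ∨ s ∈ Y := by
  classical
  have hy := h.mem l.gy
  have hw := h.mem l.gw
  have d : Dn M (fun a => M a ∧ ¬ M (a + y - x)) x z :=
    ⟨fun a => a.1, fun a b => a.2 (cst (h.add b hy) (by ring)),
      fun a b => a.2 (cst (h.add b h1) (by ring)),
      fun a b e => ⟨b, fun g => a.2 (cst (h.add g e) (by ring))⟩⟩
  have sx : ¬ M (c + x - y - x) := fun b => t.py.1 (cst b (by ring))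
  have sy : M (c + x - y - y) :=
    (t.om (s := c + x - y) fun b => h.sub_ne l.gy l.gx l.xy.symm (cst b (by ring))).resolve_left sx
  obtain ⟨L, hL, hT⟩ := two_ub h l.s23 d {c + x - y - y} (by simp)
    (by simpa using ⟨sy, fun b => t.py.1 (cst b (by ring))⟩) (by
      intro a ha
      refine ⟨_, Finset.mem_singleton_self _, ?_⟩
      rcases t.ap ha.2 with b | b
      · exact absurd (cst ha.1 (by ring)) (t.ay h b)
      · exact cst b (by ring))
  refine ⟨insert (y + z) (L.image fun p => p.1 + y), ?_, fun s hx hy' => ?_⟩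
  · have h2 := Finset.card_insert_le (y + z) (L.image fun p => p.1 + y)
    have h3 := Finset.card_image_le (s := L) (f := fun p => p.1 + y)
    simp only [Finset.card_singleton] at hL
    omega
  by_cases hc : Conn M G s y x
  · exact Or.inl hc
  right
  have a1 : ¬ M (s - y - x) := fun b => hc (Conn.edge l.gy l.gx b)
  have a2 : M (s - y - w) → ¬ M (s - w - x) := fun b d =>
    hc ((Conn.edge l.gy l.gw b).tr (Conn.edge l.gw l.gx d))
  by_cases a3 : M (s - y - z)
  · rw [(via h l h1 a3).resolve_left hc]; exact Finset.mem_insert_self _ _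
  have inY : ∀ v, (s - y, v) ∈ L → s ∈ insert (y + z) (L.image fun p => p.1 + y) := fun v hv =>
    Finset.mem_insert_of_mem (Finset.mem_image.2 ⟨_, hv, by ring⟩)
  have nD : ¬ (M (s - y) ∧ ¬ M (s - y + y - x)) := fun b => b.2 (cst hx (by ring))
  have Dy : M (s - y - y) → (M (s - y - y) ∧ ¬ M (s - y - y + y - x)) := fun b =>
    ⟨b, fun g => a1 (cst g (by ring))⟩
  have Dw : M (s - y - w) → (M (s - y - w) ∧ ¬ M (s - y - w + y - x)) := fun b =>
    ⟨b, fun g => a2 b (cst g (by ring))⟩
  by_cases a4 : M (s - y - y - w)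
  · exact inY _ ((hT _).2.2.1 ⟨nD, Dy (cst (h.add a4 hw) (by ring)),
      Dw (cst (h.add a4 hy) (by ring)), a4⟩)
  by_cases a5 : M (s - y - y)
  · exact inY _ ((hT _).1 ⟨nD, Dy a5, a4⟩)
  by_cases a6 : M (s - y - w)
  · exact inY _ ((hT _).2.1 ⟨nD, Dw a6, fun b => a4 (cst b (by ring))⟩)
  have := h.none l hy' a1 a5 a3 a6
  exact absurd (cst hx (by omega)) (h.sub_ne l.gy l.gx l.xy.symm)

theorem nobin (h : Sg M G) (t : T2 M G c x y) (l : Lab G x y z w) (hd : x + w = y + z) {n : ℤ}
    (hn : 0 ≤ n) (hc : M (c - n * w)) : ¬ M (n * w - z) := by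
  intro hz'
  have hz := h.mem l.gz
  have hw := h.mem l.gw
  have pz := h.pos l.gz
  obtain ⟨k, hk, hkn, hP, hmin⟩ := first (fun j => M (j * w - z)) (h.neg (by omega)) hn hz'
  have k1 : 1 ≤ k := by
    by_contra hlt
    have : k = 0 := by omega
    subst this
    exact h.sub_ne l.gw l.gz l.zw.symm (cst hP (by ring))
  have a1 : M (c - ((k + 1) * w - z)) :=
    cst (h.add (h.add hc (h.mul (n := n - k - 1) (by omega) hw)) hz) (by ring)
  obtain ⟨p, hp, e⟩ := h.one l.s34 hP (t.ax h a1) (t.ay h a1)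
    (fun b => hmin k hk le_rfl (cst b (by ring)))
  have p1 : 1 ≤ p := by
    by_contra hlt
    have : p = 0 := by omega
    subst this
    exact h.sub_ne l.gz l.gw l.zw (cst (h.mul hk hw) (by linear_combination e))
  rcases t.om (s := c - (k + 1) * w + z + w) (fun b => hmin k hk le_rfl (cst b (by ring)))
    with b | b
  · exact t.py.1 (cst (h.add b (h.mul (n := k - 1) (by omega) hw)) (by linear_combination -hd))
  · exact t.px.1 (cst (h.add b (h.mul (n := p - 1) (by omega) hz)) (by linear_combination hd - e))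

theorem det_L3 (h : Sg M G) (t : T2 M G c x y) (l : Lab G x y z w) (hd : x + w = y + z)
    {α β : ℤ} (hα : 1 ≤ α) (hβ : 1 ≤ β) (e : c = α * z + β * w) (hb : ¬ M (c - (β + 1) * w))
    (bz : ¬ M ((β + 1) * w - z)) :
    M (x + α * z - x) ∧ M (x + α * z - y) ∧ ¬ Conn M G (x + α * z) x y ∧ x + α * z ≠ x + w := by
  have hx := h.mem l.gx
  have hy := h.mem l.gy
  have hz := h.mem l.gz
  have hw := h.mem l.gw
  have nb : ∀ n, 0 ≤ n → n ≤ α → ¬ M (n * z - w) := fun n hn hn' =>
    nobin h t.sw l.s12.s34 hd.symm hn (cst (h.add (h.mul (n := α - n) (by omega) hz)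
      (h.mul (n := β) (by omega) hw)) (by linear_combination -e))
  have by' : ¬ M ((β + 1) * w - y) := fun b => t.px.1 (cst (h.add b
    (h.mul (n := α - 1) (by omega) hz)) (by linear_combination hd - e))
  have bx : M ((β + 1) * w - x) := (t.om hb).resolve_right by'
  have cα : M (c - α * z) := cst (h.mul (n := β) (by omega) hw) (by linear_combination -e)
  have cβ : M (c - β * w) := cst (h.mul (n := α) (by omega) hz) (by linear_combination -e)
  have L1 : M ((α + 1) * z - w - y) := by
    rcases t.ap (s := y + β * w) (fun b => bz (cst b (by linear_combination -hd))) with b | b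
    · exact absurd (cst (h.mul (n := β) (by omega) hw) (by ring)) (t.ay h b)
    · exact cst b (by linear_combination e + hd)
  refine ⟨cst (h.mul (n := α) (by omega) hz) (by ring),
    cst (h.add L1 hy) (by linear_combination -hd), fun hc => ?_,
    fun e' => nb α (by omega) le_rfl (cst h.zero (by linear_combination -e'))⟩
  have := hc.closed (fun v => v = x ∨ v = z) (Or.inl rfl) (by
    rintro a v (rfl | rfl) hv hm <;> rcases (l.gen v).1 hv with rfl | rfl | rfl | rfl
    · exact Or.inl rfl
    · exact absurd (cst hm (by ring)) (t.ay h cα)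
    · exact Or.inr rfl
    · exact absurd (cst hm (by ring)) (nb α (by omega) le_rfl)
    · exact Or.inl rfl
    · exact absurd (cst hm (by linear_combination hd)) (nb α (by omega) le_rfl)
    · exact Or.inr rfl
    · exfalso
      obtain ⟨i, j, hi, hj, e1⟩ := h.two l hm
        (fun b => nb (α - 1) (by omega) (by omega) (cst b (by ring)))
        (fun b => nb α (by omega) le_rfl (cst (h.add b hw) (by linear_combination hd)))
      have i1 : i + 2 ≤ α := by
        by_contra hlt
        exact h.sub_ne l.gx hv l.xw (cst (h.add (h.mul (n := i - α + 1) (by omega) hz)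
          (h.mul hj hw)) (by linear_combination -e1))
      have j1 : β + 1 ≤ j := by
        by_contra hlt
        exact bz (cst (h.add (h.add hx (h.mul (n := α - 2 - i) (by omega) hz))
          (h.mul (n := β - j) (by omega) hw)) (by linear_combination e1))
      obtain ⟨k, hk, e2⟩ := h.one l.s12.s23.s34 bx (fun b => by' (cst (h.add b hx) (by ring)))
        (fun b => bz (cst (h.add b hx) (by ring))) (fun b => t.ax h cβ (cst b (by ring)))
      exact nb (α - 1 - i) (by omega) (by omega) (cst (h.add (h.mul hk hx)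
        (h.mul (n := j - β - 1) (by omega) hw)) (by linear_combination -e1 - e2)))
  have := l.xy
  have := l.yz
  omega

theorem beta2_lb (h : Sg M G) (t : T2 M G c x y) (l : Lab G x y z w) (h1 : M (y + z - x))
    (h2 : M (x + w - y)) :
    ∃ Y : Finset ℤ, 2 ≤ Y.card ∧ ∀ s ∈ Y, M (s - x) ∧ M (s - y) ∧ ¬ Conn M G s y x := by
  have fin : ∀ s, s ≠ y + z → M (s - x) → M (s - y) → ¬ Conn M G s y x →
      ∃ Y : Finset ℤ, 2 ≤ Y.card ∧ ∀ s ∈ Y, M (s - x) ∧ M (s - y) ∧ ¬ Conn M G s y x := by
    intro s a1 a2 a3 a4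
    refine ⟨{s, y + z}, by rw [Finset.card_pair a1], ?_⟩
    simp only [Finset.mem_insert, Finset.mem_singleton]
    rintro s (rfl | rfl)
    · exact ⟨a2, a3, a4⟩
    · exact pair_ok h l h1
  by_cases hd : x + w = y + z
  swap
  · obtain ⟨a, b, d⟩ := pair_ok h l.s12.s34 h2
    exact fin _ hd b a fun g => d g.symm
  have hx := h.mem l.gx
  have hy := h.mem l.gy
  have hz := h.mem l.gz
  have hw := h.mem l.gw
  have pz := h.pos l.gz
  have pw := h.pos l.gw
  have c0 := h.nonneg (t.mc l)
  have top : ∀ v, G v → v ≠ x → v ≠ y → ∃ n, 1 ≤ n ∧ M (c - n * v) ∧ ¬ M (c - (n + 1) * v) := by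
    intro v hv vx vy
    have pv := h.pos hv
    obtain ⟨k, hk, -, hP, hmin⟩ := first (fun j => ¬ M (c - j * v))
      (not_not.2 (cst (t.mc l) (by ring))) (n := c + 1) (by omega) (h.neg (by nlinarith))
    refine ⟨k, ?_, not_not.1 (hmin k hk le_rfl), hP⟩
    by_contra hlt
    have : k = 0 := by omega
    subst this
    rcases t.om hP with b | b
    · exact h.sub_ne hv l.gx vx (cst b (by ring))
    · exact h.sub_ne hv l.gy vy (cst b (by ring))
  obtain ⟨α, hα, a1, a2⟩ := top z l.gz l.xz.symm l.yz.symm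
  obtain ⟨β, hβ, b1, b2⟩ := top w l.gw l.xw.symm l.yw.symm
  have a3 : M (c - (c - α * z)) := cst (h.mul (n := α) (by omega) hz) (by ring)
  have b3 : M (c - (c - β * w)) := cst (h.mul (n := β) (by omega) hw) (by ring)
  obtain ⟨j, hj, e1⟩ := h.one l a1 (t.ax h a3) (t.ay h a3) (fun b => a2 (cst b (by ring)))
  obtain ⟨i, hi, e2⟩ := h.one l.s34 b1 (t.ax h b3) (t.ay h b3) (fun b => b2 (cst b (by ring)))
  have hiα : i ≤ α := by
    by_contra hlt
    exact a2 (cst (h.add (h.mul (n := β) (by omega) hw) (h.mul (n := i - α - 1) (by omega) hz))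
      (by linear_combination -e2))
  have hjβ : j ≤ β := by
    by_contra hlt
    exact b2 (cst (h.add (h.mul (n := α) (by omega) hz) (h.mul (n := j - β - 1) (by omega) hw))
      (by linear_combination -e1))
  have e : c = α * z + β * w := by
    rcases hiα.eq_or_lt with rfl | hiα
    · linear_combination e2
    · exact absurd (cst (h.mul (n := α - i - 1) (by omega) hz) (by linear_combination e2 - e1))
        (nobin h t l hd (n := β - j) (by omega) (cst (h.add b1 (h.mul hj hw)) (by ring)))
  by_cases bz : M ((β + 1) * w - z)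
  · have aw : ¬ M ((α + 1) * z - w) := by
      intro b
      have sx : ¬ M ((α + 1) * z + (β - 1) * w - x) := fun g =>
        t.py.1 (cst g (by linear_combination -e - hd))
      have by' : ¬ M ((β + 1) * w - y) := fun g => t.px.1 (cst (h.add g
        (h.mul (n := α - 1) (by omega) hz)) (by linear_combination hd - e))
      have bx : M ((β + 1) * w - x) := (t.om b2).resolve_right by'
      have hw' := h.mul (n := β - 1) (by omega) hw
      by_cases g : M (c - ((α + 1) * z - w))
      · obtain ⟨i', j', hi', hj', e3⟩ := h.two l b (t.ax h g) (t.ay h g)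
        have i1 : i' ≤ α := by
          by_contra hlt
          have : 0 ≤ (i' - α - 1) * z := mul_nonneg (by omega) pz.le
          have : 0 ≤ j' * w := mul_nonneg hj' pw.le
          nlinarith
        rcases lt_or_ge j' β with g' | g'
        · exact nobin h t l hd (n := j' + 1) (by omega) (cst (h.add (h.mul (n := α) (by omega) hz)
            (h.mul (n := β - j' - 1) (by omega) hw)) (by linear_combination -e))
            (cst (h.mul (n := α - i') (by omega) hz) (by linear_combination e3))
        · exact sx (cst (h.add (h.add (h.add (h.mul hi' hz) bx) (h.mul (n := j' - β) (by omega) hw))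
            hw') (by linear_combination -e3))
      · rcases t.om g with g' | g'
        · exact sx (cst (h.add (h.add g' hw) hw') (by ring))
        · exact sx (cst (h.add g' bz) (by linear_combination hd))
    obtain ⟨g1, g2, g3, g4⟩ := det_L3 h t.sw l.s12.s34 hd.symm hβ hα (by linear_combination e)
      a2 aw
    exact fin _ g4 g2 g1 g3
  · obtain ⟨g1, g2, g3, g4⟩ := det_L3 h t l hd hα hβ e b2 bz
    exact fin _ (hd ▸ g4) g1 g2 fun g => g3 g.symm

theorem beta2 (h : Sg M G) (t : T2 M G c x y) (l : Lab G x y z w) (h1 : M (y + z - x))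
    (h2 : M (x + w - y)) : LB M G 4 ∧ UB M G 5 :=
  five h t l (beta2_ub h t l h1) (beta2_lb h t l h1 h2)

end Pool.Agent.P.MP_8e9e7d_al.B
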