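import Pool.Agent.P.MP_8e9e7d_al.Defs

set_option autoImplicit false

namespace Pool.Agent.P.MP_8e9e7d_al

open MvPolynomial

def g : Fin 4 → ℕ := ![6, 7, 8, 9]

def Γ : AddSubmonoid ℕ := AddSubmonoid.closure (Set.range g)

def T : AddSubmonoid ℕ where
  carrier := {n | n = 0 ∨ (6 ≤ n ∧ n ≤ 9) ∨ 12 ≤ n}
  zero_mem' := Or.inl rfl
  add_mem' := by
    intro a b ha hb
    simp only [Set.mem_ofPred_eq] at ha hb ⊢
    omega

theorem g_mem (i : Fin 4) : g i ∈ Γ := AddSubmonoid.subset_closure ⟨i, rfl⟩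

theorem mem_Γ (n : ℕ) : n ∈ Γ ↔ n = 0 ∨ (6 ≤ n ∧ n ≤ 9) ∨ 12 ≤ n := by
  constructor
  · intro h
    have : Γ ≤ T := by
      rw [Γ, AddSubmonoid.closure_le]
      rintro _ ⟨i, rfl⟩
      fin_cases i <;> simp [g, T]
    exact this h
  · have h6 : 6 ∈ Γ := g_mem 0
    have h7 : 7 ∈ Γ := g_mem 1
    have h8 : 8 ∈ Γ := g_mem 2
    have h9 : 9 ∈ Γ := g_mem 3
    induction n using Nat.strong_induction_on with
    | _ n ih =>
      intro h
      by_cases h18 : 18 ≤ n
      · have := add_mem (ih (n - 6) (by omega) (by omega)) h6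
        rwa [Nat.sub_add_cancel (by omega)] at this
      · have h1 : n = 0 ∨ n = 6 ∨ n = 7 ∨ n = 8 ∨ n = 9 ∨ n = 6 + 6 ∨ n = 6 + 7 ∨ n = 6 + 8 ∨
            n = 6 + 9 ∨ n = 7 + 9 ∨ n = 8 + 9 := by omega
        rcases h1 with rfl | rfl | rfl | rfl | rfl | rfl | rfl | rfl | rfl | rfl | rfl
        · exact zero_mem _
        · exact h6
        · exact h7
        · exact h8
        · exact h9
        all_goals exact add_mem (by assumption) (by assumption)

theorem mem_int (x : ℤ) : Mem Γ x ↔ x = 0 ∨ (6 ≤ x ∧ x ≤ 9) ∨ 12 ≤ x := by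
  constructor
  · rintro ⟨s, hs, rfl⟩
    rw [mem_Γ] at hs
    omega
  · intro h
    refine ⟨x.toNat, ?_, by omega⟩
    rw [mem_Γ]
    omega

theorem isPF_iff (x : ℤ) : IsPF Γ x ↔ x = 10 ∨ x = 11 := by
  constructor
  · rintro ⟨h, h'⟩
    have h6 := h' 6 (g_mem 0) (by norm_num)
    have h7 := h' 7 (g_mem 1) (by norm_num)
    have h8 := h' 8 (g_mem 2) (by norm_num)
    have h9 := h' 9 (g_mem 3) (by norm_num)
    rw [mem_int] at h h6 h7 h8 h9
    push_cast at *
    omega
  · intro h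
    refine ⟨by rw [mem_int]; omega, fun s hs hs0 => ?_⟩
    rw [mem_Γ] at hs
    rw [mem_int]
    omega

theorem not_as : ¬ AlmostSymmetric Γ := by
  rintro ⟨F, hF, h⟩
  have h11 : (11 : ℤ) ≤ F := hF.2 (by simp only [Set.mem_ofPred_eq, mem_int]; omega)
  have hF1 := hF.1
  simp only [Set.mem_ofPred_eq, mem_int] at hF1
  have hF2 : F = 11 := by omega
  subst hF2
  have := h 1 (by rw [mem_int]; omega)
  rw [mem_int, isPF_iff] at this
  omega

theorem ng (i : Fin 4) : ∃ p, IsPF Γ p ∧ ∀ q, IsPF Γ q → Mem Γ (g i + p - q) := by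
  simp only [isPF_iff, mem_int]
  fin_cases i
  · exact ⟨11, by omega, fun q hq => by simp [g]; omega⟩
  · exact ⟨11, by omega, fun q hq => by simp [g]; omega⟩
  · exact ⟨11, by omega, fun q hq => by simp [g]; omega⟩
  · exact ⟨10, by omega, fun q hq => by simp [g]; omega⟩

theorem minimal (i : Fin 4) : g i ∉ AddSubmonoid.closure (g '' {j | j ≠ i}) := by
  intro h
  let T' : AddSubmonoid ℕ :=
    { carrier := {n | n = 0 ∨ (6 ≤ n ∧ n ≤ 9 ∧ n ≠ g i) ∨ 12 ≤ n}
      zero_mem' := Or.inl rfl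
      add_mem' := by
        intro a b ha hb
        simp only [Set.mem_ofPred_eq] at ha hb ⊢
        omega }
  have : AddSubmonoid.closure (g '' {j | j ≠ i}) ≤ T' := by
    rw [AddSubmonoid.closure_le]
    rintro _ ⟨j, hj, rfl⟩
    fin_cases i <;> fin_cases j <;> simp_all [g, T']
  have h2 : g i = 0 ∨ (6 ≤ g i ∧ g i ≤ 9 ∧ g i ≠ g i) ∨ 12 ≤ g i := this h
  fin_cases i <;> simp [g] at h2

section ideal

variable (k : Type*) [Field k]

noncomputable def φ : MvPolynomial (Fin 4) k →ₐ[k] Polynomial k :=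
  aeval (fun i => (Polynomial.X : Polynomial k) ^ g i)

noncomputable def rel : Fin 4 → MvPolynomial (Fin 4) k :=
  ![X 0 * X 2 - X 1 * X 1, X 0 * X 3 - X 1 * X 2, X 1 * X 3 - X 2 * X 2,
    X 0 * X 0 * X 0 - X 3 * X 3]

noncomputable def J : Ideal (MvPolynomial (Fin 4) k) := Ideal.span (Set.range (rel k))

theorem J_le : J k ≤ RingHom.ker (φ k) := by
  rw [J, Ideal.span_le]
  rintro _ ⟨i, rfl⟩
  fin_cases i <;> simp [rel, φ, g, RingHom.mem_ker] <;> ring

/-- normal forms -/
def nf {B : Type*} [CommRing B] (a b c d : B) (w : ℕ) : B :=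
  if w % 6 = 0 then a ^ (w / 6) else
  if w % 6 = 1 then a ^ (w / 6 - 1) * b else
  if w % 6 = 2 then a ^ (w / 6 - 1) * c else
  if w % 6 = 3 then a ^ (w / 6 - 1) * d else
  if w % 6 = 4 then a ^ (w / 6 - 2) * (b * d) else a ^ (w / 6 - 2) * (c * d)

theorem nf_step {B : Type*} [CommRing B] (a b c d : B) (h1 : a * c = b * b) (h2 : a * d = b * c)
    (h3 : b * d = c * c) (h4 : a * a * a = d * d) (w : ℕ)
    (hw : w = 0 ∨ (6 ≤ w ∧ w ≤ 9) ∨ 12 ≤ w) :
    nf a b c d (w + 6) = nf a b c d w * a ∧ nf a b c d (w + 7) = nf a b c d w * b ∧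
    nf a b c d (w + 8) = nf a b c d w * c ∧ nf a b c d (w + 9) = nf a b c d w * d := by
  have hc : (∃ q, w = 6 * q) ∨ (∃ q, w = 6 * q + 7) ∨ (∃ q, w = 6 * q + 8) ∨
      (∃ q, w = 6 * q + 9) ∨ (∃ q, w = 6 * q + 16) ∨ (∃ q, w = 6 * q + 17) := by
    have : w % 6 = 0 ∨ w % 6 = 1 ∨ w % 6 = 2 ∨ w % 6 = 3 ∨ w % 6 = 4 ∨ w % 6 = 5 := by omega
    rcases this with h | h | h | h | h | h
    · exact Or.inl ⟨w / 6, by omega⟩
    · exact Or.inr (Or.inl ⟨w / 6 - 1, by omega⟩)
    · exact Or.inr (Or.inr (Or.inl ⟨w / 6 - 1, by omega⟩))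
    · exact Or.inr (Or.inr (Or.inr (Or.inl ⟨w / 6 - 1, by omega⟩)))
    · exact Or.inr (Or.inr (Or.inr (Or.inr (Or.inl ⟨w / 6 - 2, by omega⟩))))
    · exact Or.inr (Or.inr (Or.inr (Or.inr (Or.inr ⟨w / 6 - 2, by omega⟩))))
  have e0 : ∀ q, nf a b c d (6 * q) = a ^ q := fun q => by
    have : 6 * q / 6 = q := by omega
    simp [nf, this]
  have e1 : ∀ q, nf a b c d (6 * q + 7) = a ^ q * b := fun q => by
    have h : (6 * q + 7) / 6 - 1 = q := by omega
    have h' : (6 * q + 7) % 6 = 1 := by omega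
    simp [nf, h, h']
  have e2 : ∀ q, nf a b c d (6 * q + 8) = a ^ q * c := fun q => by
    have h : (6 * q + 8) / 6 - 1 = q := by omega
    have h' : (6 * q + 8) % 6 = 2 := by omega
    simp [nf, h, h']
  have e3 : ∀ q, nf a b c d (6 * q + 9) = a ^ q * d := fun q => by
    have h : (6 * q + 9) / 6 - 1 = q := by omega
    have h' : (6 * q + 9) % 6 = 3 := by omega
    simp [nf, h, h']
  have e4 : ∀ q, nf a b c d (6 * q + 16) = a ^ q * (b * d) := fun q => by
    have h : (6 * q + 16) / 6 - 2 = q := by omega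
    have h' : (6 * q + 16) % 6 = 4 := by omega
    simp [nf, h, h']
  have e5 : ∀ q, nf a b c d (6 * q + 17) = a ^ q * (c * d) := fun q => by
    have h : (6 * q + 17) / 6 - 2 = q := by omega
    have h' : (6 * q + 17) % 6 = 5 := by omega
    simp [nf, h, h']
  rcases hc with ⟨q, rfl⟩ | ⟨q, rfl⟩ | ⟨q, rfl⟩ | ⟨q, rfl⟩ | ⟨q, rfl⟩ | ⟨q, rfl⟩
  · rw [e0, e1, e2, e3, show 6 * q + 6 = 6 * (q + 1) by ring, e0]
    exact ⟨by ring, rfl, rfl, rfl⟩
  · rw [e1, show 6 * q + 7 + 6 = 6 * (q + 1) + 7 by ring, e1,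
      show 6 * q + 7 + 7 = 6 * (q + 1) + 8 by ring, e2,
      show 6 * q + 7 + 8 = 6 * (q + 1) + 9 by ring, e3,
      show 6 * q + 7 + 9 = 6 * q + 16 by ring, e4]
    refine ⟨by ring, ?_, ?_, by ring⟩
    · linear_combination a ^ q * h1
    · linear_combination a ^ q * h2
  · rw [e2, show 6 * q + 8 + 6 = 6 * (q + 1) + 8 by ring, e2,
      show 6 * q + 8 + 7 = 6 * (q + 1) + 9 by ring, e3,
      show 6 * q + 8 + 8 = 6 * q + 16 by ring, e4,
      show 6 * q + 8 + 9 = 6 * q + 17 by ring, e5]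
    refine ⟨by ring, ?_, ?_, by ring⟩
    · linear_combination a ^ q * h2
    · linear_combination a ^ q * h3
  · rw [e3, show 6 * q + 9 + 6 = 6 * (q + 1) + 9 by ring, e3,
      show 6 * q + 9 + 7 = 6 * q + 16 by ring, e4,
      show 6 * q + 9 + 8 = 6 * q + 17 by ring, e5,
      show 6 * q + 9 + 9 = 6 * (q + 3) by ring, e0]
    refine ⟨by ring, by ring, by ring, ?_⟩
    linear_combination a ^ q * h4
  · rw [e4, show 6 * q + 16 + 6 = 6 * (q + 1) + 16 by ring, e4,
      show 6 * q + 16 + 7 = 6 * (q + 1) + 17 by ring, e5,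
      show 6 * q + 16 + 8 = 6 * (q + 4) by ring, e0,
      show 6 * q + 16 + 9 = 6 * (q + 3) + 7 by ring, e1]
    refine ⟨by ring, ?_, ?_, ?_⟩
    · linear_combination a ^ q * d * h1
    · linear_combination a ^ q * a * h4 + a ^ q * d * h2
    · linear_combination a ^ q * b * h4
  · rw [e5, show 6 * q + 17 + 6 = 6 * (q + 1) + 17 by ring, e5,
      show 6 * q + 17 + 7 = 6 * (q + 4) by ring, e0,
      show 6 * q + 17 + 8 = 6 * (q + 3) + 7 by ring, e1,
      show 6 * q + 17 + 9 = 6 * (q + 3) + 8 by ring, e2]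
    refine ⟨by ring, ?_, ?_, ?_⟩
    · linear_combination a ^ q * a * h4 + a ^ q * d * h2
    · linear_combination a ^ q * b * h4 + a ^ q * d * h3
    · linear_combination a ^ q * c * h4

theorem ker_le : RingHom.ker (φ k) ≤ J k := by
  classical
  let mk := Ideal.Quotient.mkₐ k (J k)
  have hrel : ∀ i, mk (rel k i) = 0 := fun i =>
    Ideal.Quotient.eq_zero_iff_mem.2 (Ideal.subset_span ⟨i, rfl⟩)
  have h1 : mk (X 0) * mk (X 2) = mk (X 1) * mk (X 1) := by
    have := hrel 0; simp only [rel, Matrix.cons_val_zero, map_sub, map_mul] at this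
    exact sub_eq_zero.1 this
  have h2 : mk (X 0) * mk (X 3) = mk (X 1) * mk (X 2) := by
    have := hrel 1; simp only [rel, Matrix.cons_val_one, Matrix.cons_val_zero, map_sub,
      map_mul] at this
    exact sub_eq_zero.1 this
  have h3 : mk (X 1) * mk (X 3) = mk (X 2) * mk (X 2) := by
    have := hrel 2; simp only [rel, Matrix.cons_val, map_sub, map_mul] at this
    exact sub_eq_zero.1 this
  have h4 : mk (X 0) * mk (X 0) * mk (X 0) = mk (X 3) * mk (X 3) := by
    have := hrel 3; simp only [rel, Matrix.cons_val, map_sub, map_mul] at this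
    exact sub_eq_zero.1 this
  let N : ℕ → MvPolynomial (Fin 4) k ⧸ J k := nf (mk (X 0)) (mk (X 1)) (mk (X 2)) (mk (X 3))
  let ψ : Polynomial k →ₗ[k] MvPolynomial (Fin 4) k ⧸ J k :=
    (Polynomial.basisMonomials k).constr k N
  have hψ : ∀ w, ψ (Polynomial.X ^ w) = N w := fun w => by
    have := (Polynomial.basisMonomials k).constr_basis k N w
    simpa [Polynomial.X_pow_eq_monomial] using this
  have step : ∀ w ∈ Γ, ∀ i, N (w + g i) = N w * mk (X i) := by
    intro w hw i
    have := nf_step _ _ _ _ h1 h2 h3 h4 w ((mem_Γ w).1 hw)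
    fin_cases i
    · exact this.1
    · exact this.2.1
    · exact this.2.2.1
    · exact this.2.2.2
  have key : ∀ m : Fin 4 →₀ ℕ, ∃ w ∈ Γ, φ k (monomial m 1) = Polynomial.X ^ w ∧
      mk (monomial m 1) = N w := by
    intro m
    induction m using Finsupp.induction with
    | zero => exact ⟨0, zero_mem _, by simp [φ], by simp [N, nf]⟩
    | single_add i n m hi hn ih =>
      clear hi hn
      induction n with
      | zero => simpa using ih
      | succ n ih' =>
        obtain ⟨w, hw, e1, e2⟩ := ih'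
        have e : (monomial (Finsupp.single i (n + 1) + m) 1 : MvPolynomial (Fin 4) k) =
            monomial (Finsupp.single i n + m) 1 * X i := by
          rw [X, monomial_mul, mul_one, Finsupp.single_add]
          congr 2
          abel
        refine ⟨w + g i, add_mem hw (g_mem i), ?_, ?_⟩
        · rw [e, map_mul, e1, pow_add]; simp [φ]
        · rw [e, map_mul, e2, step w hw]
  have hcomp : ∀ f, ψ (φ k f) = mk f := by
    intro f
    induction f using MvPolynomial.induction_on' with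
    | monomial m c =>
      obtain ⟨w, -, e1, e2⟩ := key m
      have e : (monomial m c : MvPolynomial (Fin 4) k) = c • monomial m 1 := by
        simp [smul_monomial]
      rw [e, map_smul, map_smul, map_smul, e1, e2, hψ]
    | add p q hp hq => simp [hp, hq]
  intro f hf
  rw [RingHom.mem_ker] at hf
  have := hcomp f
  rw [hf, map_zero] at this
  exact Ideal.Quotient.eq_zero_iff_mem.1 this.symm

theorem ker_eq : RingHom.ker (φ k) = J k := le_antisymm (ker_le k) (J_le k)

def μ : Fin 4 → Fin 4 → ℕ := ![![1, 0, 1, 0], ![1, 0, 0, 1], ![0, 1, 0, 1], ![3, 0, 0, 0]]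
def ν : Fin 4 → Fin 4 → ℕ := ![![0, 2, 0, 0], ![0, 1, 1, 0], ![0, 0, 2, 0], ![0, 0, 0, 2]]

noncomputable def fs (v : Fin 4 → ℕ) : Fin 4 →₀ ℕ := Finsupp.equivFunOnFinite.symm v

theorem fs_inj {v w : Fin 4 → ℕ} : fs v = fs w ↔ v = w :=
  Finsupp.equivFunOnFinite.symm.injective.eq_iff

theorem mono_fs (v : Fin 4 → ℕ) : (monomial (fs v) 1 : MvPolynomial (Fin 4) k) =
    X 0 ^ v 0 * X 1 ^ v 1 * X 2 ^ v 2 * X 3 ^ v 3 := by
  rw [monomial_eq, Finsupp.prod_fintype _ _ (by simp), Fin.prod_univ_four]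
  simp [fs]

theorem rel_eq (i : Fin 4) : rel k i = monomial (fs (μ i)) 1 - monomial (fs (ν i)) 1 := by
  rw [mono_fs, mono_fs]
  fin_cases i <;> simp [rel, μ, ν] <;> ring

def wt (m : Fin 4 →₀ ℕ) : ℕ := 6 * m 0 + 7 * m 1 + 8 * m 2 + 9 * m 3

theorem low_coeff (f : MvPolynomial (Fin 4) k) (hf : f ∈ J k) :
    ∀ m, wt m < 14 → coeff m f = 0 := by
  classical
  induction hf using Submodule.span_induction with
  | mem x hx =>
    obtain ⟨i, rfl⟩ := hx
    intro m hm
    have h1 : fs (μ i) ≠ m := by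
      rintro rfl
      fin_cases i <;> simp [wt, fs, μ] at hm
    have h2 : fs (ν i) ≠ m := by
      rintro rfl
      fin_cases i <;> simp [wt, fs, ν] at hm
    simp [rel_eq, coeff_monomial, h1, h2]
  | zero => simp
  | add x y _ _ hx hy => intro m hm; simp [hx m hm, hy m hm]
  | smul a x _ hx =>
    intro m hm
    rw [smul_eq_mul, coeff_mul]
    apply Finset.sum_eq_zero
    intro p hp
    rw [Finset.HasAntidiagonal.mem_antidiagonal] at hp
    rw [hx p.2, mul_zero]
    rw [← hp] at hm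
    simp only [wt, Finsupp.add_apply] at hm ⊢
    omega

theorem coeff_mul_J (a f : MvPolynomial (Fin 4) k) (hf : f ∈ J k) (i : Fin 4) :
    coeff (fs (μ i)) (a * f) = coeff 0 a * coeff (fs (μ i)) f := by
  classical
  rw [coeff_mul, Finset.sum_eq_single (0, fs (μ i))]
  · intro p hp hne
    rw [Finset.HasAntidiagonal.mem_antidiagonal] at hp
    rw [low_coeff k f hf p.2, mul_zero]
    have h0 : p.1 ≠ 0 := by
      intro h
      apply hne
      rw [h, zero_add] at hp
      exact Prod.ext h hp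
    have h1 : 6 ≤ wt p.1 := by
      by_contra hlt
      apply h0
      ext j
      simp only [wt] at hlt
      fin_cases j <;> simp <;> omega
    have h2 : wt (fs (μ i)) ≤ 18 := by fin_cases i <;> simp [wt, fs, μ]
    rw [← hp] at h2
    simp only [wt, Finsupp.add_apply] at h1 h2 ⊢
    omega
  · intro h
    exact absurd (by simp) h

theorem rho : (RingHom.ker (φ k)).spanFinrank = 4 := by
  classical
  rw [ker_eq]
  apply le_antisymm
  · refine (Submodule.spanFinrank_span_le_ncard_of_finite (Set.finite_range (rel k))).trans ?_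
    rw [← Set.image_univ]
    refine (Set.ncard_image_le Set.finite_univ).trans ?_
    simp [Set.ncard_univ]
  · have hfg : (J k).FG := Submodule.fg_span (Set.finite_range (rel k))
    obtain ⟨s, hs, hspan⟩ := Submodule.FG.exists_span_finset_card_eq_spanFinrank hfg
    let θ : MvPolynomial (Fin 4) k → Fin 4 → k := fun f i => coeff (fs (μ i)) f
    have h1 : ∀ f ∈ J k, θ f ∈ Submodule.span k (s.image θ : Set (Fin 4 → k)) := by
      intro f hf
      rw [← hspan] at hf
      induction hf using Submodule.span_induction with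
      | mem x hx => exact Submodule.subset_span (by simpa using ⟨x, hx, rfl⟩)
      | zero =>
        have : θ 0 = 0 := by ext i; simp [θ]
        rw [this]; exact zero_mem _
      | add x y _ _ hx hy =>
        have : θ (x + y) = θ x + θ y := by ext i; simp [θ]
        rw [this]; exact add_mem hx hy
      | smul a x hx' hx =>
        have : θ (a • x) = coeff 0 a • θ x := by
          ext i
          simp only [θ, smul_eq_mul, Pi.smul_apply]
          exact coeff_mul_J k a x (hspan ▸ hx') i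
        rw [this]; exact Submodule.smul_mem _ _ hx
    have h2 : ∀ i, θ (rel k i) = Pi.single i 1 := by
      intro i
      ext j
      have hν : ν i ≠ μ j := by revert i j; decide
      have hμ : μ i = μ j ↔ j = i := by revert i j; decide
      simp [θ, rel_eq, coeff_monomial, fs_inj, hν, hμ, Pi.single_apply]
    have h3 : Submodule.span k (s.image θ : Set (Fin 4 → k)) = ⊤ := by
      rw [eq_top_iff, ← (Pi.basisFun k (Fin 4)).span_eq, Submodule.span_le]
      rintro _ ⟨i, rfl⟩
      rw [Pi.basisFun_apply, ← h2]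
      exact h1 _ (Ideal.subset_span ⟨i, rfl⟩)
    have h4 := finrank_span_finset_le_card (R := k) (s.image θ)
    rw [Set.finrank, h3] at h4
    simp only [finrank_top, Module.finrank_fintype_fun_eq_card, Fintype.card_fin] at h4
    rw [← hs]
    exact h4.trans Finset.card_image_le

end ideal

theorem main : ∃ (Γ : AddSubmonoid ℕ) (g : Fin 4 → ℕ), g = ![6, 7, 8, 9] ∧
    ((Γ : Set ℕ)ᶜ).Finite ∧ StrictMono g ∧ AddSubmonoid.closure (Set.range g) = Γ ∧
    (∀ i, g i ∉ AddSubmonoid.closure (g '' {j | j ≠ i})) ∧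
    (∀ i, ∃ p, IsPF Γ p ∧ ∀ q, IsPF Γ q → Mem Γ (g i + p - q)) ∧
    ¬ AlmostSymmetric Γ ∧
    ∀ (k : Type) [Field k], (RingHom.ker (MvPolynomial.aeval
      (fun i => (Polynomial.X : Polynomial k) ^ g i) :
        MvPolynomial (Fin 4) k →ₐ[k] Polynomial k)).spanFinrank = 4 := by
  refine ⟨Γ, g, rfl, ?_, ?_, rfl, minimal, ng, not_as, fun k _ => rho k⟩
  · refine (Set.finite_lt_nat 12).subset fun n hn => ?_
    simp only [Set.mem_compl_iff, SetLike.mem_coe, mem_Γ] at hn
    simp only [Set.mem_ofPred_eq]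
    omega
  · decide

end Pool.Agent.P.MP_8e9e7d_al
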