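import Pool.Agent.P.MP_8e9e7d_al.SLoc

/-! Summing the local facts over all degrees. -/

set_option autoImplicit false

namespace Pool.Agent.P.MP_8e9e7d_al.S

open Finset

/-- `M` is the monoid generated by the positive integers `g i`, and contains all `s > N` -/
structure Gen (M : ℤ → Prop) (g : Fin 4 → ℤ) (N : ℤ) : Prop where
  zero : M 0
  add : ∀ {a : ℤ} (i : Fin 4), M a → M (a + g i)
  nonneg : ∀ {a : ℤ}, M a → 0 ≤ a
  pos : ∀ i, 0 < g i
  dec : ∀ {a : ℤ}, M a → a = 0 ∨ ∃ i, M (a - g i)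
  big : ∀ s, N < s → M s

variable {M : ℤ → Prop} {g : Fin 4 → ℤ} {N : ℤ}

theorem cst {a b : ℤ} (h : M a) (e : a = b) : M b := e ▸ h

theorem Gen.mul (h : Gen M g N) (i : Fin 4) {a : ℤ} (ha : M a) (n : ℕ) : M (a + n * g i) := by
  induction n with
  | zero => simpa using ha
  | succ n ih => exact cst (h.add i ih) (by push_cast; ring)

theorem Gen.pure (h : Gen M g N) (l : Fin 4) :
    ∀ (n : ℕ) (a : ℤ), a ≤ n → M a → (∀ j, j ≠ l → ¬ M (a - g j)) → ∃ m : ℕ, a = m * g l := by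
  intro n
  induction n with
  | zero => exact fun a ha hm _ => ⟨0, by have := h.nonneg hm; omega⟩
  | succ n ih =>
    intro a ha hm hn
    rcases h.dec hm with rfl | ⟨i, hi⟩
    · exact ⟨0, by simp⟩
    obtain rfl : i = l := by
      by_contra hne
      exact hn i hne hi
    obtain ⟨m, e⟩ := ih (a - g i) (by have := h.pos i; omega) hi
      fun j hj hm' => hn j hj (cst (h.add i hm') (by ring))
    exact ⟨m + 1, by push_cast; linarith⟩

/-- the last step at which a property of `a - n * b` holds -/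
theorem last (P : ℤ → Prop) {a b : ℤ} (hb : 0 < b) (h0 : P a) {c : ℤ} (hc : ∀ x, P x → c ≤ x) :
    ∃ n : ℕ, P (a - n * b) ∧ ¬ P (a - n * b - b) := by
  by_contra hn
  push Not at hn
  have key : ∀ n : ℕ, P (a - n * b) := fun n => by
    induction n with
    | zero => simpa using h0
    | succ n ih =>
      have := hn n ih
      rwa [show a - n * b - b = a - ((n + 1 : ℕ) : ℤ) * b by push_cast; ring] at this
  have h1 := hc _ (key (a - c + 1).toNat)
  have h2 := hc _ h0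
  rw [Int.toNat_of_nonneg (by omega)] at h1
  nlinarith

theorem four (g : Fin 4 → ℤ) : ∀ i k l : Fin 4, i ≠ k → i ≠ l → k ≠ l →
    ∃ m, m ≠ i ∧ ∑ a, g a = g i + g k + g l + g m := by
  have : ∀ i k l : Fin 4, i ≠ k → i ≠ l → k ≠ l → ∃ m, m ≠ i ∧ m ≠ k ∧ m ≠ l ∧
      (univ : Finset (Fin 4)) = {i, k, l, m} := by decide
  intro i k l a b c
  obtain ⟨m, h1, h2, h3, h4⟩ := this i k l a b c
  refine ⟨m, h1, ?_⟩
  rw [h4, sum_insert (by simp [a, b, h1.symm]), sum_insert (by simp [c, h2.symm]),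
    sum_pair h3.symm]
  ring

theorem two (g : Fin 4 → ℤ) : ∀ i m : Fin 4, m ≠ i →
    ∃ k l, k ≠ l ∧ k ≠ i ∧ l ≠ i ∧ ∑ a, g a = g i + g k + g l + g m := by
  have : ∀ i m : Fin 4, m ≠ i → ∃ k l, k ≠ l ∧ k ≠ i ∧ l ≠ i ∧ m ≠ k ∧ m ≠ l ∧
      (univ : Finset (Fin 4)) = {i, k, l, m} := by decide
  intro i m h1
  obtain ⟨k, l, c, a, b, h2, h3, h4⟩ := this i m h1
  refine ⟨k, l, c, a, b, ?_⟩
  rw [h4, sum_insert (by simp [a.symm, b.symm, h1.symm]), sum_insert (by simp [c, h2.symm]),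
    sum_pair h3.symm]
  ring

section

variable (M g)

open Classical in
/-- the indicator of `M` -/
noncomputable def ind (s : ℤ) : Bool := decide (M s)

/-- vertices of the complex of degree `s` -/
noncomputable def Vx (s : ℤ) (i : Fin 4) : Bool := ind M (s - g i)

/-- edges of the complex of degree `s` -/
noncomputable def Ed (s : ℤ) (i j : Fin 4) : Bool := decide (i ≠ j) && ind M (s - g i - g j)

/-- triangles of the complex of degree `s`, named by the missing vertex -/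
noncomputable def Tr (s : ℤ) (i : Fin 4) : Bool := ind M (s - ∑ a, g a + g i)

end

@[simp] theorem ind_iff {s : ℤ} : ind M s = true ↔ M s := by simp [ind]

@[simp] theorem Vx_iff {s : ℤ} {i : Fin 4} : Vx M g s i = true ↔ M (s - g i) := ind_iff

@[simp] theorem Ed_iff {s : ℤ} {i j : Fin 4} :
    Ed M g s i j = true ↔ i ≠ j ∧ M (s - g i - g j) := by simp [Ed]

@[simp] theorem Tr_iff {s : ℤ} {i : Fin 4} : Tr M g s i = true ↔ M (s - ∑ a, g a + g i) := ind_iff

theorem Ed_eta (s : ℤ) : Ed M g s = mkE (Ed M g s 0 1) (Ed M g s 0 2) (Ed M g s 0 3)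
    (Ed M g s 1 2) (Ed M g s 1 3) (Ed M g s 2 3) :=
  etaE (fun i => by simp [Ed]) fun i j => by
    rw [Bool.eq_iff_iff, Ed_iff, Ed_iff, ne_comm, sub_right_comm]

theorem Gen.edge (h : Gen M g N) {s : ℤ} {i j : Fin 4} (e : Ed M g s i j = true) :
    Vx M g s i = true ∧ Vx M g s j = true := by
  rw [Ed_iff] at e
  exact ⟨Vx_iff.2 (cst (h.add j e.2) (by ring)), Vx_iff.2 (cst (h.add i e.2) (by ring))⟩

theorem Gen.tri (h : Gen M g N) {s : ℤ} {i k l : Fin 4} (e : Tr M g s i = true) (a : k ≠ l)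
    (b : i ≠ k) (c : i ≠ l) : Ed M g s k l = true := by
  obtain ⟨m, -, hm⟩ := four g i k l b c a
  exact Ed_iff.2 ⟨a, cst (h.add m (Tr_iff.1 e)) (by rw [hm]; ring)⟩

theorem Gen.locG (h : Gen M g N) (s : ℤ) : LocG (Vx M g s) (Ed M g s) := by
  rw [Ed_eta, eta (Vx M g s)]
  exact locG_bool _ _ _ _ _ _ _ _ _ _ ⟨h.edge, h.edge, h.edge, h.edge, h.edge, h.edge⟩

theorem Gen.locC (h : Gen M g N) (s : ℤ) :
    LocC (ind M s) (ind M (s - ∑ a, g a)) (Vx M g s) (Tr M g s) (Ed M g s) := by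
  have a : ∀ i, Vx M g s i = true → ind M s = true := fun i e =>
    ind_iff.2 (cst (h.add i (Vx_iff.1 e)) (by ring))
  have b : ∀ i, ind M (s - ∑ a, g a) = true → Tr M g s i = true := fun i e =>
    Tr_iff.2 (h.add i (ind_iff.1 e))
  rw [Ed_eta, eta (Vx M g s), eta (Tr M g s)]
  refine locC_bool _ _ _ _ _ ⟨a 0, a 1, a 2, a 3⟩ _ _ _ _ _ _
    ⟨h.edge, h.edge, h.edge, h.edge, h.edge, h.edge⟩ _ _ _ _ _
    ⟨fun e => ?_, fun e => ?_, fun e => ?_, fun e => ?_, fun e => ⟨b 0 e, b 1 e, b 2 e, b 3 e⟩⟩ <;>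
  exact ⟨h.tri e (by decide) (by decide) (by decide), h.tri e (by decide) (by decide) (by decide),
    h.tri e (by decide) (by decide) (by decide)⟩

theorem Gen.le_sum (h : Gen M g N) (i : Fin 4) : g i ≤ ∑ a, g a :=
  single_le_sum (fun a _ => (h.pos a).le) (mem_univ i)

/-- each vertex is isolated in at most one disconnected graph -/
theorem Gen.iso_uniq (h : Gen M g N) (l : Fin 4) {s s' : ℤ} (a : iso (Vx M g s) (Ed M g s) l)
    (b : iso (Vx M g s') (Ed M g s') l) : s = s' := by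
  wlog hle : s ≤ s' generalizing s s'
  · exact (this b a (by omega)).symm
  obtain ⟨a1, a2, j, a3, a4⟩ := a
  obtain ⟨b1, b2, -⟩ := b
  simp only [Vx_iff, Ed_iff, not_and] at a1 a2 a4 b1 b2
  obtain ⟨m, e⟩ := h.pure l _ _ (Int.self_le_toNat _) a1 fun j hj => a2 j hj.symm
  obtain ⟨m', e'⟩ := h.pure l _ _ (Int.self_le_toNat _) b1 fun j hj => b2 j hj.symm
  have hp := h.pos l
  rcases lt_or_ge m m' with hm | hm
  · obtain ⟨n, rfl⟩ := Nat.exists_eq_add_of_lt hm
    exact absurd (cst (h.mul l a4 n) (by push_cast at e'; linarith)) (b2 j a3.symm)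
  · have : (m' : ℤ) * g l ≤ m * g l := by gcongr
    omega

/-- a marked pair comes from exactly one step of a critical degree -/
theorem Gen.mark_le (h : Gen M g N) (j : Fin 4) (B : ℤ) :
    #{s ∈ Icc 0 B | mark (Vx M g s) (Tr M g s) (Ed M g s) j} ≤
      #{s ∈ Icc 0 B | crit (Vx M g s) (Ed M g s) j} := by
  have nt : ∀ {s : ℤ}, (∀ l, l ≠ j → ¬ Tr M g s l = true) → ∀ k l, k ≠ l → k ≠ j → l ≠ j →
      ¬ M (s - g j - g k - g l) := by
    intro s ht k l a b c hm
    obtain ⟨k', hk'⟩ : ∃ m, m ≠ j ∧ ∑ a, g a = g j + g k + g l + g m := four g j k l b.symm c.symm a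
    exact ht k' hk'.1 (Tr_iff.2 (cst hm (by rw [hk'.2]; ring)))
  refine card_le_card_of_forall_subsingleton (fun s C => ∃ n : ℕ, C = s - g j - n * g j ∧
    ∀ k, k ≠ j → M (s - g j - g k) → M (C - g k)) (fun s hs => ?_) fun C _ => ?_
  · obtain ⟨hs, ⟨k, l, kl, e1, e2⟩, ht, -⟩ := mem_filter.1 hs
    rw [Ed_iff] at e1 e2
    obtain ⟨n, p1, p2⟩ := last (fun C => ∀ k, k ≠ j → M (s - g j - g k) → M (C - g k))
      (a := s - g j) (h.pos j) (fun _ _ e => e) (c := 0) fun x hx => by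
        have := h.nonneg (hx k e1.1.symm e1.2)
        have := h.pos k
        omega
    have ne : ∀ k l, k ≠ j → l ≠ j → ¬ Ed M g (s - g j - n * g j) k l = true := by
      intro k l a b e
      rw [Ed_iff] at e
      exact nt ht k l e.1 a b (cst (h.mul j e.2 n) (by ring))
    refine ⟨_, mem_filter.2 ⟨?_, ?_, ⟨k, l, kl, e1.1.symm, e2.1.symm,
      Vx_iff.2 (p1 k e1.1.symm e1.2), Vx_iff.2 (p1 l e2.1.symm e2.2)⟩, ne⟩, n, rfl, p1⟩
    · have := h.nonneg (p1 k e1.1.symm e1.2)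
      have := h.pos k
      have := h.pos j
      have : 0 ≤ (n : ℤ) * g j := by positivity
      rw [mem_Icc] at hs ⊢
      omega
    · push Not at p2
      obtain ⟨m, q1, q2, q3⟩ := p2
      refine ⟨m, q1, Vx_iff.2 (p1 m q1 q2), fun i e => ?_, ?_⟩
      · by_cases hi : i = j
        · subst hi
          exact q3 (cst (Ed_iff.1 e).2 (by ring))
        · exact ne m i q1 hi e
      · by_cases hk : k = m
        · exact ⟨l, hk ▸ kl.symm, Vx_iff.2 (p1 l e2.1.symm e2.2)⟩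
        · exact ⟨k, hk, Vx_iff.2 (p1 k e1.1.symm e1.2)⟩
  · have key : ∀ s s' : ℤ, ∀ n n' : ℕ, mark (Vx M g s) (Tr M g s) (Ed M g s) j →
        mark (Vx M g s') (Tr M g s') (Ed M g s') j → C = s - g j - n * g j →
        C = s' - g j - n' * g j → (∀ k, k ≠ j → M (s' - g j - g k) → M (C - g k)) → ¬ n < n' := by
      intro s s' n n' a b e e' hC hn
      obtain ⟨d, rfl⟩ := Nat.exists_eq_add_of_lt hn
      push_cast at e'
      rcases a.2.2 with ⟨k, a1, a2, a3⟩ | ⟨k, l, a1, a2, a3⟩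
      · refine a3 (Ed_iff.2 ⟨a1.symm, cst (h.mul j (hC k a1 ?_) n) (by linarith)⟩)
        exact cst (h.mul j (Vx_iff.1 a2) d) (by linarith)
      · rw [Ed_iff] at a3
        exact nt b.2.1 k l a3.1 a1 a2 (cst (h.mul j a3.2 d) (by linarith))
    rintro s ⟨hs, n, e, p⟩ s' ⟨hs', n', e', p'⟩
    have a := (mem_filter.1 hs).2
    have b := (mem_filter.1 hs').2
    obtain rfl : n = n' :=
      le_antisymm (not_lt.1 (key s' s n' n b a e' e p)) (not_lt.1 (key s s' n n' a b e e' p'))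
    linarith

open Classical in
/-- the pseudo-Frobenius numbers -/
noncomputable def pf (M : ℤ → Prop) (g : Fin 4 → ℤ) (N : ℤ) : Finset ℤ :=
  {f ∈ Icc (-∑ a, g a) N | ¬ M f ∧ ∀ i, M (f + g i)}

theorem Gen.mem_pf (h : Gen M g N) {f : ℤ} : f ∈ pf M g N ↔ ¬ M f ∧ ∀ i, M (f + g i) := by
  simp only [pf, mem_filter, mem_Icc, and_iff_right_iff_imp]
  rintro ⟨a, b⟩
  have := h.nonneg (b 0)
  have := h.le_sum 0
  exact ⟨by omega, not_lt.1 fun c => a (h.big f c)⟩

theorem isoD_iff {s : ℤ} {i : Fin 4} : isoD (Tr M g s) (Ed M g s) i ↔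
    ¬ M (s - ∑ a, g a + g i) ∧ (∀ m, m ≠ i → M (s - ∑ a, g a + g i + g m)) ∧
      ∃ j, j ≠ i ∧ ¬ M (s - ∑ a, g a + g j) := by
  simp only [isoD, Tr_iff, Ed_iff]
  refine and_congr_right fun _ => and_congr_left fun _ => ⟨fun a m hm => ?_, fun a k l b c d => ?_⟩
  · obtain ⟨k, l, b, c, d, e⟩ := two g i m hm
    exact cst (a k l b c d).2 (by rw [e]; ring)
  · obtain ⟨m, hm, e⟩ := four g i k l c.symm d.symm b
    exact ⟨b, cst (a m hm) (by rw [e]; ring)⟩

/-- each vertex is isolated in as many disconnected dual complexes as the type -/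
theorem Gen.isoD_card (h : Gen M g N) (i : Fin 4) :
    #{s ∈ Icc 0 (N + ∑ a, g a) | isoD (Tr M g s) (Ed M g s) i} = #(pf M g N) := by
  obtain ⟨i', hi'⟩ := exists_ne i
  have hp := h.pos i
  refine le_antisymm
    (card_le_card_of_forall_subsingleton (fun s f => ∃ n : ℕ, f = s - ∑ a, g a + g i + n * g i)
      (fun s hs => ?_) fun f _ => ?_)
    (card_le_card_of_forall_subsingleton (fun f s => ∃ n : ℕ, f = s - ∑ a, g a + g i + n * g i)
      (fun f hf => ?_) fun s _ => ?_)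
  · obtain ⟨a, b, -⟩ := isoD_iff.1 (mem_filter.1 hs).2
    obtain ⟨n, p1, p2⟩ := last (fun x => ¬ M (-x)) (a := -(s - ∑ a, g a + g i)) hp
      (by simpa using a) (c := -N) fun x hx => by
        by_contra hc
        exact hx (h.big _ (by omega))
    refine ⟨_, h.mem_pf.2 ⟨fun e => p1 (cst e (by ring)), fun m => ?_⟩, n, rfl⟩
    by_cases hm : m = i
    · subst hm
      exact cst (not_not.1 p2) (by ring)
    · exact cst (h.mul i (b m hm) n) (by ring)
  · have key : ∀ s s' : ℤ, ∀ n n' : ℕ, isoD (Tr M g s) (Ed M g s) i →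
        isoD (Tr M g s') (Ed M g s') i → f = s - ∑ a, g a + g i + n * g i →
        f = s' - ∑ a, g a + g i + n' * g i → ¬ n < n' := by
      intro s s' n n' a b e e' hn
      obtain ⟨d, rfl⟩ := Nat.exists_eq_add_of_lt hn
      push_cast at e'
      obtain ⟨j, a1, a2⟩ := (isoD_iff.1 a).2.2
      exact a2 (cst (h.mul i ((isoD_iff.1 b).2.1 j a1) d) (by linarith))
    rintro s ⟨hs, n, e⟩ s' ⟨hs', n', e'⟩
    have a := (mem_filter.1 hs).2
    have b := (mem_filter.1 hs').2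
    obtain rfl : n = n' :=
      le_antisymm (not_lt.1 (key s' s n' n b a e' e)) (not_lt.1 (key s s' n n' a b e e'))
    linarith
  · obtain ⟨a, b⟩ := h.mem_pf.1 hf
    obtain ⟨n, p1, p2⟩ := last (fun x => ∀ m, m ≠ i → M (x + g m)) (a := f) hp (fun m _ => b m)
      (c := -g i') fun x hx => by
        have := h.nonneg (hx i' hi')
        omega
    have q : ¬ M (f - n * g i) := fun e => a (cst (h.mul i e n) (by ring))
    push Not at p2
    obtain ⟨j, q1, q2⟩ := p2
    refine ⟨f - n * g i - g i + ∑ a, g a, mem_filter.2 ⟨mem_Icc.2 ⟨?_, ?_⟩, isoD_iff.2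
      ⟨fun e => q (cst e (by ring)), fun m hm => cst (p1 m hm) (by ring),
        j, q1, fun e => q2 (cst e (by ring))⟩⟩, n, by ring⟩
    · obtain ⟨k, l, -, -, -, e⟩ := two g i i' hi'
      have := h.nonneg (p1 i' hi')
      have := h.pos k
      have := h.pos l
      omega
    · have : ¬ N < f - n * g i := fun c => q (h.big _ c)
      omega
  · have key : ∀ f f' : ℤ, ∀ n n' : ℕ, f ∈ pf M g N → f' ∈ pf M g N →
        f = s - ∑ a, g a + g i + n * g i → f' = s - ∑ a, g a + g i + n' * g i → ¬ n < n' := by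
      intro f f' n n' a b e e' hn
      obtain ⟨d, rfl⟩ := Nat.exists_eq_add_of_lt hn
      push_cast at e'
      exact (h.mem_pf.1 b).1 (cst (h.mul i ((h.mem_pf.1 a).2 i) d) (by linarith))
    rintro f ⟨a, n, e⟩ f' ⟨b, n', e'⟩
    obtain rfl : n = n' :=
      le_antisymm (not_lt.1 (key f' f n' n b a e' e)) (not_lt.1 (key f f' n n' a b e e'))
    linarith

theorem shift {u : ℤ → ℤ} {a B : ℤ} (ha : 0 ≤ a) (hu : ∀ s, s < 0 ∨ B - a < s → u s = 0) :
    ∑ s ∈ Icc 0 B, (u s - u (s - a)) = 0 := by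
  have h1 : ∑ s ∈ Icc 0 B, u (s - a) = ∑ s ∈ Icc (-a) (B - a), u s :=
    sum_bij (fun s _ => s - a) (fun s hs => by rw [mem_Icc] at hs ⊢; omega)
      (fun s _ s' _ e => by omega)
      (fun s hs => ⟨s + a, by rw [mem_Icc] at hs ⊢; omega, by ring⟩) fun _ _ => rfl
  have h2 : ∑ s ∈ Icc 0 (B - a), u s = ∑ s ∈ Icc 0 B, u s :=
    sum_subset (Icc_subset_Icc_right (by omega)) fun s a b => hu s (by
      rw [mem_Icc] at a b; omega)
  have h3 : ∑ s ∈ Icc 0 (B - a), u s = ∑ s ∈ Icc (-a) (B - a), u s :=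
    sum_subset (Icc_subset_Icc_left (by omega)) fun s a b => hu s (by
      rw [mem_Icc] at a b; omega)
  rw [sum_sub_distrib, h1, ← h2, h3, sub_self]

theorem Gen.euler (h : Gen M g N) : ∑ s ∈ Icc 0 (N + ∑ a, g a),
    chi (ind M s) (ind M (s - ∑ a, g a)) (Vx M g s) (Tr M g s) (Ed M g s) = 0 := by
  let w : ℤ → ℤ := fun s => if ind M s then 1 else 0
  let u : ℤ → ℤ := fun s => w s - w (s - g 1) - w (s - g 2) - w (s - g 3) + w (s - g 1 - g 2) +
    w (s - g 1 - g 3) + w (s - g 2 - g 3) - w (s - g 1 - g 2 - g 3)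
  have p0 := h.pos 0
  have p1 := h.pos 1
  have p2 := h.pos 2
  have p3 := h.pos 3
  have w0 : ∀ s, s < 0 → w s = 0 := fun s hs =>
    if_neg fun e => by have := h.nonneg (ind_iff.1 e); omega
  have w1 : ∀ s, N < s → w s = 1 := fun s hs => if_pos (ind_iff.2 (h.big s hs))
  refine Eq.trans (sum_congr rfl fun s _ => ?_) (shift (u := u) p0.le fun s hs => ?_)
  · have e : ∀ i j : Fin 4, i ≠ j → Ed M g s i j = ind M (s - g i - g j) := fun i j e => by
      simp [Ed, e]
    simp only [chi, Vx, Tr, Fin.sum_univ_four, u, w]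
    rw [e 0 1 (by decide), e 0 2 (by decide), e 0 3 (by decide), e 1 2 (by decide),
      e 1 3 (by decide), e 2 3 (by decide),
      show s - (g 0 + g 1 + g 2 + g 3) + g 0 = s - g 1 - g 2 - g 3 by ring,
      show s - (g 0 + g 1 + g 2 + g 3) + g 1 = s - g 0 - g 2 - g 3 by ring,
      show s - (g 0 + g 1 + g 2 + g 3) + g 2 = s - g 0 - g 1 - g 3 by ring,
      show s - (g 0 + g 1 + g 2 + g 3) + g 3 = s - g 0 - g 1 - g 2 by ring,
      show s - (g 0 + g 1 + g 2 + g 3) = s - g 0 - g 1 - g 2 - g 3 by ring]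
    ring_nf
  · rw [Fin.sum_univ_four] at hs
    rcases hs with hs | hs
    · simp only [u]
      rw [w0, w0, w0, w0, w0, w0, w0, w0] <;> omega
    · simp only [u]
      rw [w1, w1, w1, w1, w1, w1, w1, w1] <;> omega

theorem swap (I : Finset ℤ) (p : ℤ → Fin 4 → Prop) [∀ s i, Decidable (p s i)] :
    ∑ s ∈ I, #{i | p s i} = ∑ i, #{s ∈ I | p s i} := by
  simp only [card_filter]
  exact sum_comm

/-- the number of components beyond the first, summed over all degrees -/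
noncomputable def rho (M : ℤ → Prop) (g : Fin 4 → ℤ) (N : ℤ) : ℕ :=
  ∑ s ∈ Icc 0 (N + ∑ a, g a), #{i | nb (Vx M g s) (Ed M g s) i}

theorem Gen.bounds (h : Gen M g N) :
    #(pf M g N) + 1 ≤ rho M g N ∧ rho M g N ≤ #(pf M g N) + 5 := by
  classical
  have hN : -1 ≤ N := not_lt.1 fun c => by have := h.nonneg (h.big (-1) c); omega
  have hG := (h.pos 0).trans_le (h.le_sum 0)
  have z : ∑ s ∈ Icc 0 (N + ∑ a, g a),
      (if ind M s = true ∧ ∀ i, ¬ Vx M g s i = true then 1 else 0 : ℤ) = 1 := by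
    refine (sum_eq_single_of_mem 0 (mem_Icc.2 ⟨le_rfl, by omega⟩)
      fun s _ hs => if_neg fun e => ?_).trans (if_pos ⟨ind_iff.2 h.zero, fun i e => ?_⟩)
    · rcases h.dec (ind_iff.1 e.1) with c | ⟨i, c⟩
      · exact hs c
      · exact e.2 i (Vx_iff.2 c)
    · have := h.nonneg (Vx_iff.1 e)
      have := h.pos i
      omega
  have t : ∑ s ∈ Icc 0 (N + ∑ a, g a), (if ¬ ind M (s - ∑ a, g a) = true ∧
      ∀ i, Tr M g s i = true then 1 else 0 : ℤ) = #(pf M g N) := by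
    rw [sum_boole]
    congr 1
    refine card_bij (fun s _ => s - ∑ a, g a) (fun s hs => ?_) (fun s _ s' _ e => by omega)
      fun f hf => ⟨f + ∑ a, g a, ?_, by ring⟩
    · simpa only [h.mem_pf, ind_iff, Tr_iff] using (mem_filter.1 hs).2
    · have := mem_Icc.1 (mem_of_mem_filter f hf)
      refine mem_filter.2 ⟨mem_Icc.2 (by omega), ?_⟩
      simpa only [ind_iff, Tr_iff, add_sub_cancel_right] using h.mem_pf.1 hf
  have e : ∑ s ∈ Icc 0 (N + ∑ a, g a), h1 (ind M s) (ind M (s - ∑ a, g a)) (Vx M g s) (Tr M g s)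
      (Ed M g s) = rho M g N + #(pf M g N) - 1 := by
    simp only [h1, sum_add_distrib, sum_sub_distrib, h.euler, z, t, rho, Nat.cast_sum]
    ring
  have a : ∑ s ∈ Icc 0 (N + ∑ a, g a), #{i | isoD (Tr M g s) (Ed M g s) i} = 4 * #(pf M g N) := by
    rw [swap]
    simp [h.isoD_card]
  have b : ∑ s ∈ Icc 0 (N + ∑ a, g a), #{j | mark (Vx M g s) (Tr M g s) (Ed M g s) j} ≤ 8 := by
    rw [swap]
    refine (sum_le_sum fun j _ => h.mark_le j _).trans ?_
    rw [← swap _ fun s j => crit (Vx M g s) (Ed M g s) j]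
    refine (sum_le_sum fun s _ => (h.locG s).1).trans ?_
    rw [← mul_sum, swap]
    have := sum_le_card_nsmul univ
      (fun l => #{s ∈ Icc 0 (N + ∑ a, g a) | iso (Vx M g s) (Ed M g s) l}) 1 fun l _ =>
        card_le_one.2 fun s a s' b => h.iso_uniq l (mem_filter.1 a).2 (mem_filter.1 b).2
    simp only [card_univ, Fintype.card_fin, smul_eq_mul] at this
    omega
  have c := sum_le_sum fun s (_ : s ∈ Icc 0 (N + ∑ a, g a)) => (h.locC s).1
  have d := sum_le_sum fun s (_ : s ∈ Icc 0 (N + ∑ a, g a)) => (h.locC s).2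
  rw [← mul_sum, e, ← Nat.cast_sum, a] at c
  rw [← mul_sum, e, sum_add_distrib, ← Nat.cast_sum, ← Nat.cast_sum, a] at d
  omega

end Pool.Agent.P.MP_8e9e7d_al.S
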