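import Mathlib

/-! Finite facts about simplicial complexes on four vertices. -/

set_option autoImplicit false

namespace Pool.Agent.P.MP_8e9e7d_al.S

open Finset

variable (o f : Bool) (V T : Fin 4 → Bool) (E : Fin 4 → Fin 4 → Bool)

/-- joined by a path with at most three edges -/
def conn (i j : Fin 4) : Prop :=
  i = j ∨ E i j ∨ (∃ k, E i k ∧ E k j) ∨ ∃ k l, E i k ∧ E k l ∧ E l j

instance (i j : Fin 4) : Decidable (conn E i j) := by
  unfold conn
  infer_instance

/-- least vertex of a component other than the first component -/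
def nb (i : Fin 4) : Prop := V i ∧ (∀ j, j < i → ¬ conn E i j) ∧ ∃ j, j < i ∧ V j

instance (i : Fin 4) : Decidable (nb V E i) := by
  unfold nb
  infer_instance

/-- the least vertex -/
def bi : Fin 4 := if V 0 then 0 else if V 1 then 1 else if V 2 then 2 else 3

/-- an isolated vertex of a disconnected graph -/
def iso (i : Fin 4) : Prop := V i ∧ (∀ j, ¬ E i j) ∧ ∃ j, j ≠ i ∧ V j

instance (i : Fin 4) : Decidable (iso V E i) := by
  unfold iso
  infer_instance

/-- an isolated vertex of the disconnected dual complex -/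
def isoD (i : Fin 4) : Prop :=
  ¬ T i ∧ (∀ k l, k ≠ l → k ≠ i → l ≠ i → E k l) ∧ ∃ j, j ≠ i ∧ ¬ T j

instance (i : Fin 4) : Decidable (isoD T E i) := by
  unfold isoD
  infer_instance

/-- the link of `j` is a set of at least two points, and the complex without `j` is larger -/
def mark (j : Fin 4) : Prop :=
  (∃ k l, k ≠ l ∧ E j k ∧ E j l) ∧ (∀ l, l ≠ j → ¬ T l) ∧
    ((∃ k, k ≠ j ∧ V k ∧ ¬ E j k) ∨ ∃ k l, k ≠ j ∧ l ≠ j ∧ E k l)

instance (i : Fin 4) : Decidable (mark V T E i) := by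
  unfold mark
  infer_instance

/-- without `j` the complex is a set of points, one of them isolated in the whole complex, and
there are at least two of them -/
def crit (j : Fin 4) : Prop :=
  (∃ l, l ≠ j ∧ iso V E l) ∧ (∃ k l, k ≠ l ∧ k ≠ j ∧ l ≠ j ∧ V k ∧ V l) ∧
    ∀ k l, k ≠ j → l ≠ j → ¬ E k l

instance (i : Fin 4) : Decidable (crit V E i) := by
  unfold crit
  infer_instance

/-- the alternating count of faces -/
def chi : ℤ :=
  (if o then 1 else 0) - (if V 0 then 1 else 0) - (if V 1 then 1 else 0) - (if V 2 then 1 else 0) -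
    (if V 3 then 1 else 0) + (if E 0 1 then 1 else 0) + (if E 0 2 then 1 else 0) +
    (if E 0 3 then 1 else 0) + (if E 1 2 then 1 else 0) + (if E 1 3 then 1 else 0) +
    (if E 2 3 then 1 else 0) - (if T 0 then 1 else 0) - (if T 1 then 1 else 0) -
    (if T 2 then 1 else 0) - (if T 3 then 1 else 0) + (if f then 1 else 0)

/-- the rank of the first homology group -/
def h1 : ℤ :=
  chi o f V T E - (if o ∧ ∀ i, ¬ V i then 1 else 0) + (#{i | nb V E i} : ℕ) +
    (if ¬ f ∧ ∀ i, T i then 1 else 0)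

/-- the facts about the graph -/
def LocG : Prop :=
  #{j | crit V E j} ≤ 2 * #{i | iso V E i} ∧
  (∀ i j k, conn E i j → E j k → conn E i k) ∧
  (∀ i, V i → V (bi V) ∧ (conn E i (bi V) ∨ ∃ j, nb V E j ∧ conn E i j)) ∧
  (∀ j, nb V E j → V (bi V) ∧ ¬ conn E j (bi V)) ∧
  ∀ i j, nb V E i → nb V E j → conn E i j → i = j

instance : Decidable (LocG V E) := by
  unfold LocG
  infer_instance

/-- the facts about the complex -/
def LocC : Prop :=
  (#{i | isoD T E i} : ℕ) ≤ 2 * h1 o f V T E ∧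
    2 * h1 o f V T E ≤ (#{i | isoD T E i} : ℕ) + (#{j | mark V T E j} : ℕ)

instance : Decidable (LocC o f V T E) := by
  unfold LocC
  infer_instance

/-- the symmetric matrix with six given entries -/
def mkE (a b c d e g : Bool) : Fin 4 → Fin 4 → Bool :=
  ![![false, a, b, c], ![a, false, d, e], ![b, d, false, g], ![c, e, g, false]]

set_option synthInstance.maxSize 4000 in
theorem locG_bool : ∀ v0 v1 v2 v3 a b c d e g : Bool,
    (a → v0 ∧ v1) ∧ (b → v0 ∧ v2) ∧ (c → v0 ∧ v3) ∧ (d → v1 ∧ v2) ∧ (e → v1 ∧ v3) ∧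
      (g → v2 ∧ v3) → LocG ![v0, v1, v2, v3] (mkE a b c d e g) := by
  decide +kernel

set_option synthInstance.maxSize 4000 in
theorem locC_bool : ∀ o v0 v1 v2 v3 : Bool, (v0 → o) ∧ (v1 → o) ∧ (v2 → o) ∧ (v3 → o) →
    ∀ a b c d e g : Bool, (a → v0 ∧ v1) ∧ (b → v0 ∧ v2) ∧ (c → v0 ∧ v3) ∧ (d → v1 ∧ v2) ∧
      (e → v1 ∧ v3) ∧ (g → v2 ∧ v3) →
    ∀ t0 t1 t2 t3 f : Bool, (t0 → d ∧ e ∧ g) ∧ (t1 → b ∧ c ∧ g) ∧ (t2 → a ∧ c ∧ e) ∧
      (t3 → a ∧ b ∧ d) ∧ (f → t0 ∧ t1 ∧ t2 ∧ t3) →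
    LocC o f ![v0, v1, v2, v3] ![t0, t1, t2, t3] (mkE a b c d e g) := by
  decide +kernel

theorem eta (V : Fin 4 → Bool) : V = ![V 0, V 1, V 2, V 3] := by
  funext i
  fin_cases i <;> rfl

theorem etaE {E : Fin 4 → Fin 4 → Bool} (h0 : ∀ i, E i i = false) (h1 : ∀ i j, E i j = E j i) :
    E = mkE (E 0 1) (E 0 2) (E 0 3) (E 1 2) (E 1 3) (E 2 3) := by
  funext i j
  fin_cases i <;> fin_cases j <;> first | rfl | exact h0 _ | exact h1 _ _

end Pool.Agent.P.MP_8e9e7d_al.S
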