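import Pool.Agent.P.MP_8e9e7d_al.BMain
import Pool.Agent.P.MP_8e9e7d_al.SGlob

/-! The number of relations and the type as counts; two examples. -/

set_option autoImplicit false

namespace Pool.Agent.P.MP_8e9e7d_al.S

open Finset

section

variable {M G : ℤ → Prop} {g : Fin 4 → ℤ} {N : ℤ}

theorem conn_of (hG : ∀ v, G v ↔ ∃ i, g i = v) {s : ℤ} {i j : Fin 4} (c : conn (Ed M g s) i j) :
    B.Conn M G s (g i) (g j) := by
  have e : ∀ {a b : Fin 4}, Ed M g s a b = true → B.Conn M G s (g a) (g b) := fun {a b} e =>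
    B.Conn.edge ((hG _).2 ⟨a, rfl⟩) ((hG _).2 ⟨b, rfl⟩) (Ed_iff.1 e).2
  rcases c with rfl | c | ⟨k, c, d⟩ | ⟨k, l, c, d, f⟩
  · exact B.Conn.rfl'
  · exact e c
  · exact (e c).tr (e d)
  · exact ((e c).tr (e d)).tr (e f)

theorem Gen.of_conn (h : Gen M g N) (hG : ∀ v, G v ↔ ∃ i, g i = v) (hinj : Function.Injective g)
    {s : ℤ} {i j : Fin 4} (c : B.Conn M G s (g i) (g j)) : conn (Ed M g s) i j := by
  obtain ⟨k, e, d⟩ := c.closed (fun v => ∃ k, g k = v ∧ conn (Ed M g s) i k) ⟨i, rfl, Or.inl rfl⟩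
    (by
      rintro _ v ⟨k, rfl, d⟩ hv hm
      obtain ⟨l, rfl⟩ := (hG v).1 hv
      by_cases hk : k = l
      · exact ⟨k, by rw [hk], d⟩
      · exact ⟨l, rfl, (h.locG s).2.1 i k l d (Ed_iff.2 ⟨hk, hm⟩)⟩)
  exact hinj e ▸ d

theorem Gen.lb_ub (h : Gen M g N) (hG : ∀ v, G v ↔ ∃ i, g i = v) (hinj : Function.Injective g) :
    B.LB M G (rho M g N) ∧ B.UB M G (rho M g N) := by
  let L : Finset (ℤ × ℤ) := ((Icc 0 (N + ∑ a, g a)).sigma
    fun s => ({i | nb (Vx M g s) (Ed M g s) i} : Finset (Fin 4))).image fun p => (p.1, g p.2)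
  have hL : #L = rho M g N := by
    rw [card_image_of_injective, card_sigma, rho]
    rintro ⟨s, i⟩ ⟨s', i'⟩ e
    obtain ⟨rfl, e'⟩ := Prod.mk.inj e
    rw [show i = i' from hinj e']
  have mem : ∀ p, p ∈ L ↔ p.1 ∈ Icc 0 (N + ∑ a, g a) ∧
      ∃ i, nb (Vx M g p.1) (Ed M g p.1) i ∧ g i = p.2 := by
    intro p
    simp only [L, mem_image, mem_sigma, mem_filter, mem_univ, true_and]
    constructor
    · rintro ⟨⟨s, i⟩, ⟨a, b⟩, rfl⟩
      exact ⟨a, i, b, rfl⟩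
    · rintro ⟨a, i, b, c⟩
      exact ⟨⟨p.1, i⟩, ⟨a, b⟩, by rw [c]⟩
  refine ⟨⟨L, fun s => g (bi (Vx M g s)), hL.ge, fun p hp => ?_, fun p hp q hq e c => ?_⟩,
    ⟨L, fun s => g (bi (Vx M g s)), hL.le, fun s v hv hm => ?_⟩⟩
  · obtain ⟨-, i, a, b⟩ := (mem p).1 hp
    obtain ⟨c, d⟩ := (h.locG p.1).2.2.2.1 i a
    rw [← b]
    exact ⟨(hG _).2 ⟨i, rfl⟩, Vx_iff.1 a.1, (hG _).2 ⟨_, rfl⟩, Vx_iff.1 c,
      fun e => d (h.of_conn hG hinj e)⟩
  · obtain ⟨-, i, a, b⟩ := (mem p).1 hp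
    obtain ⟨-, j, a', b'⟩ := (mem q).1 hq
    rw [← b, ← b'] at c ⊢
    rw [← e] at a'
    rw [(h.locG p.1).2.2.2.2 i j a a' (h.of_conn hG hinj c)]
  · obtain ⟨i, rfl⟩ := (hG v).1 hv
    obtain ⟨a, b⟩ := (h.locG s).2.2.1 i (Vx_iff.2 hm)
    refine ⟨⟨(hG _).2 ⟨_, rfl⟩, Vx_iff.1 a⟩, b.imp (conn_of hG) ?_⟩
    rintro ⟨j, c, d⟩
    refine ⟨g j, (mem _).2 ⟨mem_Icc.2 ⟨?_, not_lt.1 fun hs => ?_⟩, j, c, rfl⟩, conn_of hG d⟩
    · have := h.nonneg hm
      have := h.pos i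
      omega
    · obtain ⟨-, c1, k, c2, -⟩ := c
      obtain ⟨x, y, -, -, -, e⟩ := two g j k c2.ne
      refine c1 k c2 (Or.inr (Or.inl (Ed_iff.2 ⟨c2.ne', h.big _ ?_⟩)))
      have := h.pos x
      have := h.pos y
      omega

end

theorem formula (Γ : AddSubmonoid ℕ) (g : Fin 4 → ℕ)
    (hcl : AddSubmonoid.closure (Set.range g) = Γ)
    (hmin : ∀ i, g i ∉ AddSubmonoid.closure (g '' {j | j ≠ i})) (N : ℤ)
    (hN : ∀ s, N < s → Mem Γ s) (k : Type) [Field k] :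
    Gen (Mem Γ) (fun i => g i) N ∧
      (RingHom.ker (B.ph k g)).spanFinrank = rho (Mem Γ) (fun i => g i) N ∧
      {f | IsPF Γ f}.ncard = #(pf (Mem Γ) (fun i => g i) N) := by
  have hM : ∀ s, Mem Γ s ↔ ∃ m, (B.dg g m : ℤ) = s := fun s => by
    constructor
    · rintro ⟨n, hn, rfl⟩
      obtain ⟨m, rfl⟩ := (B.mem_iff g n).1 (hcl ▸ hn)
      exact ⟨m, rfl⟩
    · rintro ⟨m, rfl⟩
      exact ⟨_, hcl ▸ (B.mem_iff g _).2 ⟨m, rfl⟩, rfl⟩
  have hinj : Function.Injective g := fun i j e => by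
    by_contra hne
    exact hmin i (AddSubmonoid.subset_closure ⟨j, Ne.symm hne, e.symm⟩)
  have hp : ∀ i, 0 < g i := fun i => Nat.pos_of_ne_zero fun e => hmin i (e ▸ zero_mem _)
  have gm : ∀ i, g i ∈ Γ := fun i => hcl ▸ AddSubmonoid.subset_closure ⟨i, rfl⟩
  have small : ∀ i, ∀ s ∈ Γ, s < g i → s ∈ AddSubmonoid.closure (g '' {j | j ≠ i}) := by
    intro i s hs
    rw [← hcl] at hs
    induction hs using AddSubmonoid.closure_induction with
    | mem x hx =>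
      obtain ⟨j, rfl⟩ := hx
      exact fun hl => AddSubmonoid.subset_closure ⟨j, fun e => by simp [e] at hl, rfl⟩
    | zero => exact fun _ => zero_mem _
    | add x y _ _ hx hy => exact fun hl => add_mem (hx (by omega)) (hy (by omega))
  let G : ℤ → Prop := fun v => ∃ i, (g i : ℤ) = v
  have hG : ∀ v, G v ↔ ∃ i, (g i : ℤ) = v := fun v => Iff.rfl
  have h : B.Sg (Mem Γ) G := by
    refine ⟨⟨0, zero_mem _, rfl⟩, ?_, ?_, ?_, ?_, ?_, ?_⟩
    · rintro _ _ ⟨a, ha, rfl⟩ ⟨b, hb, rfl⟩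
      exact ⟨a + b, add_mem ha hb, by push_cast; rfl⟩
    · rintro _ ⟨a, -, rfl⟩
      omega
    · rintro _ ⟨i, rfl⟩
      exact ⟨_, gm i, rfl⟩
    · rintro _ ⟨i, rfl⟩
      have := hp i
      omega
    · rintro _ _ ⟨i, rfl⟩ ⟨a, ha, rfl⟩ ⟨b, hb, e⟩
      by_contra hn
      have e' : g i = a + b := by omega
      exact hmin i (e' ▸ add_mem (small i a ha (by omega)) (small i b hb (by omega)))
    · intro a ha
      obtain ⟨m, rfl⟩ := (hM a).1 ha
      by_cases m0 : m = 0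
      · subst m0; left; simp [B.dg_zero]
      obtain ⟨i, hi⟩ : ∃ i, m i ≠ 0 := by
        by_contra hn
        push Not at hn
        exact m0 (Finsupp.ext hn)
      obtain ⟨n, rfl⟩ := B.split_at hi
      refine Or.inr ⟨g i, ⟨i, rfl⟩, (hM _).2 ⟨n, ?_⟩⟩
      rw [B.dg_add, B.dg_single]
      push_cast
      ring
  have hg : Gen (Mem Γ) (fun i => g i) N :=
    ⟨h.zero, fun i ha => h.add ha (h.mem ⟨i, rfl⟩), h.nonneg, fun i => h.pos ⟨i, rfl⟩,
      fun ha => (h.dec ha).imp_right fun ⟨_, ⟨i, e⟩, hv⟩ => ⟨i, e ▸ hv⟩, hN⟩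
  obtain ⟨a, b⟩ := hg.lb_ub hG fun i j e => hinj (Int.ofNat.inj e)
  refine ⟨hg, le_antisymm (B.ub_bridge k h hM hG hinj b) (B.lb_bridge k hM hG a), ?_⟩
  rw [← Set.ncard_coe_finset]
  congr 1
  ext f
  rw [mem_coe, hg.mem_pf]
  refine ⟨fun ⟨c, d⟩ => ⟨c, fun i => d _ (gm i) (hp i).ne'⟩, fun ⟨c, d⟩ => ⟨c, fun s hs h0 => ?_⟩⟩
  exact B.PF.add h ⟨c, fun _ ⟨i, e⟩ => e ▸ d i⟩ ⟨s, hs, rfl⟩ (by omega)

theorem main (Γ : AddSubmonoid ℕ) (g : Fin 4 → ℕ) (hfin : ((Γ : Set ℕ)ᶜ).Finite)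
    (hcl : AddSubmonoid.closure (Set.range g) = Γ)
    (hmin : ∀ i, g i ∉ AddSubmonoid.closure (g '' {j | j ≠ i})) (k : Type) [Field k] :
    {f | IsPF Γ f}.ncard + 1 ≤ (RingHom.ker (B.ph k g)).spanFinrank ∧
      (RingHom.ker (B.ph k g)).spanFinrank ≤ {f | IsPF Γ f}.ncard + 5 := by
  obtain ⟨N, hN⟩ := hfin.bddAbove
  obtain ⟨h, a, b⟩ := formula Γ g hcl hmin N (fun s hs => by
    by_contra hn
    have : s.toNat ≤ N := hN fun hm => hn ⟨_, hm, by omega⟩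
    omega) k
  rw [a, b]
  exact h.bounds

/-- membership read off a table of least elements in the residue classes -/
def tab (a : ℕ) (ap : List ℕ) (s : ℤ) : Bool :=
  decide (0 ≤ s) && decide (ap.getD (s.toNat % a) 0 ≤ s.toNat)

/-- the table is correct, and the generators are minimal -/
abbrev Ok (g : Fin 4 → ℕ) (ap : List ℕ) (N : ℕ) : Prop :=
  0 < g 0 ∧ ap.getD 0 0 = 0 ∧ (∀ i j, g i = g j → i = j) ∧ (∀ i, g 0 ≤ g i ∧ g i < 2 * g 0) ∧
  ∀ r < g 0, (∀ i, ap.getD ((r + g i) % g 0) 0 ≤ ap.getD r 0 + g i) ∧ ap.getD r 0 % g 0 = r ∧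
    ap.getD r 0 ≤ N + g 0 ∧ ∃ b < 5, ∃ c < 5, ∃ d < 5, ap.getD r 0 = b * g 1 + c * g 2 + d * g 3

theorem exa (g : Fin 4 → ℕ) (ap : List ℕ) (N r t : ℕ) (ok : Ok g ap N)
    (hr : ∑ s ∈ Icc (0 : ℤ) (N + ∑ a, (g a : ℤ)), #{i | nb (fun i => tab (g 0) ap (s - g i))
      (fun i j => decide (i ≠ j) && tab (g 0) ap (s - g i - g j)) i} = r)
    (ht : #{f ∈ Icc (-∑ a, (g a : ℤ)) N | tab (g 0) ap f = false ∧
      ∀ i, tab (g 0) ap (f + g i) = true} = t) :
    ((AddSubmonoid.closure (Set.range g) : Set ℕ)ᶜ).Finite ∧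
    (∀ i, g i ∉ AddSubmonoid.closure (g '' {j | j ≠ i})) ∧
    {f | IsPF (AddSubmonoid.closure (Set.range g)) f}.ncard = t ∧
    ∀ (k : Type) [Field k], (RingHom.ker (B.ph k g)).spanFinrank = r := by
  obtain ⟨h0, h1, h2, h3, h4⟩ := ok
  have gm : ∀ i, g i ∈ AddSubmonoid.closure (Set.range g) := fun i =>
    AddSubmonoid.subset_closure ⟨i, rfl⟩
  have mm : ∀ i n, n * g i ∈ AddSubmonoid.closure (Set.range g) := fun i n => by
    simpa using AddSubmonoid.nsmul_mem _ (gm i) n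
  have mem : ∀ n, n ∈ AddSubmonoid.closure (Set.range g) ↔ ap.getD (n % g 0) 0 ≤ n := by
    intro n
    constructor
    · intro hn
      induction hn using AddSubmonoid.closure_induction_right with
      | zero => rw [Nat.zero_mod, h1]
      | add_right x _ y hy ih =>
        obtain ⟨i, rfl⟩ := hy
        have := (h4 _ (Nat.mod_lt x h0)).1 i
        rw [Nat.mod_add_mod] at this
        omega
    · intro hn
      obtain ⟨-, a, -, b, -, c, -, d, -, e⟩ := h4 _ (Nat.mod_lt n h0)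
      obtain ⟨q, hq⟩ := (Nat.modEq_iff_dvd' hn).1 a
      rw [show n = b * g 1 + c * g 2 + d * g 3 + q * g 0 by rw [← e, mul_comm q, ← hq]; omega]
      exact add_mem (add_mem (add_mem (mm _ _) (mm _ _)) (mm _ _)) (mm _ _)
  have big : ∀ n, N < n → n ∈ AddSubmonoid.closure (Set.range g) := by
    intro n hn
    rw [mem]
    by_contra hc
    obtain ⟨-, a, b, -⟩ := h4 _ (Nat.mod_lt n h0)
    have := Nat.le_of_dvd (by omega) ((Nat.modEq_iff_dvd' (not_le.1 hc).le).1 a.symm)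
    omega
  have hmin : ∀ i, g i ∉ AddSubmonoid.closure (g '' {j | j ≠ i}) := by
    intro i hi
    have key : ∀ x ∈ AddSubmonoid.closure (g '' {j | j ≠ i}),
        x = 0 ∨ (∃ j, j ≠ i ∧ x = g j) ∨ 2 * g 0 ≤ x := by
      intro x hx
      induction hx using AddSubmonoid.closure_induction with
      | mem x hx =>
        obtain ⟨j, a, rfl⟩ := hx
        exact Or.inr (Or.inl ⟨j, a, rfl⟩)
      | zero => exact Or.inl rfl
      | add x y _ _ hx hy =>
        rcases hx with rfl | ⟨j, a, rfl⟩ | a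
        · simpa using hy
        · rcases hy with rfl | ⟨j', a', rfl⟩ | a'
          · exact Or.inr (Or.inl ⟨j, a, rfl⟩)
          · have := (h3 j).1
            have := (h3 j').1
            omega
          · omega
        · omega
    have := h3 i
    rcases key _ hi with a | ⟨j, a, b⟩ | a
    · omega
    · exact a (h2 _ _ b).symm
    · omega
  have hM : ∀ s, Mem (AddSubmonoid.closure (Set.range g)) s ↔ tab (g 0) ap s = true := by
    intro s
    simp only [tab, Bool.and_eq_true, decide_eq_true_eq, ← mem]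
    constructor
    · rintro ⟨n, hn, rfl⟩
      exact ⟨by omega, by simpa using hn⟩
    · rintro ⟨a, b⟩
      exact ⟨_, b, by omega⟩
  have hI : ind (Mem (AddSubmonoid.closure (Set.range g))) = tab (g 0) ap :=
    funext fun s => Bool.eq_iff_iff.2 (ind_iff.trans (hM s))
  have hF := fun (k : Type) [Field k] => formula _ g rfl hmin N
    (fun s hs => ⟨s.toNat, big _ (by omega), by omega⟩) k
  refine ⟨(Set.finite_le_nat N).subset fun n hn => not_lt.1 fun c => hn (big n c), hmin, ?_,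
    fun k _ => ?_⟩
  · rw [(hF ℚ).2.2, ← ht]
    congr 1
    ext f
    simp [pf, hM]
  · rw [(hF k).2.1, ← hr, rho]
    unfold Vx Ed
    rw [hI]

theorem exLow : ((AddSubmonoid.closure (Set.range ![7, 8, 9, 11]) : Set ℕ)ᶜ).Finite ∧
    (∀ i, ![7, 8, 9, 11] i ∉ AddSubmonoid.closure (![7, 8, 9, 11] '' {j | j ≠ i})) ∧
    {f | IsPF (AddSubmonoid.closure (Set.range ![7, 8, 9, 11])) f}.ncard = 3 ∧
    ∀ (k : Type) [Field k], (RingHom.ker (B.ph k ![7, 8, 9, 11])).spanFinrank = 4 :=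
  exa _ [0, 8, 9, 17, 11, 19, 20] 13 4 3 (by decide +kernel) (by decide +kernel)
    (by decide +kernel)

theorem exHigh : ((AddSubmonoid.closure (Set.range ![20, 27, 28, 31]) : Set ℕ)ᶜ).Finite ∧
    (∀ i, ![20, 27, 28, 31] i ∉ AddSubmonoid.closure (![20, 27, 28, 31] '' {j | j ≠ i})) ∧
    {f | IsPF (AddSubmonoid.closure (Set.range ![20, 27, 28, 31])) f}.ncard = 4 ∧
    ∀ (k : Type) [Field k], (RingHom.ker (B.ph k ![20, 27, 28, 31])).spanFinrank = 9 :=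
  exa _ [0, 81, 62, 83, 84, 85, 86, 27, 28, 89, 90, 31, 112, 93, 54, 55, 56, 117, 58, 59] 97 9 4
    (by decide +kernel) (by decide +kernel) (by decide +kernel)

end Pool.Agent.P.MP_8e9e7d_al.S
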